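import Mathlib

set_option autoImplicit false

open Finset Polynomial Real

namespace Pool.Agent.MP_f6b137_pr.H13

/-- Chebyshev nodes. -/
noncomputable def node (M i : ℕ) : ℝ := cos ((2 * i + 1) * π / (2 * M))

lemma cos_sep_aux (a b : ℝ) (ha : 0 ≤ a) (hab : a ≤ b) (hb : b ≤ π) :
    2 * ((b - a) / π) ^ 2 ≤ cos a - cos b := by
  rw [cos_sub_cos, show (a - b) / 2 = -((b - a) / 2) by ring, sin_neg]
  have hpi := pi_pos
  have h1 : (b - a) / π ≤ sin ((b - a) / 2) := by
    have := mul_le_sin (x := (b - a) / 2) (by linarith) (by linarith)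
    calc (b - a) / π = 2 / π * ((b - a) / 2) := by field_simp
      _ ≤ _ := this
  have h2 : sin ((b - a) / 2) ≤ sin ((a + b) / 2) := by
    rcases le_total ((a + b) / 2) (π / 2) with h | h
    · exact sin_le_sin_of_le_of_le_pi_div_two (by linarith) h (by linarith)
    · rw [← sin_pi_sub ((a + b) / 2)]
      exact sin_le_sin_of_le_of_le_pi_div_two (by linarith) (by linarith) (by linarith)
  have h0 : 0 ≤ (b - a) / π := div_nonneg (by linarith) hpi.le
  nlinarith

lemma cos_sep (a b : ℝ) (ha : 0 ≤ a) (ha' : a ≤ π) (hb : 0 ≤ b) (hb' : b ≤ π) :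
    2 * ((a - b) / π) ^ 2 ≤ |cos a - cos b| := by
  rcases le_total a b with h | h
  · have := cos_sep_aux a b ha h hb'
    rw [show (a - b) / π = -((b - a) / π) by ring, neg_sq]
    exact this.trans (le_abs_self _)
  · rw [abs_sub_comm]
    exact (cos_sep_aux b a hb h ha').trans (le_abs_self _)

lemma angle_mem {M i : ℕ} (hi : i < M) :
    0 ≤ (2 * i + 1) * π / (2 * M) ∧ (2 * i + 1) * π / (2 * M) ≤ π := by
  have hM : (0 : ℝ) < M := by exact_mod_cast (by omega : 0 < M)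
  have hi' : (i : ℝ) + 1 ≤ M := by exact_mod_cast hi
  refine ⟨by positivity, ?_⟩
  rw [div_le_iff₀ (by positivity)]
  nlinarith [pi_pos]

lemma node_sep {M i j : ℕ} (hi : i < M) (hj : j < M) :
    2 * (((i : ℝ) - j) / M) ^ 2 ≤ |node M i - node M j| := by
  have hM : (0 : ℝ) < M := by exact_mod_cast (by omega : 0 < M)
  have h := cos_sep _ _ (angle_mem hi).1 (angle_mem hi).2 (angle_mem hj).1 (angle_mem hj).2
  have hpi := pi_pos
  rwa [show ((2 * i + 1) * π / (2 * M) - (2 * j + 1) * π / (2 * M)) / π = ((i : ℝ) - j) / M by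
    field_simp; ring] at h

lemma node_sep' {M i j : ℕ} (hi : i < M) (hj : j < M) (hij : i ≠ j) :
    2 / (M : ℝ) ^ 2 ≤ |node M i - node M j| := by
  refine le_trans ?_ (node_sep hi hj)
  have hM : (0 : ℝ) < M := by exact_mod_cast (by omega : 0 < M)
  have h1 : (1 : ℝ) ≤ ((i : ℝ) - j) ^ 2 := by
    have : (1 : ℤ) ≤ ((i : ℤ) - j) ^ 2 := by
      have : (i : ℤ) - j ≠ 0 := by omega
      have := sq_pos_of_ne_zero this
      omega
    exact_mod_cast this
  rw [div_pow, ← mul_div_assoc]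
  gcongr
  linarith

lemma node_interior {M i : ℕ} (hi : i < M) : |node M i| ≤ 1 - 1 / (2 * (M : ℝ) ^ 2) := by
  have hM : (0 : ℝ) < M := by exact_mod_cast (by omega : 0 < M)
  have hi' : (i : ℝ) + 1 ≤ M := by exact_mod_cast hi
  have hpi := pi_pos
  have h1 := cos_sep_aux 0 _ le_rfl (angle_mem hi).1 (angle_mem hi).2
  have h2 := cos_sep_aux _ π (angle_mem hi).1 (angle_mem hi).2 le_rfl
  rw [cos_zero, show ((2 * i + 1) * π / (2 * M) - 0) / π = (2 * i + 1) / (2 * M) by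
    field_simp; ring] at h1
  rw [cos_pi, show (π - (2 * i + 1) * π / (2 * M)) / π = (2 * M - (2 * i + 1)) / (2 * M) by
    field_simp] at h2
  have e : 1 / (2 * (M : ℝ) ^ 2) = 2 * (1 / (2 * M)) ^ 2 := by field_simp
  have i0 : (0 : ℝ) ≤ i := Nat.cast_nonneg i
  have a1 : 2 * (1 / (2 * M) : ℝ) ^ 2 ≤ 2 * ((2 * i + 1) / (2 * M)) ^ 2 := by
    gcongr; linarith
  have a2 : 2 * (1 / (2 * M) : ℝ) ^ 2 ≤ 2 * ((2 * M - (2 * i + 1)) / (2 * M)) ^ 2 := by
    gcongr; linarith
  rw [e, abs_le, node]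
  constructor <;> linarith

lemma T_eq_prod (M : ℕ) :
    Chebyshev.T ℝ M = C (2 ^ (M - 1)) * ∏ i ∈ range M, (X - C (node M i)) := by
  have hinj : Set.InjOn (fun k : ℕ => cos ((2 * k + 1) * π / (2 * M))) (range M : Finset ℕ) :=
    (Finset.range M).nodup_map_iff_injOn.mp (Chebyshev.roots_T_real_nodup M)
  have hcard : (Chebyshev.T ℝ M).roots.card = (Chebyshev.T ℝ M).natDegree := by
    rw [Chebyshev.roots_T_real, Chebyshev.natDegree_T, Finset.card_val,
      Finset.card_image_of_injOn hinj]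
    simp
  have h := C_leadingCoeff_mul_prod_multiset_X_sub_C hcard
  rw [Chebyshev.leadingCoeff_T, Chebyshev.roots_T_real, ← Finset.prod_eq_multiset_prod,
    Finset.prod_image hinj] at h
  simpa [node] using h.symm

lemma cheb_upper (M : ℕ) (x : ℝ) (hx : |x| ≤ 1) :
    |2 ^ (M - 1) * ∏ i ∈ range M, (x - node M i)| ≤ 1 := by
  have h := Chebyshev.abs_eval_T_real_le_one M hx
  rw [T_eq_prod] at h
  simpa [eval_prod] using h

lemma cheb_lower {M j : ℕ} (hj : j < M) :
    1 ≤ |2 ^ (M - 1) * ∏ i ∈ (range M).erase j, (node M j - node M i)| := by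
  have hM : (1 : ℝ) ≤ M := by exact_mod_cast (by omega : 1 ≤ M)
  have h1 : (derivative (Chebyshev.T ℝ M)).eval (node M j)
      = 2 ^ (M - 1) * ∏ i ∈ (range M).erase j, (node M j - node M i) := by
    rw [T_eq_prod, ← Finset.mul_prod_erase _ _ (Finset.mem_range.2 hj)]
    simp [eval_prod]
  rw [← h1, Chebyshev.T_derivative_eq_U]
  have h2 := Chebyshev.U_real_cos ((2 * j + 1) * π / (2 * M)) ((M : ℤ) - 1)
  have h3 : |sin (((((M : ℤ) - 1 : ℤ) : ℝ) + 1) * ((2 * j + 1) * π / (2 * M)))| = 1 := by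
    rw [show ((((M : ℤ) - 1 : ℤ) : ℝ) + 1) * ((2 * j + 1) * π / (2 * M)) = π / 2 + j * π by
      push_cast; field_simp; ring, sin_add_nat_mul_pi]
    simp
  rw [← h2, abs_mul] at h3
  have h4 := abs_sin_le_one ((2 * j + 1) * π / (2 * M))
  simp only [eval_mul, Int.cast_natCast, eval_natCast, abs_mul, Nat.abs_cast, node]
  have h5 := abs_nonneg ((Chebyshev.U ℝ ((M : ℤ) - 1)).eval (cos ((2 * j + 1) * π / (2 * M))))
  nlinarith

open Classical in
/-- A set near which only a small proportion of the Chebyshev nodes lie. -/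
def Small (E : Set ℝ) (κ : ℝ) : Prop :=
  ∃ ρ : ℝ, 0 < ρ ∧ ∃ M0 : ℕ, ∀ M, M0 ≤ M →
    (((range M).filter (fun i => ∃ e ∈ E, |node M i - e| < 2 * ρ)).card : ℝ) ≤ κ * M

lemma Small.mono {E E' : Set ℝ} {κ κ' : ℝ} (h : Small E κ) (hE : E' ⊆ E) (hκ : κ ≤ κ') :
    Small E' κ' := by
  classical
  obtain ⟨ρ, hρ, M0, h⟩ := h
  refine ⟨ρ, hρ, M0, fun M hM => le_trans ?_ ((h M hM).trans (by gcongr))⟩
  refine Nat.cast_le.2 (Finset.card_le_card (fun i hi => ?_))
  simp only [Finset.mem_filter] at hi ⊢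
  obtain ⟨h1, e, he, h2⟩ := hi
  exact ⟨h1, e, hE he, h2⟩

lemma Small.union {E E' : Set ℝ} {κ κ' : ℝ} (h : Small E κ) (h' : Small E' κ') :
    Small (E ∪ E') (κ + κ') := by
  classical
  obtain ⟨ρ, hρ, M0, h⟩ := h
  obtain ⟨ρ', hρ', M0', h'⟩ := h'
  refine ⟨min ρ ρ', lt_min hρ hρ', max M0 M0', fun M hM => ?_⟩
  have a1 := h M (le_of_max_le_left hM)
  have a2 := h' M (le_of_max_le_right hM)
  rw [add_mul]
  refine le_trans ?_ (add_le_add a1 a2)
  rw [← Nat.cast_add]
  refine Nat.cast_le.2 (le_trans (Finset.card_le_card (fun i hi => ?_)) (Finset.card_union_le _ _))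
  simp only [Finset.mem_filter, Finset.mem_union] at hi ⊢
  obtain ⟨h1, e, he, h2⟩ := hi
  rcases he with he | he
  · exact Or.inl ⟨h1, e, he, by linarith [min_le_left ρ ρ']⟩
  · exact Or.inr ⟨h1, e, he, by linarith [min_le_right ρ ρ']⟩

lemma small_empty : Small ∅ 0 := ⟨1, one_pos, 0, fun M _ => by simp⟩

lemma small_Icc (κ : ℝ) (hκ : 0 < κ) (x : ℝ) :
    Small (Set.Icc (x - κ ^ 2 / 12) (x + κ ^ 2 / 12)) κ := by
  classical
  obtain ⟨M0, hM0⟩ := exists_nat_ge (2 / κ)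
  refine ⟨κ ^ 2 / 12, by positivity, M0, fun M hM => ?_⟩
  set S := (range M).filter
    (fun i => ∃ e ∈ Set.Icc (x - κ ^ 2 / 12) (x + κ ^ 2 / 12), |node M i - e| < 2 * (κ ^ 2 / 12))
    with hS
  have hM' : 2 / κ ≤ (M : ℝ) := hM0.trans (by exact_mod_cast hM)
  have hMpos : (0 : ℝ) < M := lt_of_lt_of_le (by positivity) hM'
  have hM1 : 1 ≤ κ / 2 * M := by
    rw [div_le_iff₀ hκ] at hM'
    linarith
  rcases S.eq_empty_or_nonempty with h0 | hne
  · rw [h0]; simp; positivity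
  have hsub : S ⊆ Finset.Icc (S.min' hne) (S.min' hne + ⌊κ / 2 * M⌋₊) := by
    intro i hi
    have hm := S.min'_mem hne
    have hle := S.min'_le i hi
    set m := S.min' hne
    refine Finset.mem_Icc.2 ⟨hle, ?_⟩
    rw [hS, Finset.mem_filter, Finset.mem_range] at hi hm
    obtain ⟨hi, e, he, hie⟩ := hi
    obtain ⟨hm, e', he', hme⟩ := hm
    have h1 := node_sep hi hm
    have h2 : |node M i - node M m| ≤ κ ^ 2 / 2 := by
      rw [abs_lt] at hie hme
      rw [abs_le]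
      constructor <;> linarith [he.1, he.2, he'.1, he'.2]
    have h3 : ((i : ℝ) - m) / M ≤ κ / 2 :=
      (abs_le_of_sq_le_sq' (by nlinarith) (by positivity)).2
    rw [div_le_iff₀ hMpos] at h3
    have h4 : i - m ≤ ⌊κ / 2 * M⌋₊ := Nat.le_floor (by rw [Nat.cast_sub hle]; exact h3)
    omega
  have h5 := Finset.card_le_card hsub
  rw [Nat.card_Icc] at h5
  have h6 : (S.card : ℝ) ≤ ⌊κ / 2 * M⌋₊ + 1 := by exact_mod_cast (by omega)
  have h7 := Nat.floor_le (show 0 ≤ κ / 2 * M by positivity)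
  linarith

lemma small_biUnion {A : Type*} (F : Finset A) (x : A → ℝ) (κ : ℝ) (hκ : 0 < κ) :
    Small (⋃ a ∈ F, Set.Icc (x a - κ ^ 2 / 12) (x a + κ ^ 2 / 12)) (F.card * κ) := by
  classical
  induction F using Finset.induction_on with
  | empty => simpa using small_empty
  | insert a F ha ih =>
    rw [Finset.set_biUnion_insert, Finset.card_insert_of_notMem ha]
    have := (small_Icc κ hκ (x a)).union ih
    push_cast
    rwa [show ((F.card : ℝ) + 1) * κ = κ + F.card * κ by ring]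

lemma exists_small {A : Type*} [Fintype A] (x : A → ℝ) (κ : ℝ) (hκ : 0 < κ) :
    ∃ τ0 : ℝ, 0 < τ0 ∧ ∀ τ ≤ τ0, Small (⋃ a, Set.Icc (x a - τ) (x a + τ)) κ := by
  have hc : (0 : ℝ) < Fintype.card A + 1 := by positivity
  refine ⟨(κ / (Fintype.card A + 1)) ^ 2 / 12, by positivity, fun τ hτ => ?_⟩
  refine (small_biUnion Finset.univ x (κ / (Fintype.card A + 1)) (by positivity)).mono ?_ ?_
  · simp only [Finset.mem_univ, Set.iUnion_true]
    exact Set.iUnion_mono (fun a => Set.Icc_subset_Icc (by linarith) (by linarith))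
  · rw [Finset.card_univ, mul_div_assoc', div_le_iff₀ hc]
    nlinarith

/-- A polynomial that is small on `E` and large away from `E`. -/
lemma exists_sigma (E : Set ℝ) (hE : E ⊆ Set.Icc (-1) 1) (hne : E.Nonempty) (ρ : ℝ) (hρ : 0 < ρ) :
    ∃ σ : ℝ[X], (∀ x ∈ E, |σ.eval x| ≤ 1 / 2) ∧
      ∀ x ∈ Set.Icc (-1 : ℝ) 1, (∀ e ∈ E, ρ ≤ |x - e|) → 1 ≤ |σ.eval x| := by
  let f : ℝ → ℝ := fun x => 5 / 4 * min (Metric.infDist x E / ρ) 1
  have hf : Continuous f := by
    have := Metric.continuous_infDist_pt E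
    fun_prop
  obtain ⟨σ, hσ⟩ := exists_polynomial_near_of_continuousOn (-1) 1 f hf.continuousOn (1 / 4)
    (by norm_num)
  refine ⟨σ, fun x hx => ?_, fun x hx h => ?_⟩
  · have h1 := hσ x (hE hx)
    have h2 : f x = 0 := by simp [f, Metric.infDist_zero_of_mem hx]
    rw [h2, sub_zero] at h1
    linarith
  · have h1 := hσ x hx
    have h2 : ρ ≤ Metric.infDist x E := (Metric.le_infDist hne).2 (fun e he => h e he)
    have h3 : f x = 5 / 4 := by
      simp only [f]
      rw [min_eq_right ((one_le_div hρ).2 h2), mul_one]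
    rw [h3, abs_lt] at h1
    exact le_trans (by linarith) (le_abs_self _)

end Pool.Agent.MP_f6b137_pr.H13
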