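import Mathlib

set_option autoImplicit false

open Finset Polynomial
open scoped RealInnerProductSpace

namespace Pool.Agent.MP_f6b137_pr.H13

/-- Orthonormal polynomials for a bilinear form. -/
structure IsONP (B : ℝ[X] →ₗ[ℝ] ℝ[X] →ₗ[ℝ] ℝ) (q : ℕ → ℝ[X]) : Prop where
  deg : ∀ k, (q k).natDegree = k
  pos : ∀ k, 0 < (q k).leadingCoeff
  on : ∀ j k, B (q j) (q k) = if j = k then 1 else 0

/-- Gram-Schmidt. -/
noncomputable def onp (B : ℝ[X] →ₗ[ℝ] ℝ[X] →ₗ[ℝ] ℝ) (n : ℕ) : ℝ[X] :=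
  (Real.sqrt (B (X ^ n - ∑ k : Fin n, B (X ^ n) (onp B k) • onp B k)
    (X ^ n - ∑ k : Fin n, B (X ^ n) (onp B k) • onp B k)))⁻¹ •
      (X ^ n - ∑ k : Fin n, B (X ^ n) (onp B k) • onp B k)
termination_by n
decreasing_by all_goals exact k.2

theorem exists_onp (B : ℝ[X] →ₗ[ℝ] ℝ[X] →ₗ[ℝ] ℝ) (hs : ∀ P Q, B P Q = B Q P)
    (hp : ∀ P, P ≠ 0 → 0 < B P P) : ∃ q, IsONP B q := by
  have key : ∀ n, ((onp B n).natDegree = n ∧ 0 < (onp B n).leadingCoeff) ∧
      (∀ j < n, B (onp B n) (onp B j) = 0) ∧ B (onp B n) (onp B n) = 1 := by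
    intro n
    induction n using Nat.strong_induction_on with
    | _ n ih =>
      have hon : ∀ j k : Fin n, B (onp B k) (onp B j) = if k = j then 1 else 0 := by
        intro j k
        rcases lt_trichotomy k j with h | h | h
        · rw [hs, (ih j j.2).2.1 k h, if_neg h.ne]
        · rw [h, (ih j j.2).2.2, if_pos rfl]
        · rw [(ih k k.2).2.1 j h, if_neg h.ne']
      set r : ℝ[X] := X ^ n - ∑ k : Fin n, B (X ^ n) (onp B k) • onp B k with hr
      have hdef : onp B n = (Real.sqrt (B r r))⁻¹ • r := by rw [onp]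
      have hdeg : (∑ k : Fin n, B (X ^ n) (onp B k) • onp B k).degree < (X ^ n : ℝ[X]).degree := by
        rw [degree_X_pow]
        refine (degree_sum_le _ _).trans_lt ((Finset.sup_lt_iff (WithBot.bot_lt_coe n)).2 ?_)
        intro k _
        refine (degree_smul_le _ _).trans_lt (degree_le_natDegree.trans_lt ?_)
        rw [(ih k k.2).1.1]
        exact Nat.cast_lt.2 k.2
      have hm : r.Monic := (monic_X_pow n).sub_of_left hdeg
      have hrd : r.natDegree = n := by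
        apply natDegree_eq_of_degree_eq_some
        rw [hr, degree_sub_eq_left_of_degree_lt hdeg, degree_X_pow]
      have hpos : 0 < B r r := hp r hm.ne_zero
      have hsq : 0 < Real.sqrt (B r r) := Real.sqrt_pos.2 hpos
      refine ⟨⟨?_, ?_⟩, ?_, ?_⟩
      · rw [hdef, natDegree_smul _ (inv_pos.2 hsq).ne', hrd]
      · rw [hdef, leadingCoeff_smul_of_smul_regular _ (IsSMulRegular.of_ne_zero (inv_pos.2 hsq).ne'),
          hm.leadingCoeff]
        simpa using hpos
      · intro j hj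
        have : B r (onp B j) = 0 := by
          rw [hr, map_sub, map_sum, LinearMap.sub_apply, LinearMap.sum_apply]
          simp only [map_smul, LinearMap.smul_apply, smul_eq_mul]
          have e : ∀ k : Fin n, B (X ^ n) (onp B k) * B (onp B k) (onp B j)
              = if k = ⟨j, hj⟩ then B (X ^ n) (onp B j) else 0 := by
            intro k
            rw [hon ⟨j, hj⟩ k]
            split_ifs with h
            · rw [h]; simp
            · simp
          simp [e]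
        rw [hdef, map_smul, LinearMap.smul_apply, this, smul_zero]
      · rw [hdef]
        simp only [map_smul, LinearMap.smul_apply, smul_eq_mul]
        have := Real.mul_self_sqrt hpos.le
        field_simp
        nlinarith
  refine ⟨onp B, fun k => (key k).1.1, fun k => (key k).1.2, fun j k => ?_⟩
  rcases lt_trichotomy j k with h | h | h
  · rw [hs, (key k).2.1 j h, if_neg h.ne]
  · rw [h, (key k).2.2, if_pos rfl]
  · rw [(key j).2.1 k h, if_neg h.ne']

/-- Linear combination of the first `s` polynomials of a family. -/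
noncomputable def comb (q : ℕ → ℝ[X]) (s : ℕ) : EuclideanSpace ℝ (Fin s) →ₗ[ℝ] ℝ[X] where
  toFun c := ∑ b, c b • q b
  map_add' c c' := by simp [add_smul, Finset.sum_add_distrib]
  map_smul' a c := by simp [Finset.smul_sum, mul_smul]

lemma comb_apply (q : ℕ → ℝ[X]) (s : ℕ) (c : EuclideanSpace ℝ (Fin s)) :
    comb q s c = ∑ b, c b • q b := rfl

variable {B : ℝ[X] →ₗ[ℝ] ℝ[X] →ₗ[ℝ] ℝ} {q : ℕ → ℝ[X]}

lemma IsONP.ne_zero (h : IsONP B q) (k : ℕ) : q k ≠ 0 :=
  leadingCoeff_ne_zero.1 (h.pos k).ne'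

lemma IsONP.degree_eq (h : IsONP B q) (k : ℕ) : (q k).degree = k := by
  rw [degree_eq_natDegree (h.ne_zero k), h.deg]

lemma IsONP.comb_degree (h : IsONP B q) {s : ℕ} (c : EuclideanSpace ℝ (Fin s)) :
    (comb q s c).degree < s := by
  rw [comb_apply]
  refine (degree_sum_le _ _).trans_lt ((Finset.sup_lt_iff (WithBot.bot_lt_coe s)).2 ?_)
  intro k _
  refine (degree_smul_le _ _).trans_lt ?_
  rw [h.degree_eq]
  exact Nat.cast_lt.2 k.2

lemma IsONP.form_comb (h : IsONP B q) {s : ℕ} (c c' : EuclideanSpace ℝ (Fin s)) :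
    B (comb q s c) (comb q s c') = ⟪c, c'⟫ := by
  simp only [comb_apply, map_sum, map_smul, LinearMap.sum_apply, LinearMap.smul_apply, smul_eq_mul,
    h.on, PiLp.inner_apply, Fin.val_inj]
  refine Finset.sum_congr rfl (fun b _ => ?_)
  simp [mul_comm]

lemma IsONP.form_comb_self (h : IsONP B q) {s : ℕ} (c : EuclideanSpace ℝ (Fin s)) :
    B (comb q s c) (comb q s c) = ‖c‖ ^ 2 := by
  rw [h.form_comb, real_inner_self_eq_norm_sq]

lemma IsONP.comb_injective (h : IsONP B q) (s : ℕ) : Function.Injective (comb q s) := by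
  rw [← LinearMap.ker_eq_bot, LinearMap.ker_eq_bot']
  intro c hc
  have := h.form_comb_self c
  rw [hc] at this
  simpa using this.symm

lemma IsONP.exists_comb (h : IsONP B q) (s : ℕ) (Q : ℝ[X]) (hQ : Q.degree < s) :
    ∃ c, comb q s c = Q := by
  let f : EuclideanSpace ℝ (Fin s) →ₗ[ℝ] degreeLT ℝ s :=
    (comb q s).codRestrict _ (fun c => mem_degreeLT.2 (h.comb_degree c))
  have hf : Function.Injective f := fun a b hab => h.comb_injective s (congrArg Subtype.val hab)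
  have hdim : Module.finrank ℝ (EuclideanSpace ℝ (Fin s)) = Module.finrank ℝ (degreeLT ℝ s) := by
    rw [(degreeLTEquiv ℝ s).finrank_eq]; simp
  have : FiniteDimensional ℝ (degreeLT ℝ s) := (degreeLTEquiv ℝ s).symm.finiteDimensional
  obtain ⟨c, hc⟩ := (LinearMap.injective_iff_surjective_of_finrank_eq_finrank hdim).1 hf
    ⟨Q, mem_degreeLT.2 hQ⟩
  exact ⟨c, congrArg Subtype.val hc⟩

/-- Vector of values of the first `s` polynomials at a point. -/
noncomputable def vals (q : ℕ → ℝ[X]) (s : ℕ) (y : ℝ) : EuclideanSpace ℝ (Fin s) :=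
  WithLp.toLp 2 (fun b => (q b).eval y)

lemma eval_comb (q : ℕ → ℝ[X]) (s : ℕ) (y : ℝ) (c : EuclideanSpace ℝ (Fin s)) :
    (comb q s c).eval y = ⟪vals q s y, c⟫ := by
  simp [comb_apply, vals, PiLp.inner_apply, eval_finsetSum]

lemma IsONP.vals_ne (h : IsONP B q) {s : ℕ} (hs : 0 < s) (y : ℝ) : vals q s y ≠ 0 := by
  intro h0
  have h1 : (q 0).eval y = 0 := congrFun (congrArg WithLp.ofLp h0) ⟨0, hs⟩
  have h2 := h.pos 0
  rw [eq_C_of_natDegree_eq_zero (h.deg 0)] at h1 h2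
  simp only [eval_C, leadingCoeff_C] at h1 h2
  linarith

/-- The unit vector representing evaluation at `y`. -/
noncomputable def kdir (q : ℕ → ℝ[X]) (s : ℕ) (y : ℝ) : EuclideanSpace ℝ (Fin s) :=
  ‖vals q s y‖⁻¹ • vals q s y

lemma IsONP.norm_kdir (h : IsONP B q) {s : ℕ} (hs : 0 < s) (y : ℝ) : ‖kdir q s y‖ = 1 := by
  rw [kdir, norm_smul, norm_inv, norm_norm, inv_mul_cancel₀ (norm_ne_zero_iff.2 (h.vals_ne hs y))]

/-- Away from the support, evaluation at nearby complex points is governed by the kernel. -/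
theorem IsONP.kernel (h : IsONP B q) {s : ℕ} (hs : 0 < s) (y ρ : ℝ) (hρ : 0 < ρ)
    (hB : ∀ Q, ρ ^ 2 * B Q Q ≤ B ((X - C y) * Q) ((X - C y) * Q)) (z : ℂ) (hz : ‖z - y‖ ≤ ρ / 2) :
    aeval z (comb q s (kdir q s y)) ≠ 0 ∧
    (∀ c, ‖aeval z (comb q s c)‖ ≤ 2 * ‖aeval z (comb q s (kdir q s y))‖ * ‖c‖) ∧
    ∀ c, ‖aeval z (comb q s c) - (⟪kdir q s y, c⟫ : ℝ) * aeval z (comb q s (kdir q s y))‖
      ≤ 2 * ‖z - y‖ / ρ * ‖aeval z (comb q s (kdir q s y))‖ * ‖c‖ := by
  set k := kdir q s y with hk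
  have hk1 : ‖k‖ = 1 := h.norm_kdir hs y
  let L : EuclideanSpace ℝ (Fin s) →L[ℝ] ℂ :=
    LinearMap.toContinuousLinearMap ((aeval z : ℝ[X] →ₐ[ℝ] ℂ).toLinearMap.comp (comb q s))
  have hL : ∀ c, L c = aeval z (comb q s c) := fun c => rfl
  have hv := norm_ne_zero_iff.2 (h.vals_ne hs y)
  have hstep : ∀ c, ‖L c - (⟪k, c⟫ : ℝ) * L k‖ ≤ ‖z - y‖ / ρ * ‖L‖ * ‖c‖ := by
    intro c
    set c1 := c - ⟪k, c⟫ • k with hc1
    have hkk : ⟪k, k⟫ = 1 := by rw [real_inner_self_eq_norm_sq, hk1]; norm_num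
    have h0 : ⟪k, c1⟫ = 0 := by rw [hc1, inner_sub_right, real_inner_smul_right, hkk]; ring
    have h1 : (comb q s c1).eval y = 0 := by
      rw [eval_comb]
      rw [hk, kdir, real_inner_smul_left] at h0
      exact (mul_eq_zero.1 h0).resolve_left (inv_ne_zero hv)
    obtain ⟨Q1, hQ1⟩ := dvd_iff_isRoot.2 h1
    have hdeg : Q1.degree < s := by
      refine lt_of_le_of_lt ?_ (h.comb_degree c1)
      rw [hQ1, mul_comm]
      exact degree_le_mul_left _ (X_sub_C_ne_zero y)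
    obtain ⟨c', hc'⟩ := h.exists_comb s Q1 hdeg
    have h2 : ‖c1‖ ^ 2 ≤ ‖c‖ ^ 2 := by
      rw [hc1, norm_sub_sq_real, real_inner_smul_right, norm_smul, hk1, real_inner_comm k c]
      simp only [Real.norm_eq_abs, mul_one, sq_abs]
      nlinarith [sq_nonneg ⟪k, c⟫]
    have h3 : ρ * ‖c'‖ ≤ ‖c‖ := by
      have := hB Q1
      rw [← hQ1, ← hc', h.form_comb_self, h.form_comb_self, ← mul_pow] at this
      exact (abs_le_of_sq_le_sq' (this.trans h2) (norm_nonneg _)).2
    have h4 : L c - (⟪k, c⟫ : ℝ) * L k = (z - y) * L c' := by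
      have : L c1 = (z - y) * L c' := by
        rw [hL, hL, hQ1, hc']; simp
      rw [← this, hc1, map_sub, map_smul, Complex.real_smul]
    rw [h4, norm_mul]
    have h5 : ‖L c'‖ ≤ ‖L‖ * (‖c‖ / ρ) :=
      (L.le_opNorm c').trans (mul_le_mul_of_nonneg_left (by rw [le_div_iff₀' hρ]; exact h3)
        (norm_nonneg _))
    calc _ ≤ ‖z - y‖ * (‖L‖ * (‖c‖ / ρ)) := by gcongr
      _ = _ := by ring
  have hhalf : ‖z - y‖ / ρ ≤ 1 / 2 := by rw [div_le_iff₀ hρ]; linarith
  have hLn : ‖L‖ ≤ 2 * ‖L k‖ := by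
    have : ‖L‖ ≤ ‖L k‖ + 1 / 2 * ‖L‖ := by
      refine L.opNorm_le_bound (by positivity) (fun c => ?_)
      have a1 := hstep c
      have a2 : ‖((⟪k, c⟫ : ℝ) : ℂ) * L k‖ ≤ ‖c‖ * ‖L k‖ := by
        rw [norm_mul, Complex.norm_real]
        have := norm_inner_le_norm (𝕜 := ℝ) k c
        rw [hk1, one_mul] at this
        gcongr
      have a3 := norm_add_le (L c - (⟪k, c⟫ : ℝ) * L k) ((⟪k, c⟫ : ℝ) * L k)
      rw [sub_add_cancel] at a3
      have a4 : ‖z - y‖ / ρ * ‖L‖ * ‖c‖ ≤ 1 / 2 * ‖L‖ * ‖c‖ := by gcongr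
      nlinarith
    linarith
  refine ⟨?_, fun c => ?_, fun c => ?_⟩
  · rw [← hL]
    intro h0
    rw [h0, norm_zero, mul_zero] at hLn
    have hL0 : L = 0 := norm_le_zero_iff.1 hLn
    obtain ⟨c, hc⟩ := h.exists_comb s 1 (by rw [degree_one]; exact_mod_cast hs)
    have := hL c
    rw [hL0, hc] at this
    simp at this
  · rw [← hL, ← hL]
    exact (L.le_opNorm c).trans (by gcongr)
  · rw [← hL, ← hL]
    refine (hstep c).trans ?_
    calc ‖z - y‖ / ρ * ‖L‖ * ‖c‖ ≤ ‖z - y‖ / ρ * (2 * ‖L k‖) * ‖c‖ := by gcongr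
      _ = _ := by ring

/-- The top coordinates carry most of the evaluation functional. -/
theorem IsONP.top_part (h : IsONP B q) {s : ℕ} (hs : 0 < s) (y : ℝ) (σ : ℝ[X]) (d : ℕ)
    (hd : σ.natDegree ≤ d) (hy : 1 ≤ |σ.eval y|) (hB : ∀ Q, 4 * B (σ * Q) (σ * Q) ≤ B Q Q) :
    3 / 4 ≤ ∑ b : Fin s, if s ≤ b + d then kdir q s y b ^ 2 else 0 := by
  set k := kdir q s y with hk
  have hk1 : ‖k‖ = 1 := h.norm_kdir hs y
  have hv := norm_pos_iff.2 (h.vals_ne hs y)
  let c : EuclideanSpace ℝ (Fin s) := WithLp.toLp 2 (fun b => if s ≤ b + d then 0 else k b)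
  have hc2 : ‖c‖ ^ 2 = ∑ b : Fin s, if s ≤ b + d then 0 else k b ^ 2 := by
    rw [EuclideanSpace.real_norm_sq_eq]
    refine Finset.sum_congr rfl (fun b _ => ?_)
    simp only [c]
    split_ifs <;> simp
  have hkc : ⟪k, c⟫ = ‖c‖ ^ 2 := by
    rw [hc2, PiLp.inner_apply]
    refine Finset.sum_congr rfl (fun b _ => ?_)
    simp only [c]
    split_ifs <;> simp [sq]
  have hdeg : (σ * comb q s c).degree < s := by
    rw [comb_apply, Finset.mul_sum]
    refine (degree_sum_le _ _).trans_lt ((Finset.sup_lt_iff (WithBot.bot_lt_coe s)).2 ?_)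
    intro b _
    simp only [c]
    split_ifs with hb
    · simp
    · rw [mul_smul_comm]
      refine (degree_smul_le _ _).trans_lt (degree_le_natDegree.trans_lt ?_)
      have := natDegree_mul_le (p := σ) (q := q b)
      rw [h.deg] at this
      exact Nat.cast_lt.2 (by omega : (σ * q b).natDegree < s)
  obtain ⟨c', hc'⟩ := h.exists_comb s _ hdeg
  have h1 : 2 * ‖c'‖ ≤ ‖c‖ := by
    have := hB (comb q s c)
    rw [← hc', h.form_comb_self, h.form_comb_self] at this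
    exact (abs_le_of_sq_le_sq' (by nlinarith) (norm_nonneg _)).2
  have hvk : vals q s y = ‖vals q s y‖ • k := by
    rw [hk, kdir, smul_smul, mul_inv_cancel₀ hv.ne', one_smul]
  have h2 : ‖c‖ ^ 2 ≤ ‖c'‖ := by
    have e1 : ⟪vals q s y, c'⟫ = σ.eval y * ⟪vals q s y, c⟫ := by
      rw [← eval_comb, ← eval_comb, hc', eval_mul]
    rw [hvk, real_inner_smul_left, real_inner_smul_left, hkc] at e1
    have e2 : ⟪k, c'⟫ = σ.eval y * ‖c‖ ^ 2 := mul_left_cancel₀ hv.ne' (by rw [e1]; ring)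
    have e3 := abs_real_inner_le_norm k c'
    rw [hk1, one_mul, e2, abs_mul, abs_of_nonneg (sq_nonneg ‖c‖)] at e3
    nlinarith [sq_nonneg ‖c‖]
  have h3 : ‖c‖ ^ 2 ≤ 1 / 4 := by nlinarith [norm_nonneg c, norm_nonneg c']
  have h4 : (∑ b : Fin s, if s ≤ b + d then k b ^ 2 else 0) + ‖c‖ ^ 2 = 1 := by
    rw [hc2, ← Finset.sum_add_distrib, ← one_pow 2, ← hk1, EuclideanSpace.real_norm_sq_eq]
    refine Finset.sum_congr rfl (fun b _ => ?_)
    split_ifs <;> simp
  linarith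

end Pool.Agent.MP_f6b137_pr.H13
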