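import Mathlib

set_option autoImplicit false

open MeasureTheory ProbabilityTheory Finset
open scoped RealInnerProductSpace

namespace Pool.Agent.MP_f6b137_pr.H13

section gauss

variable {E : Type} [NormedAddCommGroup E] [InnerProductSpace ℝ E] [FiniteDimensional ℝ E]
  [MeasurableSpace E] [BorelSpace E]

lemma map_inner (v : E) :
    (stdGaussian E).map (fun ξ => ⟪v, ξ⟫) = gaussianReal 0 (‖v‖ ^ 2).toNNReal := by
  have h := IsGaussian.map_eq_gaussianReal (μ := stdGaussian E) (innerSL ℝ v)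
  rw [integral_strongDual_stdGaussian, variance_dual_stdGaussian, innerSL_apply_norm] at h
  exact h

lemma memLp_inner (v : E) : MemLp (fun ξ => ⟪v, ξ⟫) 2 (stdGaussian E) :=
  IsGaussian.memLp_dual (stdGaussian E) (innerSL ℝ v) 2 (by simp)

lemma integrable_inner_sq (v : E) : Integrable (fun ξ => ⟪v, ξ⟫ ^ 2) (stdGaussian E) :=
  (memLp_inner v).integrable_sq

lemma integral_inner_sq (v : E) : ∫ ξ, ⟪v, ξ⟫ ^ 2 ∂(stdGaussian E) = ‖v‖ ^ 2 := by
  have h : Var[fun ξ => ⟪v, ξ⟫; stdGaussian E] = ‖innerSL ℝ v‖ ^ 2 :=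
    variance_dual_stdGaussian (innerSL ℝ v)
  rw [innerSL_apply_norm, variance_eq_sub (memLp_inner v)] at h
  have h0 : ∫ ξ, ⟪v, ξ⟫ ∂(stdGaussian E) = 0 := integral_strongDual_stdGaussian (innerSL ℝ v)
  rw [h0] at h
  simpa using h

lemma cov_inner (v w : E) :
    cov[fun ξ => ⟪v, ξ⟫, fun ξ => ⟪w, ξ⟫; stdGaussian E] = ⟪v, w⟫ := by
  rw [← covarianceBilin_apply_eq_cov IsGaussian.memLp_two_id, covarianceBilin_stdGaussian]
  rfl

omit [MeasurableSpace E] [BorelSpace E] in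
lemma norm_sq_eq_sum (ξ : E) :
    ‖ξ‖ ^ 2 = ∑ i, ⟪stdOrthonormalBasis ℝ E i, ξ⟫ ^ 2 :=
  ((stdOrthonormalBasis ℝ E).sum_sq_inner_right ξ).symm

lemma integrable_norm_sq : Integrable (fun ξ : E => ‖ξ‖ ^ 2) (stdGaussian E) := by
  simp_rw [norm_sq_eq_sum]
  exact integrable_finsetSum _ (fun i _ => integrable_inner_sq _)

lemma integral_norm_sq : ∫ ξ : E, ‖ξ‖ ^ 2 ∂(stdGaussian E) = Module.finrank ℝ E := by
  simp_rw [norm_sq_eq_sum]
  rw [integral_finsetSum _ (fun i _ => integrable_inner_sq _)]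
  simp [integral_inner_sq]

end gauss

/-- Markov's inequality in the form used below. -/
lemma markov {Ω : Type*} [MeasurableSpace Ω] (μ : Measure Ω) [IsProbabilityMeasure μ] (f : Ω → ℝ)
    (h0 : ∀ x, 0 ≤ f x) (hf : Integrable f μ) (t a : ℝ) (ht : 0 < t) (h : ∫ x, f x ∂μ ≤ a * t) :
    μ.real {x | t ≤ f x} ≤ a := by
  have h1 := mul_meas_ge_le_integral_of_nonneg (Filter.Eventually.of_forall h0) hf t
  have h2 : t * μ.real {x | t ≤ f x} ≤ t * a := by linarith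
  exact le_of_mul_le_mul_left h2 ht

lemma real_inter_ge {Ω : Type*} [MeasurableSpace Ω] (μ : Measure Ω) [IsProbabilityMeasure μ]
    (S T : Set Ω) (hS : MeasurableSet S) (hT : MeasurableSet T) :
    1 - μ.real S - μ.real T ≤ μ.real (Sᶜ ∩ Tᶜ) := by
  rw [← Set.compl_union, measureReal_compl (hS.union hT), probReal_univ]
  have := measureReal_union_le (μ := μ) S T
  linarith

open Classical in
lemma integral_count {Ω J : Type*} [MeasurableSpace Ω] [Fintype J] (μ : Measure Ω)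
    [IsProbabilityMeasure μ] (S : J → Set Ω) (hS : ∀ j, MeasurableSet (S j)) :
    Measurable (fun x => ((Finset.univ.filter (fun j => x ∈ S j)).card : ℝ)) ∧
    Integrable (fun x => ((Finset.univ.filter (fun j => x ∈ S j)).card : ℝ)) μ ∧
    ∫ x, ((Finset.univ.filter (fun j => x ∈ S j)).card : ℝ) ∂μ = ∑ j, μ.real (S j) := by
  have e : (fun x => ((Finset.univ.filter (fun j => x ∈ S j)).card : ℝ))
      = fun x => ∑ j, (S j).indicator (fun _ => (1 : ℝ)) x := by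
    ext x
    rw [← Finset.sum_boole]
    exact Finset.sum_congr rfl (fun j _ => by simp [Set.indicator_apply])
  have hi : ∀ j, Integrable ((S j).indicator (fun _ => (1 : ℝ))) μ :=
    fun j => (integrable_const _).indicator (hS j)
  rw [e]
  refine ⟨Finset.measurable_sum _ (fun j _ => measurable_const.indicator (hS j)),
    integrable_finsetSum _ (fun j _ => hi j), ?_⟩
  rw [integral_finsetSum _ (fun j _ => hi j)]
  exact Finset.sum_congr rfl (fun j _ => by simp [integral_indicator (hS j)])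

lemma gauss_pos (a b : ℝ) (h : a < b) : 0 < (gaussianReal 0 1).real (Set.Icc a b) := by
  rw [measureReal_def, ENNReal.toReal_pos_iff]
  refine ⟨pos_iff_ne_zero.2 (fun h0 => ?_), measure_lt_top _ _⟩
  have := gaussianReal_absolutelyContinuous' 0 (v := 1) one_ne_zero h0
  simp at this
  linarith

lemma gauss_small (s δ : ℝ) (hs : 3 / 4 ≤ s) (hδ : 0 ≤ δ) :
    (gaussianReal 0 s.toNNReal).real (Set.Icc (-δ) δ) ≤ δ := by
  have hs0 : s.toNNReal ≠ 0 := by
    simp only [ne_eq, Real.toNNReal_eq_zero, not_le]; linarith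
  have hb : ∀ x, gaussianPDF 0 s.toNNReal x ≤ ENNReal.ofReal (1 / 2) := by
    intro x
    refine ENNReal.ofReal_le_ofReal ?_
    unfold gaussianPDFReal
    have h1 : (2 : ℝ) ≤ Real.sqrt (2 * Real.pi * s.toNNReal) := by
      apply Real.le_sqrt_of_sq_le
      rw [Real.coe_toNNReal s (by linarith)]
      nlinarith [Real.pi_gt_three]
    have h2 : Real.exp (-(x - 0) ^ 2 / (2 * s.toNNReal)) ≤ 1 := by
      apply Real.exp_le_one_iff.2
      apply div_nonpos_of_nonpos_of_nonneg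
      · nlinarith [sq_nonneg (x - 0)]
      · positivity
    calc _ ≤ (2 : ℝ)⁻¹ * 1 := by gcongr
      _ = 1 / 2 := by norm_num
  rw [measureReal_def, gaussianReal_apply 0 hs0]
  have h3 : ∫⁻ x in Set.Icc (-δ) δ, gaussianPDF 0 s.toNNReal x ≤ ENNReal.ofReal δ := by
    calc _ ≤ ∫⁻ _x in Set.Icc (-δ) δ, ENNReal.ofReal (1 / 2) := lintegral_mono hb
      _ = ENNReal.ofReal (1 / 2) * ENNReal.ofReal (δ - -δ) := by simp
      _ = ENNReal.ofReal δ := by
          rw [← ENNReal.ofReal_mul (by norm_num)]; congr 1; ring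
  exact ENNReal.toReal_le_of_le_ofReal hδ h3

/-- The small box in which the local quadratic has non-real zeros. -/
def Box (Z X Y : ℝ) : Prop := |Z - 1| ≤ 1 / 100 ∧ |X - 1| ≤ 1 / 100 ∧ |Y + 1| ≤ 1 / 100

open Classical in
theorem probB : ∃ q : ℝ, 0 < q ∧ q ≤ 1 ∧
    ∀ (E : Type) [NormedAddCommGroup E] [InnerProductSpace ℝ E] [FiniteDimensional ℝ E]
      [MeasurableSpace E] [BorelSpace E] (J : Type) [Fintype J] [Nonempty J] (z x y : J → E),
      (∀ j, Orthonormal ℝ ![z j, x j, y j]) →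
      ∃ B : Set E, MeasurableSet B ∧ q / 4 ≤ (stdGaussian E).real B ∧ ∀ ξ ∈ B,
        ‖ξ‖ ^ 2 ≤ 4 * (Module.finrank ℝ E + 1) / q ∧
        q * Fintype.card J / 2
          ≤ (Finset.univ.filter (fun j => Box ⟪z j, ξ⟫ ⟪x j, ξ⟫ ⟪y j, ξ⟫)).card := by
  let c : Fin 3 → ℝ := ![1, 1, -1]
  let I : Fin 3 → Set ℝ := fun i => Set.Icc (c i - 1 / 100) (c i + 1 / 100)
  have hq0 : 0 < ∏ i, (gaussianReal 0 1).real (I i) :=
    Finset.prod_pos (fun i _ => gauss_pos _ _ (by linarith))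
  have hq1 : ∏ i, (gaussianReal 0 1).real (I i) ≤ 1 :=
    Finset.prod_le_one (fun i _ => measureReal_nonneg) (fun i _ => measureReal_le_one)
  refine ⟨∏ i, (gaussianReal 0 1).real (I i), hq0, hq1, ?_⟩
  set q := ∏ i, (gaussianReal 0 1).real (I i) with hq
  intro E _ _ _ _ _ J _ _ z x y hon
  let S : J → Set E := fun j => ⋂ i, (fun ξ => ⟪![z j, x j, y j] i, ξ⟫) ⁻¹' I i
  have hmeas : ∀ v : E, Measurable (fun ξ : E => ⟪v, ξ⟫) := fun v => by fun_prop
  have hS : ∀ j, MeasurableSet (S j) := fun j =>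
    MeasurableSet.iInter (fun i => hmeas _ measurableSet_Icc)
  have hSq : ∀ j, (stdGaussian E).real (S j) = q := by
    intro j
    have hG : HasGaussianLaw (fun (ξ : E) (i : Fin 3) => ⟪![z j, x j, y j] i, ξ⟫) (stdGaussian E) :=
      (IsGaussian.hasGaussianLaw_id (μ := stdGaussian E)).map_fun
        (ContinuousLinearMap.pi (fun i => innerSL ℝ (![z j, x j, y j] i)))
    have hind : iIndepFun (fun (i : Fin 3) (ξ : E) => ⟪![z j, x j, y j] i, ξ⟫) (stdGaussian E) :=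
      hG.iIndepFun_of_covariance_eq_zero (fun i k hik => by
        rw [cov_inner]; exact (hon j).2 hik)
    have h1 := hind.meas_iInter (s := fun i => (fun ξ => ⟪![z j, x j, y j] i, ξ⟫) ⁻¹' I i)
      (fun i => ⟨I i, measurableSet_Icc, rfl⟩)
    rw [measureReal_def, h1, ENNReal.toReal_prod, hq]
    refine Finset.prod_congr rfl (fun i _ => ?_)
    rw [← Measure.map_apply (hmeas _) measurableSet_Icc, map_inner, (hon j).1 i]
    simp only [one_pow, Real.toNNReal_one, measureReal_def, I]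
  have hmem : ∀ j ξ, ξ ∈ S j → Box ⟪z j, ξ⟫ ⟪x j, ξ⟫ ⟪y j, ξ⟫ := by
    intro j ξ h
    have h0 := Set.mem_iInter.1 h 0
    have h1 := Set.mem_iInter.1 h 1
    have h2 := Set.mem_iInter.1 h 2
    simp only [Set.mem_preimage, I, c, Set.mem_Icc, Matrix.cons_val_zero, Matrix.cons_val_one,
      Matrix.cons_val] at h0 h1 h2
    refine ⟨abs_le.2 ⟨?_, ?_⟩, abs_le.2 ⟨?_, ?_⟩, abs_le.2 ⟨?_, ?_⟩⟩ <;> linarith [h0.1, h0.2, h1.1, h1.2, h2.1, h2.2]
  obtain ⟨hc1, hc2, hc3⟩ := integral_count (stdGaussian E) S hS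
  set f : E → ℝ := fun ξ => ((Finset.univ.filter (fun j => ξ ∈ S j)).card : ℝ) with hf
  set r : ℝ := (Fintype.card J : ℝ) with hr
  have hr0 : 0 < r := by rw [hr]; exact_mod_cast Fintype.card_pos
  have hfr : ∀ ξ, f ξ ≤ r := fun ξ => by
    simp only [hf, hr]; exact_mod_cast Finset.card_le_univ _
  have hint : ∫ ξ, f ξ ∂(stdGaussian E) = q * r := by
    rw [hc3]; simp [hSq, hr, mul_comm]
  have m1 : (stdGaussian E).real {ξ | r - q * r / 2 ≤ r - f ξ} ≤ 1 - q / 2 := by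
    refine markov _ (fun ξ => r - f ξ) (fun ξ => by linarith [hfr ξ])
      ((integrable_const _).sub hc2) _ _ (by nlinarith) ?_
    rw [integral_sub (integrable_const _) hc2, hint]
    simp only [integral_const, probReal_univ, smul_eq_mul, one_mul]
    nlinarith [mul_pos hq0 hq0]
  have m2 : (stdGaussian E).real {ξ | 4 * (Module.finrank ℝ E + 1) / q ≤ ‖ξ‖ ^ 2} ≤ q / 4 := by
    refine markov _ (fun ξ => ‖ξ‖ ^ 2) (fun ξ => by positivity) integrable_norm_sq _ _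
      (by positivity) ?_
    rw [integral_norm_sq]
    have : q / 4 * (4 * ((Module.finrank ℝ E : ℝ) + 1) / q) = Module.finrank ℝ E + 1 := by
      field_simp
    rw [this]; linarith
  have s1 : MeasurableSet {ξ | r - q * r / 2 ≤ r - f ξ} :=
    measurableSet_le measurable_const (measurable_const.sub hc1)
  have s2 : MeasurableSet {ξ : E | 4 * (Module.finrank ℝ E + 1) / q ≤ ‖ξ‖ ^ 2} :=
    measurableSet_le measurable_const (by fun_prop)
  refine ⟨_, s1.compl.inter s2.compl, ?_, ?_⟩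
  · have := real_inter_ge (stdGaussian E) _ _ s1 s2
    linarith
  · rintro ξ ⟨h1, h2⟩
    simp only [Set.mem_compl_iff, Set.mem_ofPred_eq, not_le] at h1 h2
    refine ⟨h2.le, ?_⟩
    have h3 : f ξ ≤ (Finset.univ.filter (fun j => Box ⟪z j, ξ⟫ ⟪x j, ξ⟫ ⟪y j, ξ⟫)).card := by
      simp only [hf]
      exact_mod_cast Finset.card_le_card (fun j hj =>
        Finset.mem_filter.2 ⟨Finset.mem_univ _, hmem j ξ (Finset.mem_filter.1 hj).2⟩)
    linarith

open Classical in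
/-- A direction correlated with most of the given vectors. -/
theorem exists_dir (F : Type) [NormedAddCommGroup F] [InnerProductSpace ℝ F] [FiniteDimensional ℝ F]
    (J : Type) [Fintype J] [Nonempty J] (v : J → F) (hv : ∀ j, 3 / 4 ≤ ‖v j‖ ^ 2)
    (κ : ℝ) (hκ : 0 < κ) :
    ∃ g : F, ‖g‖ ^ 2 ≤ 4 * (Module.finrank ℝ F + 1) ∧
      ((Finset.univ.filter (fun j => |⟪v j, g⟫| ≤ κ / 4)).card : ℝ) ≤ κ * Fintype.card J := by
  borelize F
  let S : J → Set F := fun j => (fun ξ => ⟪v j, ξ⟫) ⁻¹' Set.Icc (-(κ / 4)) (κ / 4)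
  have hmeas : ∀ w : F, Measurable (fun ξ : F => ⟪w, ξ⟫) := fun w => by fun_prop
  have hS : ∀ j, MeasurableSet (S j) := fun j => hmeas _ measurableSet_Icc
  have hSq : ∀ j, (stdGaussian F).real (S j) ≤ κ / 4 := by
    intro j
    rw [measureReal_def, ← Measure.map_apply (hmeas _) measurableSet_Icc, map_inner]
    exact gauss_small _ _ (hv j) (by positivity)
  obtain ⟨hc1, hc2, hc3⟩ := integral_count (stdGaussian F) S hS
  set f : F → ℝ := fun ξ => ((Finset.univ.filter (fun j => ξ ∈ S j)).card : ℝ) with hf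
  set r : ℝ := (Fintype.card J : ℝ) with hr
  have hr0 : 0 < r := by rw [hr]; exact_mod_cast Fintype.card_pos
  have m1 : (stdGaussian F).real {ξ | κ * r ≤ f ξ} ≤ 1 / 4 := by
    refine markov _ f (fun ξ => by positivity) hc2 _ _ (by positivity) ?_
    rw [hc3]
    calc _ ≤ ∑ _j : J, κ / 4 := Finset.sum_le_sum (fun j _ => hSq j)
      _ = _ := by simp [hr]; ring
  have m2 : (stdGaussian F).real {ξ | 4 * (Module.finrank ℝ F + 1) ≤ ‖ξ‖ ^ 2} ≤ 1 / 4 := by
    refine markov _ (fun ξ => ‖ξ‖ ^ 2) (fun ξ => by positivity) integrable_norm_sq _ _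
      (by positivity) ?_
    rw [integral_norm_sq]; linarith
  have s1 : MeasurableSet {ξ | κ * r ≤ f ξ} := measurableSet_le measurable_const hc1
  have s2 : MeasurableSet {ξ : F | 4 * (Module.finrank ℝ F + 1) ≤ ‖ξ‖ ^ 2} :=
    measurableSet_le measurable_const (by fun_prop)
  have h := real_inter_ge (stdGaussian F) _ _ s1 s2
  obtain ⟨g, h1, h2⟩ : ({ξ | κ * r ≤ f ξ}ᶜ ∩ {ξ : F | 4 * (Module.finrank ℝ F + 1) ≤ ‖ξ‖ ^ 2}ᶜ).Nonempty := by
    by_contra hne
    rw [Set.not_nonempty_iff_eq_empty.1 hne] at h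
    simp at h
    linarith
  simp only [Set.mem_compl_iff, Set.mem_ofPred_eq, not_le] at h1 h2
  refine ⟨g, h2.le, le_trans (le_of_eq ?_) h1.le⟩
  simp only [hf, S, Set.mem_preimage, Set.mem_Icc, abs_le]

open Classical in
theorem probA (δ κ : ℝ) (hδ : 0 < δ) (hκ : 0 < κ) : ∃ p : ℝ, 0 < p ∧ ∃ Λ : ℝ, 0 ≤ Λ ∧
    ∀ (E : Type) [NormedAddCommGroup E] [InnerProductSpace ℝ E] [FiniteDimensional ℝ E]
      [MeasurableSpace E] [BorelSpace E] (J : Type) [Fintype J] [Nonempty J] (z x y : J → E)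
      (u : E), (∀ j, ‖z j‖ = 1) → (∀ j, ‖x j‖ = 1) → (∀ j, ‖y j‖ = 1) → ‖u‖ = 1 →
      (∀ j, ⟪x j, u⟫ = 0) → (∀ j, ⟪y j, u⟫ = 0) →
      ((Finset.univ.filter (fun j => |⟪z j, u⟫| < δ)).card : ℝ) ≤ κ * Fintype.card J →
      ∃ A : Set E, MeasurableSet A ∧ p ≤ (stdGaussian E).real A ∧ ∀ ξ ∈ A,
        ‖ξ‖ ^ 2 ≤ Λ + 8 * (Module.finrank ℝ E + 1) ∧
        ((Finset.univ.filter (fun j => |⟪z j, ξ⟫| ≤ |⟪x j, ξ⟫| + |⟪y j, ξ⟫| + 1)).card : ℝ)
          ≤ 2 * κ * Fintype.card J := by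
  set L : ℝ := Real.sqrt (12 / κ) with hL
  have hL0 : 0 < L := Real.sqrt_pos.2 (by positivity)
  have hL2 : L ^ 2 = 12 / κ := Real.sq_sqrt (by positivity)
  set Λ0 : ℝ := (3 * L + 2) / δ with hΛ0
  have hΛ00 : 0 < Λ0 := by positivity
  refine ⟨(gaussianReal 0 1).real (Set.Icc Λ0 (Λ0 + 1)) / 2,
    half_pos (gauss_pos _ _ (by linarith)), 2 * (Λ0 + 1) ^ 2, by positivity, ?_⟩
  intro E _ _ _ _ _ J _ _ z x y u hz hx hy hu hxu hyu hcount
  set r : ℝ := (Fintype.card J : ℝ) with hr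
  have hr0 : 0 < r := by rw [hr]; exact_mod_cast Fintype.card_pos
  let Pr : E →L[ℝ] E := ContinuousLinearMap.id ℝ E - (innerSL ℝ u).smulRight u
  have hPr : ∀ ξ, Pr ξ = ξ - ⟪u, ξ⟫ • u := fun ξ => rfl
  have huu : ⟪u, u⟫ = 1 := by rw [real_inner_self_eq_norm_sq, hu]; norm_num
  have hsym : ∀ v ξ, ⟪v, Pr ξ⟫ = ⟪Pr v, ξ⟫ := by
    intro v ξ
    rw [hPr, hPr, inner_sub_right, inner_sub_left, real_inner_smul_right, real_inner_smul_left,
      real_inner_comm u v]
    ring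
  have hnorm : ∀ v, ‖Pr v‖ ^ 2 ≤ ‖v‖ ^ 2 := by
    intro v
    rw [hPr, norm_sub_sq_real, real_inner_smul_right, norm_smul, hu, real_inner_comm u v]
    simp only [Real.norm_eq_abs, mul_one, sq_abs]
    nlinarith [sq_nonneg ⟪u, v⟫]
  have hind : IndepFun (fun ξ : E => ⟪u, ξ⟫) (fun ξ => Pr ξ) (stdGaussian E) := by
    have hG : HasGaussianLaw (fun ξ : E => (⟪u, ξ⟫, Pr ξ)) (stdGaussian E) :=
      (IsGaussian.hasGaussianLaw_id (μ := stdGaussian E)).map_fun ((innerSL ℝ u).prod Pr)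
    refine hG.indepFun_of_covariance_inner (fun a w => ?_)
    have e1 : (fun ξ : E => ⟪a, ⟪u, ξ⟫⟫) = fun ξ => ⟪a • u, ξ⟫ := by
      ext ξ; rw [real_inner_smul_left]; simp [mul_comm]
    have e2 : (fun ξ : E => ⟪w, Pr ξ⟫) = fun ξ => ⟪Pr w, ξ⟫ := by ext ξ; exact hsym w ξ
    rw [e1, e2, cov_inner, real_inner_smul_left, hPr, inner_sub_right, real_inner_smul_right, huu]
    ring
  let W : E → J → ℝ := fun η j => ⟪z j, η⟫ ^ 2 + ⟪x j, η⟫ ^ 2 + ⟪y j, η⟫ ^ 2
  let S1 : Set E := {η | 12 * r ≤ ∑ j, W η j}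
  let S2 : Set E := {η | 4 * (Module.finrank ℝ E + 1) ≤ ‖η‖ ^ 2}
  have s1 : MeasurableSet S1 := measurableSet_le measurable_const (by simp only [W]; fun_prop)
  have s2 : MeasurableSet S2 := measurableSet_le measurable_const (by fun_prop)
  have hPm : Measurable (fun ξ => Pr ξ) := Pr.continuous.measurable
  have hi : ∀ v : E, Integrable (fun ξ => ⟪v, Pr ξ⟫ ^ 2) (stdGaussian E) := fun v => by
    simp_rw [hsym]; exact integrable_inner_sq _
  have hI : ∀ v : E, ‖v‖ = 1 → ∫ ξ, ⟪v, Pr ξ⟫ ^ 2 ∂(stdGaussian E) ≤ 1 := fun v hv => by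
    simp_rw [hsym]
    rw [integral_inner_sq]
    have := hnorm v
    rw [hv] at this
    linarith
  have hWi : ∀ j, Integrable (fun ξ => W (Pr ξ) j) (stdGaussian E) :=
    fun j => ((hi _).add (hi _)).add (hi _)
  have m1 : (stdGaussian E).real ((fun ξ => Pr ξ) ⁻¹' S1) ≤ 1 / 4 := by
    refine markov _ (fun ξ => ∑ j, W (Pr ξ) j)
      (fun ξ => Finset.sum_nonneg (fun j _ => by simp only [W]; positivity))
      (integrable_finsetSum _ (fun j _ => hWi j)) _ _ (by positivity) ?_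
    rw [integral_finsetSum _ (fun j _ => hWi j)]
    calc _ ≤ ∑ _j : J, (3 : ℝ) := Finset.sum_le_sum (fun j _ => by
          simp only [W]
          have hzx : Integrable (fun ξ => ⟪z j, Pr ξ⟫ ^ 2 + ⟪x j, Pr ξ⟫ ^ 2) (stdGaussian E) :=
            (hi _).add (hi _)
          rw [integral_add hzx (hi _), integral_add (hi _) (hi _)]
          linarith [hI _ (hz j), hI _ (hx j), hI _ (hy j)])
      _ = _ := by simp [hr]; ring
  have m2 : (stdGaussian E).real ((fun ξ => Pr ξ) ⁻¹' S2) ≤ 1 / 4 := by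
    have hint : Integrable (fun ξ => ‖Pr ξ‖ ^ 2) (stdGaussian E) :=
      integrable_norm_sq.mono' (by fun_prop) (Filter.Eventually.of_forall (fun ξ => by
        rw [Real.norm_of_nonneg (by positivity)]; exact hnorm ξ))
    refine markov _ (fun ξ => ‖Pr ξ‖ ^ 2) (fun ξ => by positivity) hint _ _ (by positivity) ?_
    have := integral_mono hint integrable_norm_sq hnorm
    rw [integral_norm_sq] at this
    linarith
  have hm : Measurable (fun ξ : E => ⟪u, ξ⟫) := by fun_prop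
  refine ⟨(fun ξ : E => ⟪u, ξ⟫) ⁻¹' Set.Icc Λ0 (Λ0 + 1) ∩ (fun ξ => Pr ξ) ⁻¹' (S1ᶜ ∩ S2ᶜ),
    (hm measurableSet_Icc).inter (hPm (s1.compl.inter s2.compl)), ?_, ?_⟩
  · rw [measureReal_def (stdGaussian E), hind.measure_inter_preimage_eq_mul _ _ measurableSet_Icc
      (s1.compl.inter s2.compl), ENNReal.toReal_mul,
      ← Measure.map_apply hm measurableSet_Icc, map_inner, hu]
    have h1 := real_inter_ge (stdGaussian E) _ _ (hPm s1) (hPm s2)
    have h2 : 1 / 2 ≤ ((stdGaussian E) ((fun ξ => Pr ξ) ⁻¹' (S1ᶜ ∩ S2ᶜ))).toReal := by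
      rw [Set.preimage_inter, Set.preimage_compl, Set.preimage_compl, ← measureReal_def]
      linarith
    have h3 := gauss_pos Λ0 (Λ0 + 1) (by linarith)
    simp only [one_pow, Real.toNNReal_one]
    rw [← measureReal_def]
    nlinarith
  · rintro ξ ⟨⟨hg1, hg2⟩, h1, h2⟩
    simp only [Set.mem_compl_iff, S1, S2, Set.mem_ofPred_eq, not_le] at h1 h2
    have hξ : ξ = Pr ξ + ⟪u, ξ⟫ • u := by rw [hPr]; abel
    constructor
    · have a1 : ‖ξ‖ ≤ ‖Pr ξ‖ + (Λ0 + 1) := by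
        calc ‖ξ‖ = ‖Pr ξ + ⟪u, ξ⟫ • u‖ := by rw [← hξ]
          _ ≤ ‖Pr ξ‖ + ‖⟪u, ξ⟫ • u‖ := norm_add_le _ _
          _ ≤ _ := by
            rw [norm_smul, hu, mul_one, Real.norm_of_nonneg (by linarith)]
            linarith
      have a2 : ‖ξ‖ ^ 2 ≤ (‖Pr ξ‖ + (Λ0 + 1)) ^ 2 := pow_le_pow_left₀ (norm_nonneg _) a1 2
      nlinarith [sq_nonneg (‖Pr ξ‖ - (Λ0 + 1))]
    · have hsub : Finset.univ.filter (fun j => |⟪z j, ξ⟫| ≤ |⟪x j, ξ⟫| + |⟪y j, ξ⟫| + 1)
          ⊆ Finset.univ.filter (fun j => |⟪z j, u⟫| < δ)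
            ∪ Finset.univ.filter (fun j => L ^ 2 ≤ W (Pr ξ) j) := by
        intro j hj
        have hj' := (Finset.mem_filter.1 hj).2
        by_contra hc
        simp only [Finset.mem_union, Finset.mem_filter, Finset.mem_univ, true_and, not_or, not_lt,
          not_le, W] at hc
        obtain ⟨c1, c2⟩ := hc
        have ex : ⟪x j, ξ⟫ = ⟪x j, Pr ξ⟫ := by
          rw [hPr, inner_sub_right, real_inner_smul_right, hxu]; ring
        have ey : ⟪y j, ξ⟫ = ⟪y j, Pr ξ⟫ := by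
          rw [hPr, inner_sub_right, real_inner_smul_right, hyu]; ring
        have ez : ⟪u, ξ⟫ * ⟪z j, u⟫ = ⟪z j, ξ⟫ - ⟪z j, Pr ξ⟫ := by
          rw [hPr, inner_sub_right, real_inner_smul_right]; ring
        have bz : |⟪z j, Pr ξ⟫| ≤ L := abs_le_of_sq_le_sq' (by nlinarith [sq_nonneg ⟪x j, Pr ξ⟫, sq_nonneg ⟪y j, Pr ξ⟫]) hL0.le |> abs_le.2
        have bx : |⟪x j, Pr ξ⟫| ≤ L := abs_le_of_sq_le_sq' (by nlinarith [sq_nonneg ⟪z j, Pr ξ⟫, sq_nonneg ⟪y j, Pr ξ⟫]) hL0.le |> abs_le.2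
        have by' : |⟪y j, Pr ξ⟫| ≤ L := abs_le_of_sq_le_sq' (by nlinarith [sq_nonneg ⟪z j, Pr ξ⟫, sq_nonneg ⟪x j, Pr ξ⟫]) hL0.le |> abs_le.2
        have b1 : 3 * L + 2 ≤ |⟪u, ξ⟫ * ⟪z j, u⟫| := by
          rw [abs_mul, abs_of_nonneg (by linarith : 0 ≤ ⟪u, ξ⟫)]
          calc 3 * L + 2 = Λ0 * δ := by rw [hΛ0]; field_simp
            _ ≤ _ := mul_le_mul hg1 c1 hδ.le (by linarith)
        rw [ez] at b1
        have b2 := abs_sub ⟪z j, ξ⟫ ⟪z j, Pr ξ⟫
        rw [ex, ey] at hj'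
        linarith
      have c1 : ((Finset.univ.filter (fun j => L ^ 2 ≤ W (Pr ξ) j)).card : ℝ) ≤ κ * r := by
        have d1 : ((Finset.univ.filter (fun j => L ^ 2 ≤ W (Pr ξ) j)).card : ℝ) * L ^ 2
            ≤ ∑ j, W (Pr ξ) j := by
          calc _ = ∑ _j ∈ Finset.univ.filter (fun j => L ^ 2 ≤ W (Pr ξ) j), L ^ 2 := by simp
            _ ≤ ∑ j ∈ Finset.univ.filter (fun j => L ^ 2 ≤ W (Pr ξ) j), W (Pr ξ) j :=
              Finset.sum_le_sum (fun j hj => (Finset.mem_filter.1 hj).2)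
            _ ≤ _ := Finset.sum_le_sum_of_subset_of_nonneg (Finset.subset_univ _)
              (fun j _ _ => by simp only [W]; positivity)
        have d2 : κ * r * L ^ 2 = 12 * r := by rw [hL2]; field_simp
        exact le_of_mul_le_mul_right (by linarith) (by positivity : 0 < L ^ 2)
      have c2 : ((Finset.univ.filter (fun j => |⟪z j, ξ⟫| ≤ |⟪x j, ξ⟫| + |⟪y j, ξ⟫| + 1)).card : ℝ)
          ≤ (Finset.univ.filter (fun j => |⟪z j, u⟫| < δ)).card
            + (Finset.univ.filter (fun j => L ^ 2 ≤ W (Pr ξ) j)).card := by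
        exact_mod_cast (Finset.card_le_card hsub).trans (Finset.card_union_le _ _)
      linarith

/-- Two separated events force a large variance (no measurability of `N` is needed). -/
lemma variance_ge {Ω : Type*} [MeasurableSpace Ω] (P : Measure Ω) [IsProbabilityMeasure P]
    (N : Ω → ℝ) (n : ℝ) (hN : ∀ ω, |N ω| ≤ n) (A B : Set Ω) (hA : MeasurableSet A)
    (hB : MeasurableSet B) (p a b : ℝ) (hpA : p ≤ P.real A) (hpB : p ≤ P.real B)
    (hab : b ≤ a) (h1 : ∀ ω ∈ A, a ≤ N ω) (h2 : ∀ ω ∈ B, N ω ≤ b) :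
    p * ((a - b) / 2) ^ 2 ≤ variance N P := by
  set m := ∫ ω, N ω ∂P with hm
  have hfin : evariance N P ≠ ⊤ := by
    refine ne_top_of_le_ne_top (b := ENNReal.ofReal ((n + |m|) ^ 2)) ENNReal.ofReal_ne_top ?_
    unfold evariance
    calc _ ≤ ∫⁻ _ω, ENNReal.ofReal ((n + |m|) ^ 2) ∂P := by
          refine lintegral_mono (fun ω => ?_)
          rw [← hm, ← ofReal_norm, ← ENNReal.ofReal_pow (norm_nonneg _)]
          refine ENNReal.ofReal_le_ofReal (pow_le_pow_left₀ (norm_nonneg _) ?_ 2)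
          rw [Real.norm_eq_abs]
          linarith [abs_sub (N ω) m, hN ω]
      _ = _ := by simp
  have key : ∀ S : Set Ω, MeasurableSet S → p ≤ P.real S → (∀ ω ∈ S, (a - b) / 2 ≤ |N ω - m|) →
      p * ((a - b) / 2) ^ 2 ≤ variance N P := by
    intro S hS hpS hω
    have h3 : ENNReal.ofReal (((a - b) / 2) ^ 2) * P S ≤ evariance N P := by
      rw [← lintegral_indicator_const hS]
      unfold evariance
      refine lintegral_mono (fun ω => ?_)
      by_cases h : ω ∈ S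
      · rw [Set.indicator_of_mem h, ← hm, ← ofReal_norm,
          ← ENNReal.ofReal_pow (norm_nonneg _)]
        exact ENNReal.ofReal_le_ofReal (pow_le_pow_left₀ (by linarith) (hω ω h) 2)
      · rw [Set.indicator_of_notMem h]; exact zero_le
    have h4 := ENNReal.toReal_mono hfin h3
    rw [ENNReal.toReal_mul, ENNReal.toReal_ofReal (by positivity), ← measureReal_def] at h4
    have h5 : p * ((a - b) / 2) ^ 2 ≤ ((a - b) / 2) ^ 2 * P.real S := by
      rw [mul_comm]; exact mul_le_mul_of_nonneg_left hpS (by positivity)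
    exact h5.trans h4
  rcases le_total m ((a + b) / 2) with h | h
  · exact key A hA hpA (fun ω hω => le_trans (by linarith [h1 ω hω]) (le_abs_self _))
  · exact key B hB hpB (fun ω hω => le_trans (by linarith [h2 ω hω]) (neg_le_abs _))

end Pool.Agent.MP_f6b137_pr.H13
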