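import Mathlib
import Pool.Agent.MP_f6b137_pr.H13.Prob

set_option autoImplicit false

open Finset Polynomial

namespace Pool.Agent.MP_f6b137_pr.H13

/-- Near the cluster centre `y`, at scale `ε`, the quotient `P / D` is close to a quadratic. -/
def Local (P D : ℝ[X]) (y ε Z X Y : ℝ) : Prop :=
  ∀ t : ℂ, ‖t‖ ≤ 2 → aeval ((y : ℂ) + ε * t) D ≠ 0 ∧
    ‖aeval ((y : ℂ) + ε * t) P / aeval ((y : ℂ) + ε * t) D
      - ((t ^ 2 - 1) * Z + (t + 1) * X + (t - 1) * Y)‖ ≤ 1 / 5

lemma aeval_real (P : ℝ[X]) (x : ℝ) : aeval (x : ℂ) P = ((P.eval x : ℝ) : ℂ) := by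
  rw [← Complex.coe_algebraMap, aeval_algebraMap_apply_eq_algebraMap_eval]

lemma ivt_sign (g : ℝ → ℝ) (a b : ℝ) (hab : a < b) (hg : ContinuousOn g (Set.Icc a b))
    (h : g a * g b < 0) : ∃ t ∈ Set.Ioo a b, g t = 0 := by
  rcases lt_or_gt_of_ne (show g a ≠ 0 by rintro h0; simp [h0] at h) with h1 | h1
  · have h2 : 0 < g b := by by_contra hc; push Not at hc; nlinarith
    exact intermediate_value_Ioo hab.le hg ⟨h1, h2⟩
  · have h2 : g b < 0 := by by_contra hc; push Not at hc; nlinarith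
    exact intermediate_value_Ioo' hab.le hg ⟨h2, h1⟩

lemma Local.real_roots {P D : ℝ[X]} {y ε Z X Y : ℝ} (h : Local P D y ε Z X Y)
    (hZ : |X| + |Y| + 1 < |Z|) :
    P ≠ 0 ∧ (∃ t ∈ Set.Ioo (-2 : ℝ) 0, P.eval (y + ε * t) = 0) ∧
      ∃ t ∈ Set.Ioo (0 : ℝ) 2, P.eval (y + ε * t) = 0 := by
  let g : ℝ → ℝ := fun t => P.eval (y + ε * t) / D.eval (y + ε * t)
  have hr : ∀ t : ℝ, |t| ≤ 2 → D.eval (y + ε * t) ≠ 0 ∧
      |g t - ((t ^ 2 - 1) * Z + (t + 1) * X + (t - 1) * Y)| ≤ 1 / 5 := by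
    intro t ht
    obtain ⟨h1, h2⟩ := h t (by simpa using ht)
    have e : (y : ℂ) + ε * t = ((y + ε * t : ℝ) : ℂ) := by push_cast; rfl
    rw [e, aeval_real] at h1
    rw [e, aeval_real, aeval_real] at h2
    refine ⟨by simpa using h1, ?_⟩
    rw [← Real.norm_eq_abs, ← Complex.norm_real]
    simp only [g]
    push_cast
    exact h2
  have hcont : ContinuousOn g (Set.Icc (-2) 2) := by
    refine ContinuousOn.div (by fun_prop) (by fun_prop) (fun t ht => (hr t (abs_le.2 ht)).1)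
  have h0 := abs_le.1 (hr 0 (by norm_num)).2
  have h2 := abs_le.1 (hr 2 (by norm_num)).2
  have h3 := abs_le.1 (hr (-2) (by norm_num)).2
  have bx := abs_le.1 (le_refl |X|)
  have by' := abs_le.1 (le_refl |Y|)
  have hs : g (-2) * g 0 < 0 ∧ g 0 * g 2 < 0 := by
    rcases abs_cases Z with ⟨hz, -⟩ | ⟨hz, -⟩
    · have a1 : g 0 < 0 := by linarith [h0.2, bx.2, by'.1]
      have a2 : 0 < g 2 := by linarith [h2.1, bx.1, by'.1, abs_nonneg Y]
      have a3 : 0 < g (-2) := by linarith [h3.1, bx.2, by'.2, abs_nonneg X]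
      exact ⟨mul_neg_of_pos_of_neg a3 a1, mul_neg_of_neg_of_pos a1 a2⟩
    · have a1 : 0 < g 0 := by linarith [h0.1, bx.1, by'.2]
      have a2 : g 2 < 0 := by linarith [h2.2, bx.2, by'.2, abs_nonneg Y]
      have a3 : g (-2) < 0 := by linarith [h3.2, bx.1, by'.1, abs_nonneg X]
      exact ⟨mul_neg_of_neg_of_pos a3 a1, mul_neg_of_pos_of_neg a1 a2⟩
  have hroot : ∀ t : ℝ, |t| ≤ 2 → g t = 0 → P.eval (y + ε * t) = 0 := by
    intro t ht hg
    rcases div_eq_zero_iff.1 hg with h1 | h1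
    · exact h1
    · exact absurd h1 (hr t ht).1
  refine ⟨?_, ?_, ?_⟩
  · rintro rfl
    have := hs.1
    simp [g] at this
  · obtain ⟨t, ht, hg⟩ := ivt_sign g (-2) 0 (by norm_num)
      (hcont.mono (Set.Icc_subset_Icc le_rfl (by norm_num))) hs.1
    exact ⟨t, ht, hroot t (abs_le.2 ⟨ht.1.le, by linarith [ht.2]⟩) hg⟩
  · obtain ⟨t, ht, hg⟩ := ivt_sign g 0 2 (by norm_num)
      (hcont.mono (Set.Icc_subset_Icc (by norm_num) le_rfl)) hs.2
    exact ⟨t, ht, hroot t (abs_le.2 ⟨by linarith [ht.1], ht.2.le⟩) hg⟩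

lemma Local.complex_root {P D : ℝ[X]} {y ε Z X Y : ℝ} (h : Local P D y ε Z X Y)
    (hB : Box Z X Y) : ∃ t : ℂ, ‖t - Complex.I‖ ≤ 1 / 2 ∧ aeval ((y : ℂ) + ε * t) P = 0 := by
  by_contra hc
  push Not at hc
  have hn : ∀ t : ℂ, ‖t - Complex.I‖ ≤ 1 / 2 → ‖t‖ ≤ 3 / 2 := by
    intro t ht
    have := norm_add_le (t - Complex.I) Complex.I
    simp only [sub_add_cancel, Complex.norm_I] at this
    linarith
  have happ : ∀ t : ℂ, ‖t - Complex.I‖ ≤ 1 / 2 →
      ‖aeval ((y : ℂ) + ε * t) P / aeval ((y : ℂ) + ε * t) D - (t ^ 2 + 1)‖ ≤ 3 / 10 := by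
    intro t ht
    have h1 := hn t ht
    have h2 := (h t (by linarith)).2
    obtain ⟨b1, b2, b3⟩ := hB
    have c1 : ‖t ^ 2 - 1‖ ≤ 13 / 4 := by
      have := norm_sub_le (t ^ 2) 1
      rw [norm_pow, norm_one] at this
      nlinarith [norm_nonneg t]
    have c2 : ‖t + 1‖ ≤ 5 / 2 := by
      have := norm_add_le t 1
      rw [norm_one] at this; linarith
    have c3 : ‖t - 1‖ ≤ 5 / 2 := by
      have := norm_sub_le t 1
      rw [norm_one] at this; linarith
    have d1 : ‖(t ^ 2 - 1) * ((Z - 1 : ℝ) : ℂ)‖ ≤ 13 / 4 * (1 / 100) := by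
      rw [norm_mul, Complex.norm_real, Real.norm_eq_abs]; gcongr
    have d2 : ‖(t + 1) * ((X - 1 : ℝ) : ℂ)‖ ≤ 5 / 2 * (1 / 100) := by
      rw [norm_mul, Complex.norm_real, Real.norm_eq_abs]; gcongr
    have d3 : ‖(t - 1) * ((Y + 1 : ℝ) : ℂ)‖ ≤ 5 / 2 * (1 / 100) := by
      rw [norm_mul, Complex.norm_real, Real.norm_eq_abs]; gcongr
    have e : aeval ((y : ℂ) + ε * t) P / aeval ((y : ℂ) + ε * t) D - (t ^ 2 + 1)
        = (aeval ((y : ℂ) + ε * t) P / aeval ((y : ℂ) + ε * t) D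
          - ((t ^ 2 - 1) * Z + (t + 1) * X + (t - 1) * Y))
          + ((t ^ 2 - 1) * ((Z - 1 : ℝ) : ℂ) + (t + 1) * ((X - 1 : ℝ) : ℂ)
            + (t - 1) * ((Y + 1 : ℝ) : ℂ)) := by
      push_cast; ring
    rw [e]
    refine (norm_add_le _ _).trans ?_
    have := norm_add₃_le (a := (t ^ 2 - 1) * ((Z - 1 : ℝ) : ℂ)) (b := (t + 1) * ((X - 1 : ℝ) : ℂ))
      (c := (t - 1) * ((Y + 1 : ℝ) : ℂ))
    linarith
  let g : ℂ → ℂ := fun t => aeval ((y : ℂ) + ε * t) D / aeval ((y : ℂ) + ε * t) P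
  have hdiff : ∀ Q : ℝ[X], Differentiable ℂ (fun t : ℂ => aeval ((y : ℂ) + ε * t) Q) := fun Q =>
    (Q.differentiable_aeval (𝕜 := ℂ)).comp (by fun_prop)
  have hd : DiffContOnCl ℂ g (Metric.ball Complex.I (1 / 2)) := by
    apply DifferentiableOn.diffContOnCl
    rw [closure_ball _ (by norm_num)]
    exact (hdiff D).differentiableOn.div (hdiff P).differentiableOn
      (fun t ht => hc t (by simpa [dist_eq_norm] using ht))
  have hmax := Complex.norm_le_of_forall_mem_frontier_norm_le (C := (9 / 20 : ℝ)⁻¹)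
    Metric.isBounded_ball hd (fun t ht => by
      rw [frontier_ball _ (by norm_num), Metric.mem_sphere, dist_eq_norm] at ht
      have h1 := happ t ht.le
      have h2 : 3 / 4 ≤ ‖t ^ 2 + 1‖ := by
        have e : t ^ 2 + 1 = (t - Complex.I) * (t + Complex.I) := by
          have := Complex.I_mul_I
          linear_combination this
        have h3 : 3 / 2 ≤ ‖t + Complex.I‖ := by
          have h4 := norm_sub_le (t + Complex.I) (t - Complex.I)
          have e2 : t + Complex.I - (t - Complex.I) = 2 * Complex.I := by ring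
          rw [e2] at h4
          simp only [norm_mul, Complex.norm_ofNat, Complex.norm_I, mul_one] at h4
          linarith
        rw [e, norm_mul, ht]; linarith
      have h3 : 9 / 20 ≤ ‖aeval ((y : ℂ) + ε * t) P / aeval ((y : ℂ) + ε * t) D‖ := by
        have := norm_sub_norm_le (t ^ 2 + 1) (aeval ((y : ℂ) + ε * t) P / aeval ((y : ℂ) + ε * t) D)
        rw [norm_sub_rev] at this
        linarith
      simp only [g]
      rw [← inv_div, norm_inv]
      exact inv_anti₀ (by norm_num) h3)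
    (subset_closure (Metric.mem_ball_self (by norm_num)))
  have h1 := happ Complex.I (by simp)
  have e : Complex.I ^ 2 + 1 = 0 := by simp
  rw [e, sub_zero] at h1
  have h2 : 0 < ‖aeval ((y : ℂ) + ε * Complex.I) P / aeval ((y : ℂ) + ε * Complex.I) D‖ :=
    norm_pos_iff.2 (div_ne_zero (hc _ (by simp)) (h _ (by simp)).1)
  simp only [g] at hmax
  rw [← inv_div, norm_inv, inv_le_inv₀ h2 (by norm_num)] at hmax
  linarith

open Classical in
lemma count_lower {J : Type*} (P : ℝ[X]) (D : J → ℝ[X]) (y Z X Y : J → ℝ) (ε : ℝ) (hε : 0 < ε)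
    (hsep : ∀ i j, i ≠ j → 4 * ε ≤ |y i - y j|) (G : Finset J)
    (hloc : ∀ j ∈ G, Local P (D j) (y j) ε (Z j) (X j) (Y j))
    (hG : ∀ j ∈ G, |X j| + |Y j| + 1 < |Z j|) : 2 * G.card ≤ P.roots.toFinset.card := by
  have hex : ∀ a : J × Bool, ∃ t : ℝ, a.1 ∈ G → (|t| < 2 ∧ (if a.2 then 0 < t else t < 0) ∧
      P ≠ 0 ∧ P.eval (y a.1 + ε * t) = 0) := by
    rintro ⟨j, b⟩
    by_cases hj : j ∈ G
    · obtain ⟨h0, ⟨t1, h1, h1'⟩, ⟨t2, h2, h2'⟩⟩ := (hloc j hj).real_roots (hG j hj)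
      cases b
      · exact ⟨t1, fun _ => ⟨abs_lt.2 ⟨h1.1, by linarith [h1.2]⟩, by simpa using h1.2, h0, h1'⟩⟩
      · exact ⟨t2, fun _ => ⟨abs_lt.2 ⟨by linarith [h2.1], h2.2⟩, by simpa using h2.1, h0, h2'⟩⟩
    · exact ⟨0, fun h => absurd h hj⟩
  choose t ht using hex
  have h := Finset.card_le_card_of_injOn (s := G ×ˢ (Finset.univ : Finset Bool))
    (t := P.roots.toFinset) (fun a => y a.1 + ε * t a) (fun a ha => by
      obtain ⟨-, -, h0, h1⟩ := ht a (Finset.mem_product.1 (Finset.mem_coe.1 ha)).1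
      simp [h0, h1]) (by
      intro a ha b hb hab
      obtain ⟨a1, a2, -, -⟩ := ht a (Finset.mem_product.1 (Finset.mem_coe.1 ha)).1
      obtain ⟨b1, b2, -, -⟩ := ht b (Finset.mem_product.1 (Finset.mem_coe.1 hb)).1
      simp only at hab
      have h1 : a.1 = b.1 := by
        by_contra hne
        have h2 := hsep _ _ hne
        have h3 : y a.1 - y b.1 = ε * (t b - t a) := by linarith
        rw [h3, abs_mul, abs_of_pos hε] at h2
        have h4 := abs_sub (t b) (t a)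
        nlinarith
      have h2 : t a = t b := by
        rw [h1] at hab
        exact mul_left_cancel₀ hε.ne' (by linarith)
      refine Prod.ext h1 ?_
      rw [h2] at a2
      revert a2 b2
      cases a.2 <;> cases b.2 <;> simp <;> intro h <;> exact h.le)
  simpa [mul_comm] using h

open Classical in
lemma count_upper {J : Type*} (P : ℝ[X]) (D : J → ℝ[X]) (y Z X Y : J → ℝ) (ε : ℝ) (hε : 0 < ε)
    (hsep : ∀ i j, i ≠ j → 4 * ε ≤ |y i - y j|) (G : Finset J)
    (hloc : ∀ j ∈ G, Local P (D j) (y j) ε (Z j) (X j) (Y j))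
    (hG : ∀ j ∈ G, Box (Z j) (X j) (Y j)) (n : ℕ) (hn : P.natDegree ≤ n) (hGn : G.card ≤ n) :
    P.roots.toFinset.card + G.card ≤ n := by
  by_cases hP : P = 0
  · simpa [hP] using hGn
  have hex : ∀ j : J, ∃ t : ℂ, j ∈ G →
      (‖t - Complex.I‖ ≤ 1 / 2 ∧ aeval ((y j : ℂ) + ε * t) P = 0) := by
    intro j
    by_cases hj : j ∈ G
    · obtain ⟨t, ht⟩ := (hloc j hj).complex_root (hG j hj)
      exact ⟨t, fun _ => ht⟩
    · exact ⟨0, fun h => absurd h hj⟩
  choose t ht using hex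
  have him : ∀ j ∈ G, 1 / 2 ≤ (t j).im ∧ |(t j).re| ≤ 1 / 2 := by
    intro j hj
    have h1 := (Complex.abs_im_le_norm _).trans (ht j hj).1
    have h2 := (Complex.abs_re_le_norm _).trans (ht j hj).1
    simp only [Complex.sub_im, Complex.I_im, Complex.sub_re, Complex.I_re, sub_zero] at h1 h2
    exact ⟨by linarith [(abs_le.1 h1).1], h2⟩
  let R1 : Finset ℂ := P.roots.toFinset.image (fun x : ℝ => (x : ℂ))
  let R2 : Finset ℂ := G.image (fun j => (y j : ℂ) + ε * t j)
  have c1 : R1.card = P.roots.toFinset.card :=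
    Finset.card_image_of_injective _ Complex.ofReal_injective
  have c2 : R2.card = G.card := by
    refine Finset.card_image_of_injOn (fun i hi j hj hij => ?_)
    by_contra hne
    have h2 := hsep _ _ hne
    have h3 := congrArg Complex.re hij
    simp only [Complex.add_re, Complex.ofReal_re, Complex.mul_re, Complex.ofReal_im, zero_mul,
      sub_zero] at h3
    have h4 : y i - y j = ε * ((t j).re - (t i).re) := by linarith
    rw [h4, abs_mul, abs_of_pos hε] at h2
    have h5 := abs_sub (t j).re (t i).re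
    have := (him i hi).2
    have := (him j hj).2
    nlinarith
  have hdisj : Disjoint R1 R2 := by
    rw [Finset.disjoint_left]
    intro w h1 h2
    obtain ⟨x, -, rfl⟩ := Finset.mem_image.1 h1
    obtain ⟨j, hj, hjx⟩ := Finset.mem_image.1 h2
    have h3 := congrArg Complex.im hjx
    simp only [Complex.add_im, Complex.ofReal_im, Complex.mul_im, Complex.ofReal_re, zero_mul,
      add_zero, zero_add] at h3
    have := (him j hj).1
    nlinarith
  have hP' : P.map (algebraMap ℝ ℂ) ≠ 0 := Polynomial.map_ne_zero hP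
  have hsub : R1 ∪ R2 ⊆ (P.map (algebraMap ℝ ℂ)).roots.toFinset := by
    intro w hw
    rw [Multiset.mem_toFinset, mem_roots hP', IsRoot.def, eval_map_algebraMap]
    rcases Finset.mem_union.1 hw with h | h
    · obtain ⟨x, hx, rfl⟩ := Finset.mem_image.1 h
      rw [Multiset.mem_toFinset, mem_roots hP, IsRoot.def] at hx
      rw [aeval_real, hx]; simp
    · obtain ⟨j, hj, rfl⟩ := Finset.mem_image.1 h
      exact (ht j hj).2
  have h1 := Finset.card_le_card hsub
  rw [Finset.card_union_of_disjoint hdisj, c1, c2] at h1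
  have h2 := (Multiset.toFinset_card_le _).trans (card_roots' (P.map (algebraMap ℝ ℂ)))
  rw [natDegree_map] at h2
  omega

end Pool.Agent.MP_f6b137_pr.H13
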