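import Mathlib
import Pool.Agent.MP_f6b137_pr.H13.ONP
import Pool.Agent.MP_f6b137_pr.H13.Roots

set_option autoImplicit false

open Finset Polynomial
open scoped RealInnerProductSpace

namespace Pool.Agent.MP_f6b137_pr.H13

/-- A positive functional carried by the set `E`. -/
structure Fnl (Φ : ℝ[X] →ₗ[ℝ] ℝ) (E : Set ℝ) : Prop where
  mono : ∀ P : ℝ[X], (∀ x ∈ E, 0 ≤ P.eval x) → 0 ≤ Φ P
  pos : ∀ P : ℝ[X], P ≠ 0 → 0 < Φ (P * P)
  one : Φ 1 ≤ 1

lemma Fnl.le {Φ : ℝ[X] →ₗ[ℝ] ℝ} {E : Set ℝ} (h : Fnl Φ E) {P Q : ℝ[X]}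
    (hPQ : ∀ x ∈ E, P.eval x ≤ Q.eval x) : Φ P ≤ Φ Q := by
  have := h.mono (Q - P) (fun x hx => by simpa using hPQ x hx)
  rw [map_sub] at this
  linarith

/-- The weighted bilinear form of a functional. -/
noncomputable def wform (Φ : ℝ[X] →ₗ[ℝ] ℝ) (w : ℝ[X]) : ℝ[X] →ₗ[ℝ] ℝ[X] →ₗ[ℝ] ℝ :=
  ((LinearMap.mul ℝ ℝ[X]).compr₂ Φ).compl₁₂ (LinearMap.mulLeft ℝ w) (LinearMap.mulLeft ℝ w)

lemma wform_apply (Φ : ℝ[X] →ₗ[ℝ] ℝ) (w P Q : ℝ[X]) :
    wform Φ w P Q = Φ ((w * P) * (w * Q)) := rfl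

lemma Fnl.exists_onp {Φ : ℝ[X] →ₗ[ℝ] ℝ} {E : Set ℝ} (h : Fnl Φ E) (w : ℝ[X]) (hw : w ≠ 0) :
    ∃ q, IsONP (wform Φ w) q :=
  H13.exists_onp _ (fun P Q => by rw [wform_apply, wform_apply, mul_comm])
    (fun P hP => h.pos _ (mul_ne_zero hw hP))

/-- Sign of a Boolean. -/
def sg (b : Bool) : ℝ := if b then 1 else -1

lemma sg_sq (b : Bool) : sg b ^ 2 = 1 := by cases b <;> simp [sg]

lemma abs_sg (b : Bool) : |sg b| = 1 := by cases b <;> simp [sg]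

/-- The quadratic vanishing at the two atoms of a cluster. -/
noncomputable def FF (y ε : ℝ) : ℝ[X] := (X - C y) ^ 2 - C (ε ^ 2)

lemma FF_eq (y ε : ℝ) (b : Bool) :
    FF y ε = (X - C y + C (sg b * ε)) * (X - C y - C (sg b * ε)) := by
  have : (C (ε ^ 2) : ℝ[X]) = C (sg b * ε) ^ 2 := by
    rw [← C_pow, mul_pow, sg_sq, one_mul]
  rw [FF, this]
  ring

lemma FF_ne (y ε : ℝ) : FF y ε ≠ 0 := by
  rw [FF_eq y ε true]
  refine mul_ne_zero ?_ ?_
  · rw [show X - C y + C (sg true * ε) = X - C (y - sg true * ε) by rw [C_sub]; ring]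
    exact X_sub_C_ne_zero _
  · rw [show X - C y - C (sg true * ε) = X - C (y + sg true * ε) by rw [C_add]; ring]
    exact X_sub_C_ne_zero _

lemma FF_deg (y ε : ℝ) : (FF y ε).natDegree ≤ 2 := by
  unfold FF
  compute_degree

variable {J : Type} [Fintype J] [DecidableEq J]

/-- The polynomial vanishing at all atoms. -/
noncomputable def om (y : J → ℝ) (ε : ℝ) : ℝ[X] := ∏ j, FF (y j) ε

/-- The polynomial vanishing at all atoms outside one cluster. -/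
noncomputable def Om (y : J → ℝ) (ε : ℝ) (j : J) : ℝ[X] := ∏ i ∈ univ.erase j, FF (y i) ε

lemma om_eq (y : J → ℝ) (ε : ℝ) (j : J) : om y ε = FF (y j) ε * Om y ε j :=
  (Finset.mul_prod_erase _ _ (Finset.mem_univ j)).symm

omit [DecidableEq J] in
lemma om_ne (y : J → ℝ) (ε : ℝ) : om y ε ≠ 0 := Finset.prod_ne_zero_iff.2 (fun _ _ => FF_ne _ _)

omit [DecidableEq J] in
lemma om_deg (y : J → ℝ) (ε : ℝ) : (om y ε).natDegree ≤ 2 * Fintype.card J := by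
  refine (natDegree_prod_le _ _).trans ((Finset.sum_le_sum (fun i _ => FF_deg (y i) ε)).trans ?_)
  simp [mul_comm]

lemma Om_deg (y : J → ℝ) (ε : ℝ) (j : J) : (Om y ε j).natDegree + 2 ≤ 2 * Fintype.card J := by
  have h1 : (Om y ε j).natDegree ≤ (Fintype.card J - 1) * 2 := by
    refine (natDegree_prod_le _ _).trans ((Finset.sum_le_sum (fun i _ => FF_deg (y i) ε)).trans ?_)
    simp
  have h2 : 0 < Fintype.card J := Fintype.card_pos_iff.2 ⟨j⟩
  omega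

/-- The normalised kernel polynomial. -/
noncomputable def KK (q : ℕ → ℝ[X]) (s : ℕ) (y : ℝ) : ℝ[X] := comb q s (kdir q s y)

/-- The interpolation polynomial attached to an atom. -/
noncomputable def GG (y : J → ℝ) (ε : ℝ) (q : ℕ → ℝ[X]) (s : ℕ) (a : J × Bool) : ℝ[X] :=
  C ε * Om y ε a.1 * KK q s (y a.1) * (X - C (y a.1) + C (sg a.2 * ε))

/-- The local normalising polynomial of a cluster. -/
noncomputable def DD (y : J → ℝ) (ε : ℝ) (q : ℕ → ℝ[X]) (s : ℕ) (j : J) : ℝ[X] :=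
  C (ε ^ 2) * Om y ε j * KK q s (y j)

/-- The atoms. -/
def atom (y : J → ℝ) (ε : ℝ) (a : J × Bool) : ℝ := y a.1 + sg a.2 * ε

/-- The space of ideal coordinates. -/
abbrev VV (J : Type) (s : ℕ) : Type := EuclideanSpace ℝ ((J × Bool) ⊕ Fin s)

/-- The background coordinates. -/
noncomputable def cpart {s : ℕ} : VV J s →ₗ[ℝ] EuclideanSpace ℝ (Fin s) where
  toFun ξ := WithLp.toLp 2 (fun b => ξ (Sum.inr b))
  map_add' _ _ := rfl
  map_smul' _ _ := rfl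

omit [DecidableEq J] in
lemma norm_sq_VV {s : ℕ} (ξ : VV J s) :
    ‖ξ‖ ^ 2 = ∑ a, ξ (Sum.inl a) ^ 2 + ‖cpart ξ‖ ^ 2 := by
  rw [EuclideanSpace.real_norm_sq_eq, EuclideanSpace.real_norm_sq_eq, Fintype.sum_sum_type]
  rfl

omit [DecidableEq J] in
lemma norm_cpart_le {s : ℕ} (ξ : VV J s) : ‖cpart ξ‖ ≤ ‖ξ‖ := by
  have h := norm_sq_VV ξ
  have h2 : 0 ≤ ∑ a, ξ (Sum.inl a) ^ 2 := Finset.sum_nonneg (fun _ _ => sq_nonneg _)
  exact (abs_le_of_sq_le_sq' (by linarith) (norm_nonneg _)).2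

/-- The polynomial with given ideal coordinates. -/
noncomputable def TT (y : J → ℝ) (ε : ℝ) (q : ℕ → ℝ[X]) (s : ℕ) : VV J s →ₗ[ℝ] ℝ[X] where
  toFun ξ := om y ε * comb q s (cpart ξ) + ∑ a, ξ (Sum.inl a) • GG y ε q s a
  map_add' ξ ξ' := by
    simp only [map_add, PiLp.add_apply, add_smul, Finset.sum_add_distrib]
    ring
  map_smul' c ξ := by
    simp only [map_smul, PiLp.smul_apply, smul_eq_mul, mul_smul, RingHom.id_apply, smul_add,
      Finset.smul_sum, mul_smul_comm]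

lemma TT_apply (y : J → ℝ) (ε : ℝ) (q : ℕ → ℝ[X]) (s : ℕ) (ξ : VV J s) :
    TT y ε q s ξ = om y ε * comb q s (cpart ξ) + ∑ a, ξ (Sum.inl a) • GG y ε q s a := rfl

lemma GG_mul (y : J → ℝ) (ε : ℝ) (q : ℕ → ℝ[X]) (s : ℕ) (a : J × Bool) :
    GG y ε q s a * (X - C (y a.1) - C (sg a.2 * ε)) = C ε * (om y ε * KK q s (y a.1)) := by
  rw [om_eq y ε a.1, FF_eq _ _ a.2, GG]
  ring

variable {B : ℝ[X] →ₗ[ℝ] ℝ[X] →ₗ[ℝ] ℝ} {q : ℕ → ℝ[X]}

lemma IsONP.comb_natDegree (h : IsONP B q) {s : ℕ} (hs : 0 < s) (c : EuclideanSpace ℝ (Fin s)) :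
    (comb q s c).natDegree + 1 ≤ s := by
  by_cases h0 : comb q s c = 0
  · rw [h0, natDegree_zero]; omega
  · exact (natDegree_lt_iff_degree_lt h0).2 (h.comb_degree c)

lemma TT_deg (h : IsONP B q) {s : ℕ} (hs : 0 < s) (y : J → ℝ) (ε : ℝ) (n : ℕ)
    (hn : n + 1 = 2 * Fintype.card J + s) (ξ : VV J s) : (TT y ε q s ξ).natDegree ≤ n := by
  rw [TT_apply]
  refine natDegree_add_le_of_degree_le ?_ ?_
  · have h1 := natDegree_mul_le (p := om y ε) (q := comb q s (cpart ξ))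
    have h2 := om_deg y ε
    have h3 := h.comb_natDegree hs (cpart ξ)
    omega
  · refine natDegree_sum_le_of_forall_le _ _ (fun a _ => (natDegree_smul_le _ _).trans ?_)
    have h1 := natDegree_mul_le (p := C ε * Om y ε a.1 * KK q s (y a.1))
      (q := X - C (y a.1) + C (sg a.2 * ε))
    have h2 := natDegree_mul_le (p := C ε * Om y ε a.1) (q := KK q s (y a.1))
    have h3 := natDegree_C_mul_le ε (Om y ε a.1)
    have h4 := Om_deg y ε a.1
    have h5 : (KK q s (y a.1)).natDegree + 1 ≤ s := h.comb_natDegree hs _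
    have h6 : (X - C (y a.1) + C (sg a.2 * ε) : ℝ[X]).natDegree ≤ 1 := by compute_degree
    unfold GG
    omega

omit [Fintype J] [DecidableEq J] in
lemma FF_atom (y : J → ℝ) (ε : ℝ) (a : J × Bool) : (FF (y a.1) ε).eval (atom y ε a) = 0 := by
  simp [FF, atom, mul_pow, sg_sq]

lemma TT_atom (y : J → ℝ) (ε : ℝ) (q : ℕ → ℝ[X]) (s : ℕ) (ξ : VV J s) (a : J × Bool) :
    (TT y ε q s ξ).eval (atom y ε a) = ξ (Sum.inl a) * (GG y ε q s a).eval (atom y ε a) := by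
  rw [TT_apply, eval_add, eval_mul, om_eq y ε a.1, eval_mul, FF_atom, eval_finsetSum,
    Finset.sum_eq_single a]
  · simp
  · intro b _ hb
    rw [eval_smul]
    by_cases h1 : b.1 = a.1
    · have h2 : b.2 ≠ a.2 := fun h2 => hb (Prod.ext h1 h2)
      have h3 : (X - C (y b.1) + C (sg b.2 * ε) : ℝ[X]).eval (atom y ε a) = 0 := by
        rw [h1]
        revert h2
        rcases a with ⟨j, _ | _⟩ <;> cases b.2 <;> simp [atom, sg]
      rw [GG, eval_mul, h3]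
      simp
    · have h3 : (Om y ε b.1).eval (atom y ε a) = 0 := by
        rw [Om, eval_prod]
        exact Finset.prod_eq_zero (Finset.mem_erase.2 ⟨Ne.symm h1, Finset.mem_univ _⟩)
          (FF_atom y ε a)
      rw [GG, eval_mul, eval_mul, eval_mul, h3]
      simp
  · simp

variable {Φ : ℝ[X] →ₗ[ℝ] ℝ} {E : Set ℝ}

lemma far_form (hΦ : Fnl Φ E) (w : ℝ[X]) (y ρ : ℝ) (hρ : 0 ≤ ρ) (hfar : ∀ x ∈ E, ρ ≤ |x - y|)
    (Q : ℝ[X]) : ρ ^ 2 * wform Φ w Q Q ≤ wform Φ w ((X - C y) * Q) ((X - C y) * Q) := by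
  rw [wform_apply, wform_apply, ← smul_eq_mul, ← map_smul]
  refine hΦ.le (fun x hx => ?_)
  have h1 : ρ ^ 2 ≤ (x - y) ^ 2 := by
    rw [← sq_abs (x - y)]
    exact pow_le_pow_left₀ hρ (hfar x hx) 2
  simp only [eval_smul, eval_mul, eval_sub, eval_X, eval_C, smul_eq_mul]
  nlinarith [mul_le_mul_of_nonneg_right h1 (sq_nonneg (w.eval x * Q.eval x))]

lemma sigma_form (hΦ : Fnl Φ E) (w σ : ℝ[X]) (hσ : ∀ x ∈ E, |σ.eval x| ≤ 1 / 2)
    (Q : ℝ[X]) : 4 * wform Φ w (σ * Q) (σ * Q) ≤ wform Φ w Q Q := by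
  rw [wform_apply, wform_apply, ← smul_eq_mul, ← map_smul]
  refine hΦ.le (fun x hx => ?_)
  have h1 : (σ.eval x) ^ 2 ≤ (1 / 2) ^ 2 := by
    rw [← sq_abs]
    exact pow_le_pow_left₀ (abs_nonneg _) (hσ x hx) 2
  simp only [eval_smul, eval_mul, smul_eq_mul]
  nlinarith [mul_le_mul_of_nonneg_right h1 (sq_nonneg (w.eval x * Q.eval x))]

lemma GG_form (hΦ : Fnl Φ E) (y : J → ℝ) (ε ρ : ℝ) (hε : 0 < ε) (hρ : 2 * ε ≤ ρ)
    (hfar : ∀ j, ∀ x ∈ E, ρ ≤ |x - y j|) (hq : IsONP (wform Φ (om y ε)) q) {s : ℕ} (hs : 0 < s)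
    (a : J × Bool) : Φ (GG y ε q s a * GG y ε q s a) ≤ (2 * ε / ρ) ^ 2 := by
  have h1 : wform Φ (om y ε) (KK q s (y a.1)) (KK q s (y a.1)) = 1 := by
    rw [KK, hq.form_comb_self, hq.norm_kdir hs, one_pow]
  have hρ0 : 0 < ρ := by linarith
  rw [← mul_one ((2 * ε / ρ) ^ 2), ← h1, wform_apply, ← smul_eq_mul ((2 * ε / ρ) ^ 2), ← map_smul]
  refine hΦ.le (fun x hx => ?_)
  have h2 := congrArg (eval x) (GG_mul y ε q s a)
  simp only [eval_mul, eval_sub, eval_X, eval_C] at h2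
  simp only [eval_smul, eval_mul, smul_eq_mul]
  set g := (GG y ε q s a).eval x
  set u := (om y ε).eval x * (KK q s (y a.1)).eval x
  have h3 : ρ / 2 ≤ |x - y a.1 - sg a.2 * ε| := by
    have a1 := abs_sub_abs_le_abs_sub (x - y a.1) (sg a.2 * ε)
    rw [abs_mul, abs_sg, abs_of_pos hε] at a1
    linarith [hfar a.1 x hx]
  have h4 : (ρ / 2) ^ 2 ≤ (x - y a.1 - sg a.2 * ε) ^ 2 := by
    rw [← sq_abs (x - y a.1 - sg a.2 * ε)]
    exact pow_le_pow_left₀ (by linarith) h3 2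
  have h5 : g ^ 2 * (ρ / 2) ^ 2 ≤ (ε * u) ^ 2 := by
    rw [← h2, mul_pow]
    gcongr
  rw [div_pow, div_mul_eq_mul_div, le_div_iff₀ (by positivity)]
  nlinarith

/-- The ideal coordinates are nearly orthonormal for background plus atoms. -/
theorem gram (hΦ : Fnl Φ E) (y : J → ℝ) (ε ρ : ℝ) (hε : 0 < ε) (hρ : 2 * ε ≤ ρ)
    (hfar : ∀ j, ∀ x ∈ E, ρ ≤ |x - y j|) (hq : IsONP (wform Φ (om y ε)) q) {s : ℕ} (hs : 0 < s)
    (θ : ℝ) (hθ : 0 < θ) (hθ' : 2 * Fintype.card J * (2 * ε / ρ) ^ 2 ≤ θ ^ 2)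
    (hG : ∀ a, (GG y ε q s a).eval (atom y ε a) ≠ 0) (ξ : VV J s) :
    |Φ (TT y ε q s ξ * TT y ε q s ξ)
      + ∑ a, ((GG y ε q s a).eval (atom y ε a) ^ 2)⁻¹ * (TT y ε q s ξ).eval (atom y ε a) ^ 2
      - ‖ξ‖ ^ 2| ≤ (2 * θ + θ ^ 2) * ‖ξ‖ ^ 2 := by
  have h1 : ∑ a, ((GG y ε q s a).eval (atom y ε a) ^ 2)⁻¹ * (TT y ε q s ξ).eval (atom y ε a) ^ 2
      = ∑ a, ξ (Sum.inl a) ^ 2 := by
    refine Finset.sum_congr rfl (fun a _ => ?_)
    rw [TT_atom]
    have := hG a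
    field_simp
  set W := om y ε * comb q s (cpart ξ) with hW
  set G := ∑ a, ξ (Sum.inl a) • GG y ε q s a with hGdef
  have hWW : Φ (W * W) = ‖cpart ξ‖ ^ 2 := by rw [← hq.form_comb_self, wform_apply]
  have hn := norm_sq_VV ξ
  have hs0 : 0 ≤ ∑ a, ξ (Sum.inl a) ^ 2 := Finset.sum_nonneg (fun _ _ => sq_nonneg _)
  have hGG : Φ (G * G) ≤ θ ^ 2 * ‖ξ‖ ^ 2 := by
    have a1 : Φ (G * G) ≤ Φ (‖ξ‖ ^ 2 • ∑ a, GG y ε q s a * GG y ε q s a) := by
      refine hΦ.le (fun x _ => ?_)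
      have := Finset.sum_mul_sq_le_sq_mul_sq Finset.univ (fun a => ξ (Sum.inl a))
        (fun a => (GG y ε q s a).eval x)
      have a0 : ∑ a, ξ (Sum.inl a) ^ 2 ≤ ‖ξ‖ ^ 2 := by nlinarith [sq_nonneg ‖cpart ξ‖]
      simp only [hGdef, eval_smul, eval_finsetSum, smul_eq_mul, ← sq, eval_pow]
      exact this.trans (mul_le_mul_of_nonneg_right a0
        (Finset.sum_nonneg (fun _ _ => sq_nonneg _)))
    have a2 : Φ (∑ a, GG y ε q s a * GG y ε q s a) ≤ θ ^ 2 := by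
      rw [map_sum]
      refine (Finset.sum_le_sum (fun a _ => GG_form hΦ y ε ρ hε hρ hfar hq hs a)).trans ?_
      simp only [Finset.sum_const, Finset.card_univ, Fintype.card_prod, Fintype.card_bool,
        nsmul_eq_mul]
      push_cast
      linarith
    rw [map_smul, smul_eq_mul] at a1
    nlinarith [mul_le_mul_of_nonneg_left a2 (sq_nonneg ‖ξ‖)]
  have hG0 : 0 ≤ Φ (G * G) := hΦ.mono _ (fun x _ => by rw [eval_mul]; exact mul_self_nonneg _)
  have hcross : ∀ σ : ℝ, σ ^ 2 = 1 → 2 * σ * θ * Φ (W * G) ≤ θ ^ 2 * Φ (W * W) + Φ (G * G) := by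
    intro σ hσ
    rw [← smul_eq_mul, ← map_smul, ← smul_eq_mul (θ ^ 2), ← map_smul, ← map_add]
    refine hΦ.le (fun x _ => ?_)
    simp only [eval_smul, eval_mul, eval_add, smul_eq_mul]
    nlinarith [sq_nonneg (θ * W.eval x - σ * G.eval x)]
  have hc1 := hcross 1 (by norm_num)
  have hc2 := hcross (-1) (by norm_num)
  have hexp : Φ (TT y ε q s ξ * TT y ε q s ξ) = Φ (W * W) + 2 * Φ (W * G) + Φ (G * G) := by
    rw [TT_apply, ← hW, ← hGdef, show (W + G) * (W + G) = W * W + (W * G + W * G) + G * G by ring,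
      map_add, map_add, map_add]
    ring
  have hcp : θ ^ 2 * ‖cpart ξ‖ ^ 2 ≤ θ ^ 2 * ‖ξ‖ ^ 2 := by gcongr; exact norm_cpart_le ξ
  have b1 : Φ (W * G) ≤ θ * ‖ξ‖ ^ 2 := le_of_mul_le_mul_left (by nlinarith) hθ
  have b2 : -(θ * ‖ξ‖ ^ 2) ≤ Φ (W * G) := le_of_mul_le_mul_left (by nlinarith) hθ
  rw [h1, hexp, abs_le]
  constructor <;> nlinarith [sq_nonneg (θ * ‖ξ‖)]

/-- Lower bound for the interpolation polynomials at their atoms. -/
theorem weight (hΦ : Fnl Φ E) (y : J → ℝ) (ε ρ : ℝ) (hε : 0 < ε) (hρ : 2 * ε ≤ ρ)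
    (hfar : ∀ j, ∀ x ∈ E, ρ ≤ |x - y j|) (hq : IsONP (wform Φ (om y ε)) q) {s : ℕ} (hs : 0 < s)
    (π : ℝ[X]) (hπ : π.degree < s) (β : ℝ) (hβ : 0 ≤ β)
    (hE : ∀ x ∈ E, |(om y ε * π).eval x| ≤ β) (a : J × Bool) :
    ε ^ 2 * |(Om y ε a.1 * π).eval (atom y ε a)| ≤ β * |(GG y ε q s a).eval (atom y ε a)| := by
  obtain ⟨c, hc⟩ := hq.exists_comb s π hπ
  have hρ0 : 0 < ρ := by linarith
  have h1 : ‖c‖ ≤ β := by
    have a1 := hq.form_comb_self c
    rw [hc, wform_apply] at a1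
    have a2 : Φ (om y ε * π * (om y ε * π)) ≤ Φ (β ^ 2 • 1) := by
      refine hΦ.le (fun x hx => ?_)
      rw [eval_mul, ← sq, ← sq_abs]
      simpa using pow_le_pow_left₀ (abs_nonneg _) (hE x hx) 2
    rw [map_smul, smul_eq_mul] at a2
    have a3 := mul_le_mul_of_nonneg_left hΦ.one (sq_nonneg β)
    exact (abs_le_of_sq_le_sq' (by linarith) hβ).2
  have hz : ‖((atom y ε a : ℝ) : ℂ) - (y a.1 : ℝ)‖ ≤ ρ / 2 := by
    rw [← Complex.ofReal_sub, Complex.norm_real, Real.norm_eq_abs, atom, add_sub_cancel_left,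
      abs_mul, abs_sg, abs_of_pos hε]
    linarith
  have h2 := (hq.kernel hs (y a.1) ρ hρ0 (far_form hΦ _ _ ρ hρ0.le (hfar a.1)) _ hz).2.1 c
  rw [hc, aeval_real, aeval_real, Complex.norm_real, Complex.norm_real, Real.norm_eq_abs,
    Real.norm_eq_abs] at h2
  have h3 : |(GG y ε q s a).eval (atom y ε a)|
      = 2 * ε ^ 2 * |(Om y ε a.1).eval (atom y ε a)| * |(KK q s (y a.1)).eval (atom y ε a)| := by
    simp only [GG, eval_mul, eval_add, eval_sub, eval_X, eval_C]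
    rw [show atom y ε a - y a.1 + sg a.2 * ε = 2 * (sg a.2 * ε) by rw [atom]; ring]
    simp only [abs_mul, abs_sg, abs_of_pos hε, abs_two]
    ring
  rw [h3, eval_mul, abs_mul]
  change _ ≤ 2 * |(KK q s (y a.1)).eval (atom y ε a)| * ‖c‖ at h2
  have h4 : |π.eval (atom y ε a)| ≤ 2 * |(KK q s (y a.1)).eval (atom y ε a)| * β :=
    h2.trans (by gcongr)
  calc _ ≤ ε ^ 2 * (|(Om y ε a.1).eval (atom y ε a)|
        * (2 * |(KK q s (y a.1)).eval (atom y ε a)| * β)) := by gcongr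
    _ = _ := by ring

/-- Local shape of the polynomial with given ideal coordinates near a cluster. -/
theorem local_shape (hΦ : Fnl Φ E) (y : J → ℝ) (ε ρ sep : ℝ) (hε : 0 < ε) (hρ : 4 * ε ≤ ρ)
    (hsep : 6 * ε ≤ sep) (hy : ∀ i j, i ≠ j → sep ≤ |y i - y j|)
    (hfar : ∀ j, ∀ x ∈ E, ρ ≤ |x - y j|) (hq : IsONP (wform Φ (om y ε)) q) {s : ℕ} (hs : 0 < s)
    (ξ : VV J s) (j : J) (t : ℂ) (ht : ‖t‖ ≤ 2) :
    aeval ((y j : ℂ) + ε * t) (DD y ε q s j) ≠ 0 ∧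
    ‖aeval ((y j : ℂ) + ε * t) (TT y ε q s ξ) / aeval ((y j : ℂ) + ε * t) (DD y ε q s j)
      - ((t ^ 2 - 1) * (⟪kdir q s (y j), cpart ξ⟫ : ℝ) + (t + 1) * (ξ (Sum.inl (j, true)) : ℝ)
        + (t - 1) * (ξ (Sum.inl (j, false)) : ℝ))‖
      ≤ 20 * ε * (2 * Fintype.card J / sep + 1 / ρ) * ‖ξ‖ := by
  set z : ℂ := (y j : ℂ) + ε * t with hzdef
  have hρ0 : 0 < ρ := by linarith
  have hsep0 : 0 < sep := by linarith
  have hzy : ‖z - (y j : ℝ)‖ ≤ 2 * ε := by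
    rw [hzdef, add_sub_cancel_left, norm_mul, Complex.norm_real, Real.norm_eq_abs, abs_of_pos hε]
    nlinarith
  obtain ⟨k0, k1, k2⟩ := hq.kernel hs (y j) ρ hρ0 (far_form hΦ _ _ ρ hρ0.le (hfar j)) z
    (by linarith)
  change aeval z (KK q s (y j)) ≠ 0 at k0
  change ∀ c, _ ≤ 2 * ‖aeval z (KK q s (y j))‖ * ‖c‖ at k1
  change ∀ c, ‖_ - _ * aeval z (KK q s (y j))‖ ≤ _ * ‖aeval z (KK q s (y j))‖ * ‖c‖ at k2
  set K := aeval z (KK q s (y j)) with hK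
  have hKpos : 0 < ‖K‖ := norm_pos_iff.2 k0
  have hlin : ∀ i, i ≠ j → ∀ σ : ℝ, |σ| = 1 → sep / 2 ≤ ‖z - (y i : ℝ) - (σ * ε : ℝ)‖ := by
    intro i hi σ hσ
    have a1 : ((y j : ℝ) : ℂ) - (y i : ℝ)
        = (z - (y i : ℝ) - (σ * ε : ℝ)) - (z - (y j : ℝ)) + (σ * ε : ℝ) := by ring
    have a2 : sep ≤ ‖((y j : ℝ) : ℂ) - (y i : ℝ)‖ := by
      rw [← Complex.ofReal_sub, Complex.norm_real, Real.norm_eq_abs]
      exact hy j i (Ne.symm hi)
    have a3 := norm_add_le ((z - (y i : ℝ) - (σ * ε : ℝ)) - (z - (y j : ℝ))) (σ * ε : ℝ)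
    have a4 := norm_sub_le (z - (y i : ℝ) - (σ * ε : ℝ)) (z - (y j : ℝ))
    rw [Complex.norm_real, Real.norm_eq_abs, abs_mul, hσ, abs_of_pos hε, ← a1] at a3
    linarith
  have hOm : aeval z (Om y ε j) ≠ 0 := by
    rw [Om, map_prod]
    refine Finset.prod_ne_zero_iff.2 (fun i hi => ?_)
    have hi' := (Finset.mem_erase.1 hi).1
    rw [FF_eq _ _ true, map_mul]
    refine mul_ne_zero ?_ ?_
    · have := hlin i hi' (-1) (by simp)
      rw [← norm_pos_iff]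
      refine lt_of_lt_of_le (half_pos hsep0) (this.trans (le_of_eq ?_))
      congr 1
      simp [sg]
    · have := hlin i hi' 1 (by simp)
      rw [← norm_pos_iff]
      refine lt_of_lt_of_le (half_pos hsep0) (this.trans (le_of_eq ?_))
      congr 1
      simp [sg]
  set O := aeval z (Om y ε j) with hO
  have hε' : (ε : ℂ) ≠ 0 := Complex.ofReal_ne_zero.2 hε.ne'
  have hD : aeval z (DD y ε q s j) = (ε : ℂ) ^ 2 * O * K := by
    simp [DD, hO, hK]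
  have hom : aeval z (om y ε) = (ε : ℂ) ^ 2 * (t ^ 2 - 1) * O := by
    rw [om_eq y ε j, map_mul, ← hO]
    congr 1
    simp only [FF, map_sub, map_pow, aeval_X, aeval_C, Complex.coe_algebraMap, hzdef]
    ring
  have ht2 : ‖t ^ 2 - 1‖ ≤ 5 := by
    refine (norm_sub_le _ _).trans ?_
    rw [norm_pow, norm_one]
    nlinarith [norm_nonneg t]
  refine ⟨by rw [hD]; exact mul_ne_zero (mul_ne_zero (pow_ne_zero _ hε') hOm) k0, ?_⟩
  let g : J × Bool → ℂ := fun a => aeval z (GG y ε q s a) / aeval z (DD y ε q s j)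
    - if a.1 = j then t + (sg a.2 : ℝ) else 0
  have hg : ∀ a, ‖g a‖ ≤ 20 * ε / sep := by
    intro a
    simp only [g]
    split_ifs with h1
    · have : aeval z (GG y ε q s a) / aeval z (DD y ε q s j) = t + (sg a.2 : ℝ) := by
        rw [hD, GG, h1]
        simp only [map_mul, map_add, map_sub, aeval_X, aeval_C, Complex.coe_algebraMap, ← hO, ← hK]
        rw [hzdef]
        field_simp
        ring
      rw [this, sub_self, norm_zero]
      positivity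
    · have a1 := congrArg (aeval z) (GG_mul y ε q s a)
      simp only [map_mul, map_sub, aeval_X, aeval_C, Complex.coe_algebraMap, hom] at a1
      have a2 := hlin a.1 h1 (sg a.2) (abs_sg _)
      have a3 : ‖aeval z (KK q s (y a.1))‖ ≤ 2 * ‖K‖ := by
        have := k1 (kdir q s (y a.1))
        rwa [hq.norm_kdir hs, mul_one] at this
      have a4 : aeval z (GG y ε q s a) / aeval z (DD y ε q s j) * (z - (y a.1 : ℝ) - (sg a.2 * ε : ℝ))
          = ε * (t ^ 2 - 1) * (aeval z (KK q s (y a.1)) / K) := by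
        rw [div_mul_eq_mul_div, hD]
        push_cast at a1 ⊢
        rw [a1]
        field_simp
      have a5 := congrArg norm a4
      rw [norm_mul, norm_mul, norm_mul, norm_div _ K, Complex.norm_real, Real.norm_eq_abs,
        abs_of_pos hε] at a5
      have a6 : ‖aeval z (KK q s (y a.1))‖ / ‖K‖ ≤ 2 := by rw [div_le_iff₀ hKpos]; exact a3
      have a7 : ε * ‖t ^ 2 - 1‖ * (‖aeval z (KK q s (y a.1))‖ / ‖K‖) ≤ ε * 5 * 2 := by gcongr
      rw [sub_zero, le_div_iff₀ hsep0]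
      nlinarith [mul_le_mul_of_nonneg_left a2
        (norm_nonneg (aeval z (GG y ε q s a) / aeval z (DD y ε q s j)))]
  have hsum : ∑ a : J × Bool, (ξ (Sum.inl a) : ℂ) * (if a.1 = j then t + (sg a.2 : ℝ) else 0)
      = (t + 1) * (ξ (Sum.inl (j, true)) : ℝ) + (t - 1) * (ξ (Sum.inl (j, false)) : ℝ) := by
    rw [Fintype.sum_prod_type, Finset.sum_eq_single j]
    · simp [sg]; ring
    · intro i _ hi; simp [hi]
    · simp
  have hdec : aeval z (TT y ε q s ξ) / aeval z (DD y ε q s j)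
      - ((t ^ 2 - 1) * (⟪kdir q s (y j), cpart ξ⟫ : ℝ) + (t + 1) * (ξ (Sum.inl (j, true)) : ℝ)
        + (t - 1) * (ξ (Sum.inl (j, false)) : ℝ))
      = (t ^ 2 - 1) * ((aeval z (comb q s (cpart ξ)) - (⟪kdir q s (y j), cpart ξ⟫ : ℝ) * K) / K)
        + ∑ a, (ξ (Sum.inl a) : ℂ) * g a := by
    simp only [g, mul_sub, Finset.sum_sub_distrib, hsum]
    rw [TT_apply, map_add, map_mul, map_sum, add_div, Finset.sum_div, hom]
    simp only [map_smul, Complex.real_smul, mul_div_assoc]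
    rw [hD]
    field_simp
    ring
  rw [hdec]
  refine (norm_add_le _ _).trans ?_
  have b1 : ‖(t ^ 2 - 1) * ((aeval z (comb q s (cpart ξ))
      - (⟪kdir q s (y j), cpart ξ⟫ : ℝ) * K) / K)‖ ≤ 5 * (2 * (2 * ε) / ρ * ‖ξ‖) := by
    rw [norm_mul, norm_div]
    gcongr
    rw [div_le_iff₀ hKpos]
    refine (k2 _).trans ?_
    have := norm_cpart_le ξ
    calc _ ≤ 2 * (2 * ε) / ρ * ‖K‖ * ‖ξ‖ := by gcongr
      _ = _ := by ring
  have b2 : ‖∑ a, (ξ (Sum.inl a) : ℂ) * g a‖ ≤ 2 * Fintype.card J * (‖ξ‖ * (20 * ε / sep)) := by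
    refine (norm_sum_le _ _).trans ((Finset.sum_le_sum (g := fun _ => ‖ξ‖ * (20 * ε / sep))
      (fun a _ => ?_)).trans ?_)
    · rw [norm_mul, Complex.norm_real]
      have := PiLp.norm_apply_le ξ (Sum.inl a)
      have := hg a
      gcongr
    · simp only [Finset.sum_const, Finset.card_univ, Fintype.card_prod, Fintype.card_bool,
        nsmul_eq_mul]
      push_cast
      rw [mul_comm (Fintype.card J : ℝ) 2]
  refine (add_le_add b1 b2).trans (le_of_eq ?_)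
  ring

end Pool.Agent.MP_f6b137_pr.H13
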