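import Mathlib

set_option autoImplicit false

open Finset
open scoped RealInnerProductSpace

namespace Pool.Agent.MP_f6b137_pr.H13

/-- An almost isometric linear map is close to an isometry (polar decomposition). -/
theorem polar {E F : Type} [NormedAddCommGroup E] [InnerProductSpace ℝ E] [FiniteDimensional ℝ E]
    [NormedAddCommGroup F] [InnerProductSpace ℝ F] [FiniteDimensional ℝ F]
    (hdim : Module.finrank ℝ E = Module.finrank ℝ F) (A : E →ₗ[ℝ] F) (η : ℝ) (hη : η ≤ 1 / 2)
    (hA : ∀ x, |‖A x‖ ^ 2 - ‖x‖ ^ 2| ≤ η * ‖x‖ ^ 2) :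
    ∃ O : F ≃ₗᵢ[ℝ] E, ∀ a, ∃ x, A x = a ∧ ‖x - O a‖ ≤ 2 * η * ‖a‖ := by
  classical
  let S : E →ₗ[ℝ] E := (LinearMap.adjoint A).comp A
  have hS : S.IsSymmetric := by
    intro x y
    simp only [S, LinearMap.comp_apply]
    rw [LinearMap.adjoint_inner_left, LinearMap.adjoint_inner_right]
  set n := Module.finrank ℝ E with hn
  let b := hS.eigenvectorBasis hn.symm
  let l := hS.eigenvalues hn.symm
  have hb : ∀ i, S (b i) = l i • b i := fun i => hS.apply_eigenvectorBasis hn.symm i
  have hin : ∀ i j, ⟪A (b i), A (b j)⟫ = l j * ⟪b i, b j⟫ := by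
    intro i j
    rw [← LinearMap.adjoint_inner_right]
    change ⟪b i, S (b j)⟫ = _
    rw [hb, real_inner_smul_right]
  have hb1 : ∀ i, ‖b i‖ = 1 := b.orthonormal.1
  have hl : ∀ i, |l i - 1| ≤ η := by
    intro i
    have h1 := hA (b i)
    have h2 := hin i i
    rw [real_inner_self_eq_norm_sq, real_inner_self_eq_norm_sq, hb1] at h2
    rw [h2, hb1] at h1
    simpa using h1
  have hl0 : ∀ i, 1 / 2 ≤ l i := fun i => by linarith [(abs_le.1 (hl i)).1]
  have hs0 : ∀ i, 0 < Real.sqrt (l i) := fun i => Real.sqrt_pos.2 (by linarith [hl0 i])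
  have hss : ∀ i, Real.sqrt (l i) * Real.sqrt (l i) = l i :=
    fun i => Real.mul_self_sqrt (by linarith [hl0 i])
  let c : Fin n → F := fun i => (Real.sqrt (l i))⁻¹ • A (b i)
  have hc : Orthonormal ℝ c := by
    rw [orthonormal_iff_ite]
    intro i j
    simp only [c, real_inner_smul_left, real_inner_smul_right, hin]
    rw [orthonormal_iff_ite.1 b.orthonormal i j]
    split_ifs with h
    · subst h
      have := hs0 i
      have := hss i
      field_simp
      nlinarith
    · simp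
  have hcard : Fintype.card (Fin n) = Module.finrank ℝ F := by simp [hdim]
  let c' : OrthonormalBasis (Fin n) ℝ F := OrthonormalBasis.mk hc (by
    rw [hc.linearIndependent.span_eq_top_of_card_eq_finrank' hcard])
  have hc' : ∀ i, c' i = c i := fun i => by simp [c']
  refine ⟨c'.repr.trans b.repr.symm, fun a => ?_⟩
  refine ⟨∑ i, (c'.repr a i * (Real.sqrt (l i))⁻¹) • b i, ?_, ?_⟩
  · rw [map_sum]
    conv_rhs => rw [← c'.sum_repr a]
    refine Finset.sum_congr rfl (fun i _ => ?_)
    rw [map_smul, hc', mul_smul]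
  · have e1 : (c'.repr.trans b.repr.symm) a = ∑ i, c'.repr a i • b i := by
      rw [LinearIsometryEquiv.trans_apply, b.sum_repr_symm]
    rw [e1, ← Finset.sum_sub_distrib]
    simp_rw [← sub_smul]
    have hη0 : 0 ≤ 2 * η * ‖a‖ := by
      by_cases ha : a = 0
      · simp [ha]
      · have : Nontrivial F := ⟨⟨a, 0, ha⟩⟩
        have hpos : 0 < n := by rw [hdim]; exact Module.finrank_pos
        have := (abs_nonneg _).trans (hl ⟨0, hpos⟩)
        positivity
    refine abs_le_of_sq_le_sq' ?_ hη0 |>.2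
    have e2 : ∀ w : Fin n → ℝ, ‖∑ i, w i • b i‖ ^ 2 = ∑ i, w i ^ 2 := by
      intro w
      have := b.sum_repr_symm (WithLp.toLp 2 w)
      simp only at this
      rw [this, LinearIsometryEquiv.norm_map, EuclideanSpace.real_norm_sq_eq]
    have e3 : ‖a‖ ^ 2 = ∑ i, c'.repr a i ^ 2 := by
      rw [← c'.repr.norm_map a, EuclideanSpace.real_norm_sq_eq]
    rw [e2, mul_pow, e3, Finset.mul_sum]
    refine Finset.sum_le_sum (fun i _ => ?_)
    have h1 : ((Real.sqrt (l i))⁻¹ - 1) ^ 2 ≤ (2 * η) ^ 2 := by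
      have a1 := hs0 i
      have a2 := hss i
      have a3 := hl0 i
      have a4 := hl i
      set s := Real.sqrt (l i) with hs
      have a5 : s⁻¹ - 1 = (1 - l i) / (s * (1 + s)) := by
        rw [← a2]; field_simp; ring
      have a6 : 1 / 2 ≤ s * (1 + s) := by nlinarith
      rw [a5, div_pow, div_le_iff₀ (by positivity)]
      have a7 : (1 - l i) ^ 2 ≤ η ^ 2 := by
        rw [← sq_abs, abs_sub_comm]; exact pow_le_pow_left₀ (abs_nonneg _) a4 2
      have a8 : (1 / 2) ^ 2 ≤ (s * (1 + s)) ^ 2 := pow_le_pow_left₀ (by norm_num) a6 2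
      nlinarith [sq_nonneg η]
    calc (c'.repr a i * (Real.sqrt (l i))⁻¹ - c'.repr a i) ^ 2
        = ((Real.sqrt (l i))⁻¹ - 1) ^ 2 * c'.repr a i ^ 2 := by ring
      _ ≤ _ := mul_le_mul_of_nonneg_right h1 (sq_nonneg _)

end Pool.Agent.MP_f6b137_pr.H13
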