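import Mathlib
import Pool.Agent.MP_f6b137_pr.H13.Cluster
import Pool.Agent.MP_f6b137_pr.H13.Polar

set_option autoImplicit false

open Finset Polynomial MeasureTheory ProbabilityTheory
open scoped RealInnerProductSpace

namespace Pool.Agent.MP_f6b137_pr.H13

variable {B : ℝ[X] →ₗ[ℝ] ℝ[X] →ₗ[ℝ] ℝ} {p : ℕ → ℝ[X]}

/-- Coordinates with respect to an orthonormal family. -/
noncomputable def coord (B : ℝ[X] →ₗ[ℝ] ℝ[X] →ₗ[ℝ] ℝ) (p : ℕ → ℝ[X]) (s : ℕ) :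
    ℝ[X] →ₗ[ℝ] EuclideanSpace ℝ (Fin s) where
  toFun Q := WithLp.toLp 2 (fun k => B Q (p k))
  map_add' P Q := by ext k; simp
  map_smul' c Q := by ext k; simp

lemma IsONP.comb_coord (h : IsONP B p) {s : ℕ} (Q : ℝ[X]) (hQ : Q.degree < s) :
    comb p s (coord B p s Q) = Q := by
  obtain ⟨c, rfl⟩ := h.exists_comb s Q hQ
  congr 1
  ext k
  change B (comb p s c) (p k) = c k
  simp [comb_apply, h.on, Fin.val_inj]

variable {J : Type} [Fintype J] [DecidableEq J] {s : ℕ}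

/-- Embedding of the background coordinates. -/
noncomputable def zvec (J : Type) {s : ℕ} (k : EuclideanSpace ℝ (Fin s)) : VV J s :=
  WithLp.toLp 2 (Sum.elim (fun _ => 0) (fun b => k b))

/-- The atom directions. -/
noncomputable def evec (s : ℕ) (a : J × Bool) : VV J s := EuclideanSpace.single (Sum.inl a) 1

omit [DecidableEq J] in
lemma inner_zvec (k : EuclideanSpace ℝ (Fin s)) (ξ : VV J s) : ⟪zvec J k, ξ⟫ = ⟪k, cpart ξ⟫ := by
  simp [zvec, cpart, PiLp.inner_apply, Fintype.sum_sum_type]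

omit [Fintype J] [DecidableEq J] in
lemma cpart_zvec (k : EuclideanSpace ℝ (Fin s)) : cpart (zvec J k) = k := rfl

omit [DecidableEq J] in
lemma norm_zvec (k : EuclideanSpace ℝ (Fin s)) : ‖zvec J k‖ = ‖k‖ := by
  have h := inner_zvec k (zvec J k)
  rw [cpart_zvec, real_inner_self_eq_norm_sq, real_inner_self_eq_norm_sq] at h
  exact (pow_left_inj₀ (norm_nonneg _) (norm_nonneg _) two_ne_zero).1 h

lemma inner_evec (a : J × Bool) (ξ : VV J s) : ⟪evec s a, ξ⟫ = ξ (Sum.inl a) := by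
  simp [evec, EuclideanSpace.inner_single_left]

lemma norm_evec (a : J × Bool) : ‖evec s a‖ = 1 := by simp [evec]

lemma inner_evec_zvec (a : J × Bool) (k : EuclideanSpace ℝ (Fin s)) : ⟪evec s a, zvec J k⟫ = 0 := by
  rw [inner_evec]; rfl

lemma orth3 (k : EuclideanSpace ℝ (Fin s)) (hk : ‖k‖ = 1) (j : J) :
    Orthonormal ℝ ![zvec J k, evec s (j, true), evec s (j, false)] := by
  have h1 : ∀ a, ⟪zvec J k, evec s a⟫ = 0 := fun a => by rw [real_inner_comm, inner_evec_zvec]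
  have h2 : ⟪evec s (j, true), evec s (j, false)⟫ = 0 := by rw [inner_evec]; simp [evec]
  have h3 : ⟪evec s (j, false), evec s (j, true)⟫ = 0 := by rw [inner_evec]; simp [evec]
  refine ⟨fun i => ?_, fun i i' h => ?_⟩
  · fin_cases i <;> simp [norm_zvec, hk, norm_evec]
  · fin_cases i <;> fin_cases i' <;> simp [h1, h2, h3, inner_evec_zvec] at h ⊢

/-- The local description of the ideal polynomials. -/
def Shape (T : VV J s →ₗ[ℝ] ℝ[X]) (D : J → ℝ[X]) (y : J → ℝ) (ε : ℝ)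
    (k : J → EuclideanSpace ℝ (Fin s)) (lam : ℝ) : Prop :=
  ∀ (ξ : VV J s) (j : J) (t : ℂ), ‖t‖ ≤ 2 → aeval ((y j : ℂ) + ε * t) (D j) ≠ 0 ∧
    ‖aeval ((y j : ℂ) + ε * t) (T ξ) / aeval ((y j : ℂ) + ε * t) (D j)
      - ((t ^ 2 - 1) * (⟪k j, cpart ξ⟫ : ℝ) + (t + 1) * (ξ (Sum.inl (j, true)) : ℝ)
        + (t - 1) * (ξ (Sum.inl (j, false)) : ℝ))‖ ≤ lam * ‖ξ‖

theorem transfer {n : ℕ} (hn : n + 1 = 2 * Fintype.card J + s) (T : VV J s →ₗ[ℝ] ℝ[X])
    (hT : ∀ ξ, (T ξ).natDegree ≤ n) (D : J → ℝ[X]) (y : J → ℝ) (ε : ℝ)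
    (k : J → EuclideanSpace ℝ (Fin s)) (hk : ∀ j, ‖k j‖ = 1) (lam : ℝ) (hlam : 0 ≤ lam)
    (hloc : Shape T D y ε k lam) (hp : IsONP B p) (η : ℝ) (hη0 : 0 ≤ η) (hη : η ≤ 1 / 2)
    (hgram : ∀ ξ, |B (T ξ) (T ξ) - ‖ξ‖ ^ 2| ≤ η * ‖ξ‖ ^ 2) :
    ∃ O : EuclideanSpace ℝ (Fin (n + 1)) ≃ₗᵢ[ℝ] VV J s, ∀ a j, (2 * lam + 22 * η) * ‖a‖ ≤ 1 / 5 →
      Local (comb p (n + 1) a) (D j) (y j) ε ⟪zvec J (k j), O a⟫ ⟪evec s (j, true), O a⟫
        ⟪evec s (j, false), O a⟫ := by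
  have hdeg : ∀ ξ, (T ξ).degree < (n + 1 : ℕ) := fun ξ =>
    degree_le_natDegree.trans_lt (Nat.cast_lt.2 (Nat.lt_succ_of_le (hT ξ)))
  have hA : ∀ ξ, comb p (n + 1) (((coord B p (n + 1)).comp T) ξ) = T ξ := fun ξ =>
    hp.comb_coord _ (hdeg ξ)
  obtain ⟨O, hO⟩ := polar (E := VV J s) (F := EuclideanSpace ℝ (Fin (n + 1)))
    (by simp [hn, mul_comm]) ((coord B p (n + 1)).comp T) η hη (fun ξ => by
      rw [← hp.form_comb_self, hA]; exact hgram ξ)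
  refine ⟨O, fun a j ha t ht => ?_⟩
  obtain ⟨x, hx, hxa⟩ := hO a
  obtain ⟨h1, h2⟩ := hloc x j t ht
  refine ⟨h1, ?_⟩
  rw [← hx, hA, hx]
  have hx2 : ‖x‖ ≤ 2 * ‖a‖ := by
    have := norm_add_le (x - O a) (O a)
    rw [sub_add_cancel, O.norm_map] at this
    nlinarith [norm_nonneg a]
  have hd : ∀ v : VV J s, ‖v‖ = 1 → ‖((⟪v, x⟫ : ℝ) : ℂ) - (⟪v, O a⟫ : ℝ)‖ ≤ 2 * η * ‖a‖ := by
    intro v hv
    rw [← Complex.ofReal_sub, Complex.norm_real, ← inner_sub_right]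
    refine (norm_inner_le_norm (𝕜 := ℝ) _ _).trans ?_
    rwa [hv, one_mul]
  have d1 := hd (zvec J (k j)) (by rw [norm_zvec, hk])
  have d2 := hd (evec s (j, true)) (norm_evec _)
  have d3 := hd (evec s (j, false)) (norm_evec _)
  rw [← inner_zvec, ← inner_evec, ← inner_evec] at h2
  have t1 : ‖t ^ 2 - 1‖ ≤ 5 := by
    refine (norm_sub_le _ _).trans ?_
    rw [norm_pow, norm_one]
    nlinarith [norm_nonneg t]
  have t2 : ‖t + 1‖ ≤ 3 := (norm_add_le _ _).trans (by rw [norm_one]; linarith)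
  have t3 : ‖t - 1‖ ≤ 3 := (norm_sub_le _ _).trans (by rw [norm_one]; linarith)
  set w := aeval ((y j : ℂ) + ε * t) (T x) / aeval ((y j : ℂ) + ε * t) (D j)
  set Z : ℂ := ((⟪zvec J (k j), x⟫ : ℝ) : ℂ)
  set Z' : ℂ := ((⟪zvec J (k j), O a⟫ : ℝ) : ℂ)
  set X1 : ℂ := ((⟪evec s (j, true), x⟫ : ℝ) : ℂ)
  set X1' : ℂ := ((⟪evec s (j, true), O a⟫ : ℝ) : ℂ)
  set Y1 : ℂ := ((⟪evec s (j, false), x⟫ : ℝ) : ℂ)
  set Y1' : ℂ := ((⟪evec s (j, false), O a⟫ : ℝ) : ℂ)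
  have e : w - ((t ^ 2 - 1) * Z' + (t + 1) * X1' + (t - 1) * Y1')
      = (w - ((t ^ 2 - 1) * Z + (t + 1) * X1 + (t - 1) * Y1))
        + ((t ^ 2 - 1) * (Z - Z') + (t + 1) * (X1 - X1') + (t - 1) * (Y1 - Y1')) := by ring
  rw [e]
  refine (norm_add_le _ _).trans ?_
  have b1 : ‖(t ^ 2 - 1) * (Z - Z')‖ ≤ 5 * (2 * η * ‖a‖) := by rw [norm_mul]; gcongr
  have b2 : ‖(t + 1) * (X1 - X1')‖ ≤ 3 * (2 * η * ‖a‖) := by rw [norm_mul]; gcongr
  have b3 : ‖(t - 1) * (Y1 - Y1')‖ ≤ 3 * (2 * η * ‖a‖) := by rw [norm_mul]; gcongr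
  have b4 := norm_add₃_le (a := (t ^ 2 - 1) * (Z - Z')) (b := (t + 1) * (X1 - X1'))
    (c := (t - 1) * (Y1 - Y1'))
  have b5 : lam * ‖x‖ ≤ lam * (2 * ‖a‖) := by gcongr
  nlinarith

lemma sum_dite_sub {ι : Type} [Fintype ι] (P : ι → Prop) [DecidablePred P] (f : {x // P x} → ℝ) :
    ∑ b, (if hb : P b then f ⟨b, hb⟩ else 0) = ∑ x, f x := by
  rw [← Fintype.sum_subtype_add_sum_subtype P]
  simp [fun x : {x // P x} => x.2, fun x : {x // ¬ P x} => x.2]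

omit [DecidableEq J] in
/-- A common direction that most clusters feel. -/
lemma common_dir [Nonempty J] (d : ℕ) (k : J → EuclideanSpace ℝ (Fin s))
    (htop : ∀ j, 3 / 4 ≤ ∑ b : Fin s, if s ≤ b + d then k j b ^ 2 else 0) (κ : ℝ) (hκ : 0 < κ)
    (hκ1 : κ < 1) : ∃ h : EuclideanSpace ℝ (Fin s), ‖h‖ = 1 ∧
      ((Finset.univ.filter (fun j => |⟪k j, h⟫| < κ / (8 * (d + 1)))).card : ℝ)
        ≤ κ * Fintype.card J := by
  let v : J → EuclideanSpace ℝ {b : Fin s // s ≤ b + d} := fun j => WithLp.toLp 2 (fun b => k j b)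
  have hv : ∀ j, 3 / 4 ≤ ‖v j‖ ^ 2 := by
    intro j
    rw [EuclideanSpace.real_norm_sq_eq, ← sum_dite_sub]
    simpa [v] using htop j
  obtain ⟨g, hg1, hg2⟩ := exists_dir _ J v hv κ hκ
  have hcard : Fintype.card {b : Fin s // s ≤ b + d} ≤ d := by
    refine le_trans (Fintype.card_le_of_injective
      (fun b : {b : Fin s // s ≤ b + d} => (⟨s - 1 - b.1, by have := b.2; have := b.1.2; omega⟩ : Fin d))
      (fun b b' h => ?_)) (by simp)
    have h1 := b.1.2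
    have h2 := b'.1.2
    simp only [Fin.mk.injEq] at h
    exact Subtype.ext (Fin.ext (by omega))
  have hgn : ‖g‖ ≤ 2 * (d + 1) := by
    rw [finrank_euclideanSpace] at hg1
    have : (Fintype.card {b : Fin s // s ≤ b + d} : ℝ) ≤ d := by exact_mod_cast hcard
    have hd : (0 : ℝ) ≤ d := Nat.cast_nonneg d
    exact (abs_le_of_sq_le_sq' (by nlinarith) (by positivity)).2
  have hg0 : g ≠ 0 := by
    rintro rfl
    have hJ : (0 : ℝ) < Fintype.card J := by exact_mod_cast Fintype.card_pos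
    rw [Finset.filter_true_of_mem (fun j _ => by simp; positivity), Finset.card_univ] at hg2
    nlinarith
  have hgp := norm_pos_iff.2 hg0
  let h : EuclideanSpace ℝ (Fin s) :=
    WithLp.toLp 2 (fun b => if hb : s ≤ b + d then g ⟨b, hb⟩ else 0)
  have hh1 : ‖h‖ = ‖g‖ := by
    refine (pow_left_inj₀ (norm_nonneg _) (norm_nonneg _) two_ne_zero).1 ?_
    rw [EuclideanSpace.real_norm_sq_eq, EuclideanSpace.real_norm_sq_eq, ← sum_dite_sub]
    refine Finset.sum_congr rfl (fun b _ => ?_)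
    simp only [h]
    split_ifs <;> simp
  have hh2 : ∀ j, ⟪k j, h⟫ = ⟪v j, g⟫ := by
    intro j
    rw [PiLp.inner_apply, PiLp.inner_apply, ← sum_dite_sub]
    refine Finset.sum_congr rfl (fun b _ => ?_)
    simp only [h, v]
    split_ifs <;> simp
  refine ⟨‖g‖⁻¹ • h, by rw [norm_smul, norm_inv, norm_norm, hh1, inv_mul_cancel₀ hgp.ne'], ?_⟩
  refine le_trans (Nat.cast_le.2 (Finset.card_le_card (fun j hj => ?_))) hg2
  simp only [Finset.mem_filter, Finset.mem_univ, true_and] at hj ⊢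
  rw [real_inner_smul_right, hh2, abs_mul, abs_of_pos (inv_pos.2 hgp), inv_mul_lt_iff₀ hgp] at hj
  refine hj.le.trans ?_
  calc ‖g‖ * (κ / (8 * (d + 1))) ≤ 2 * (d + 1) * (κ / (8 * (d + 1))) := by gcongr
    _ = κ / 4 := by field_simp; ring

/-- The variance of the number of real zeros of the degree `n` random polynomial is at least `c`. -/
def BigVar (p : ℕ → ℝ[X]) (n : ℕ) (c : ℝ) : Prop :=
  ∀ (Ω : Type) [MeasurableSpace Ω] (P : Measure Ω) [IsProbabilityMeasure P]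
    (ξ : Ω → EuclideanSpace ℝ (Fin (n + 1))), Measurable ξ → P.map ξ = stdGaussian _ →
    c ≤ variance (fun ω => (((comb p (n + 1) (ξ ω)).roots.toFinset.card : ℕ) : ℝ)) P

theorem var_core : ∃ q0 : ℝ, 0 < q0 ∧ q0 ≤ 1 ∧ ∀ d : ℕ, ∃ p0 : ℝ, 0 < p0 ∧ ∃ Λ : ℝ, 1 ≤ Λ ∧
    ∀ (J : Type) [Fintype J] [DecidableEq J] (s n : ℕ) (M : ℝ), 0 < M →
    n + 1 = 2 * Fintype.card J + s → (1 - q0 / 32) * M ≤ Fintype.card J →
    (n : ℝ) ≤ (2 + q0 / 32) * M →
    ∀ (T : VV J s →ₗ[ℝ] ℝ[X]), (∀ ξ, (T ξ).natDegree ≤ n) →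
    ∀ (D : J → ℝ[X]) (y : J → ℝ) (ε : ℝ), 0 < ε → (∀ i j, i ≠ j → 4 * ε ≤ |y i - y j|) →
    ∀ (k : J → EuclideanSpace ℝ (Fin s)), (∀ j, ‖k j‖ = 1) →
    (∀ j, 3 / 4 ≤ ∑ b : Fin s, if s ≤ b + d then k j b ^ 2 else 0) →
    ∀ (lam : ℝ), 0 ≤ lam → Shape T D y ε k lam →
    ∀ (B : ℝ[X] →ₗ[ℝ] ℝ[X] →ₗ[ℝ] ℝ) (p : ℕ → ℝ[X]), IsONP B p → ∀ η : ℝ, 0 ≤ η → η ≤ 1 / 2 →
    (∀ ξ, |B (T ξ) (T ξ) - ‖ξ‖ ^ 2| ≤ η * ‖ξ‖ ^ 2) →
    (2 * lam + 22 * η) * (Λ * (n + 2)) ≤ 1 / 5 →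
    BigVar p n (p0 * M ^ 2) := by
  classical
  obtain ⟨q0, hq0, hq1, hB⟩ := probB
  refine ⟨q0, hq0, hq1, fun d => ?_⟩
  obtain ⟨p1, hp1, Λ, hΛ, hA⟩ := probA (q0 / 32 / (8 * (d + 1))) (q0 / 32) (by positivity)
    (by positivity)
  refine ⟨min p1 (q0 / 4) * (q0 / 8) ^ 2, by positivity, Λ + 8 + 4 / q0,
    by have : 0 < 4 / q0 := by positivity
       linarith, ?_⟩
  intro J _ _ s n M hM hn hr hnM T hT D y ε hε hsep k hk htop lam hlam hloc B p hp η hη0 hη hgram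
    hsm Ω _ P _ ξ hξ hlaw
  have hJ : (0 : ℝ) < Fintype.card J := lt_of_lt_of_le (mul_pos (by linarith) hM) hr
  have hJ' : 0 < Fintype.card J := by exact_mod_cast hJ
  have : Nonempty J := Fintype.card_pos_iff.1 hJ'
  obtain ⟨O, hO⟩ := transfer hn T hT D y ε k hk lam hlam hloc hp η hη0 hη hgram
  obtain ⟨h, hh1, hh2⟩ := common_dir d k htop (q0 / 32) (by positivity) (by linarith)
  obtain ⟨A, hAm, hAp, hA⟩ := hA (VV J s) J (fun j => zvec J (k j)) (fun j => evec s (j, true))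
    (fun j => evec s (j, false)) (zvec J h) (fun j => by rw [norm_zvec, hk])
    (fun j => norm_evec _) (fun j => norm_evec _) (by rw [norm_zvec, hh1])
    (fun j => inner_evec_zvec _ _) (fun j => inner_evec_zvec _ _)
    (by simpa only [inner_zvec, cpart_zvec] using hh2)
  obtain ⟨B', hBm, hBp, hB⟩ := hB (VV J s) J (fun j => zvec J (k j)) (fun j => evec s (j, true))
    (fun j => evec s (j, false)) (fun j => orth3 _ (hk j) j)
  have hfin : (Module.finrank ℝ (VV J s) : ℝ) = n + 1 := by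
    have : Module.finrank ℝ (VV J s) = n + 1 := by simp [hn, mul_comm]
    exact_mod_cast this
  rw [hfin] at hA hB
  have hOm : Measurable (fun ω => O (ξ ω)) := O.continuous.measurable.comp hξ
  have hlaw' : P.map (fun ω => O (ξ ω)) = stdGaussian (VV J s) := by
    rw [← stdGaussian_map O, ← hlaw, Measure.map_map O.continuous.measurable hξ]
    rfl
  have hreal : ∀ S : Set (VV J s), MeasurableSet S →
      P.real ((fun ω => O (ξ ω)) ⁻¹' S) = (stdGaussian (VV J s)).real S := by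
    intro S hS
    rw [← hlaw', measureReal_def, measureReal_def, Measure.map_apply hOm hS]
  have hn0 : (0 : ℝ) ≤ n := Nat.cast_nonneg n
  have h4q : 0 < 4 / q0 := by positivity
  have hloc' : ∀ a : EuclideanSpace ℝ (Fin (n + 1)), ‖O a‖ ^ 2 ≤ (Λ + 8 + 4 / q0) * (n + 2) →
      ∀ j, Local (comb p (n + 1) a) (D j) (y j) ε ⟪zvec J (k j), O a⟫ ⟪evec s (j, true), O a⟫
        ⟪evec s (j, false), O a⟫ := by
    intro a ha j
    refine hO a j (le_trans ?_ hsm)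
    rw [O.norm_map] at ha
    have h1 : 1 ≤ (Λ + 8 + 4 / q0) * (n + 2) := by nlinarith
    have h2 : ‖a‖ ≤ (Λ + 8 + 4 / q0) * (n + 2) := by nlinarith [sq_nonneg (‖a‖ - 1)]
    gcongr
  have hdeg : ∀ a : EuclideanSpace ℝ (Fin (n + 1)), (comb p (n + 1) a).natDegree ≤ n := fun a =>
    Nat.le_of_succ_le_succ (hp.comb_natDegree (Nat.succ_pos n) a)
  have hgap : q0 / 4 * M ≤ 2 * ((1 - q0 / 16) * Fintype.card J) - (n - q0 * Fintype.card J / 2) := by
    have a1 : (2 + 3 * q0 / 8) * ((1 - q0 / 32) * M) ≤ (2 + 3 * q0 / 8) * Fintype.card J := by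
      gcongr
    nlinarith [mul_le_mul_of_nonneg_right hq1 (mul_nonneg hq0.le hM.le), mul_pos hq0 hM]
  have hv := variance_ge P (fun ω => (((comb p (n + 1) (ξ ω)).roots.toFinset.card : ℕ) : ℝ)) n
    (fun ω => by
      rw [Nat.abs_cast]
      exact_mod_cast (Multiset.toFinset_card_le _).trans ((card_roots' _).trans (hdeg _)))
    _ _ (hOm hAm) (hOm hBm) (min p1 (q0 / 4)) (2 * ((1 - q0 / 16) * Fintype.card J))
    (n - q0 * Fintype.card J / 2) (by rw [hreal _ hAm]; exact (min_le_left _ _).trans hAp)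
    (by rw [hreal _ hBm]; exact (min_le_right _ _).trans hBp)
    (by nlinarith [mul_pos hq0 hM]) (fun ω hω => by
      obtain ⟨a1, a2⟩ := hA _ hω
      have a3 := count_lower (comb p (n + 1) (ξ ω)) D y _ _ _ ε hε hsep
        (Finset.univ.filter (fun j => ¬ (|⟪zvec J (k j), O (ξ ω)⟫| ≤
          |⟪evec s (j, true), O (ξ ω)⟫| + |⟪evec s (j, false), O (ξ ω)⟫| + 1)))
        (fun j _ => hloc' _ (by nlinarith) j) (fun j hj => not_le.1 (Finset.mem_filter.1 hj).2)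
      have a4 := Finset.card_filter_add_card_filter_not (s := (Finset.univ : Finset J))
        (fun j => |⟪zvec J (k j), O (ξ ω)⟫| ≤
          |⟪evec s (j, true), O (ξ ω)⟫| + |⟪evec s (j, false), O (ξ ω)⟫| + 1)
      rw [Finset.card_univ] at a4
      have a5 := (Nat.cast_le (α := ℝ)).2 a3
      have a6 := congrArg (Nat.cast : ℕ → ℝ) a4
      push_cast at a5 a6
      linarith) (fun ω hω => by
      obtain ⟨a1, a2⟩ := hB _ hω
      have a0 : 4 * ((n : ℝ) + 1 + 1) / q0 = 4 / q0 * (n + 2) := by ring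
      have a3 := count_upper (comb p (n + 1) (ξ ω)) D y _ _ _ ε hε hsep
        (Finset.univ.filter (fun j => Box ⟪zvec J (k j), O (ξ ω)⟫
          ⟪evec s (j, true), O (ξ ω)⟫ ⟪evec s (j, false), O (ξ ω)⟫))
        (fun j _ => hloc' _ (by nlinarith) j) (fun j hj => (Finset.mem_filter.1 hj).2) n (hdeg _)
        ((Finset.card_le_univ _).trans (by omega))
      have a5 := (Nat.cast_le (α := ℝ)).2 a3
      push_cast at a5
      linarith)
  refine le_trans ?_ hv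
  rw [mul_assoc, ← mul_pow]
  have : q0 / 8 * M ≤ (2 * ((1 - q0 / 16) * Fintype.card J) - (n - q0 * Fintype.card J / 2)) / 2 := by
    linarith
  gcongr

end Pool.Agent.MP_f6b137_pr.H13
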