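import Mathlib
import Pool.Agent.MP_f6b137_pr.H13.Events
import Pool.Agent.MP_f6b137_pr.H13.Cheb

set_option autoImplicit false

open Finset Polynomial Filter Topology
open scoped RealInnerProductSpace

namespace Pool.Agent.MP_f6b137_pr.H13

/-- The square of the Chebyshev factor over the discarded nodes. -/
noncomputable def rest (M : ℕ) (I : Finset ℕ) : ℝ[X] :=
  C ((2 ^ (M - 1)) ^ 2) * ∏ i ∈ range M \ I, (X - C (node M i)) ^ 2

lemma rest_deg (M : ℕ) (I : Finset ℕ) (hI : I ⊆ range M) :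
    (rest M I).natDegree + 2 * I.card ≤ 2 * M := by
  have h1 : (rest M I).natDegree ≤ (range M \ I).card * 2 := by
    refine (natDegree_C_mul_le _ _).trans ((natDegree_prod_le _ _).trans
      ((Finset.sum_le_sum (g := fun _ => 2) (fun i _ => by compute_degree)).trans (by simp)))
  have h2 := Finset.card_sdiff_add_card_eq_card hI
  rw [Finset.card_range] at h2
  omega

lemma om_upper (M : ℕ) (I : Finset ℕ) (hI : I ⊆ range M) (ε x : ℝ) (hε : 0 ≤ ε) (hx : |x| ≤ 1)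
    (hfar : ∀ i ∈ I, ε ≤ |x - node M i|) :
    |(om (fun j : I => node M j) ε * rest M I).eval x| ≤ 1 := by
  have h1 : |(om (fun j : I => node M j) ε).eval x| ≤ ∏ i ∈ I, (x - node M i) ^ 2 := by
    rw [om, eval_prod, Finset.prod_coe_sort I (fun i => (FF (node M i) ε).eval x), Finset.abs_prod]
    refine Finset.prod_le_prod (fun _ _ => abs_nonneg _) (fun i hi => ?_)
    have := pow_le_pow_left₀ hε (hfar i hi) 2
    rw [sq_abs] at this
    simp only [FF, eval_sub, eval_pow, eval_X, eval_C]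
    rw [abs_of_nonneg (by linarith)]
    linarith [sq_nonneg ε]
  have h2 : (rest M I).eval x = (2 ^ (M - 1)) ^ 2 * ∏ i ∈ range M \ I, (x - node M i) ^ 2 := by
    simp [rest, eval_prod]
  have h3 := pow_le_pow_left₀ (abs_nonneg _) (cheb_upper M x hx) 2
  rw [sq_abs, one_pow, mul_pow, ← Finset.prod_pow, ← Finset.prod_sdiff hI] at h3
  have h4 : 0 ≤ (rest M I).eval x := by rw [h2]; positivity
  rw [eval_mul, abs_mul, abs_of_nonneg h4]
  refine (mul_le_mul_of_nonneg_right h1 h4).trans ?_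
  rw [h2]
  linarith

lemma Om_lower (M : ℕ) (I : Finset ℕ) (hI : I ⊆ range M) (ε : ℝ) (hε : 0 < ε)
    (h : 4 * ε * (M : ℝ) ^ 3 ≤ 1) (a : I × Bool) :
    1 / 2 ≤ |(Om (fun j : I => node M j) ε a.1 * rest M I).eval (atom (fun j : I => node M j) ε a)| := by
  set x := atom (fun j : I => node M j) ε a with hx
  have hj : (a.1 : ℕ) < M := Finset.mem_range.1 (hI a.1.2)
  have hM : (1 : ℝ) ≤ M := by exact_mod_cast (by omega : 1 ≤ M)
  set u : ℝ := 1 - ε * (M : ℝ) ^ 2 with hu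
  have hu1 : ε * (M : ℝ) ^ 2 ≤ 1 / 4 := by nlinarith [mul_pos hε (pow_pos (by linarith : (0 : ℝ) < M) 2)]
  have hu0 : 0 ≤ u := by linarith
  have hxj : |x - node M a.1| = ε := by
    rw [hx, atom, add_sub_cancel_left, abs_mul, abs_sg, abs_of_pos hε, one_mul]
  have hlin : ∀ i ∈ (range M).erase a.1, ∀ v : ℝ, |v| ≤ ε →
      u * |node M a.1 - node M i| ≤ |x - node M i + v| := by
    intro i hi v hv
    obtain ⟨hi1, hi2⟩ := Finset.mem_erase.1 hi
    have a1 := node_sep' hj (Finset.mem_range.1 hi2) (Ne.symm hi1)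
    rw [div_le_iff₀ (by positivity)] at a1
    have a2 : |node M a.1 - node M i| ≤ |x - node M i + v| + |x - node M a.1| + |v| := by
      rw [show node M a.1 - node M i = (x - node M i + v) - (x - node M a.1) - v by ring]
      exact (abs_sub _ _).trans (by gcongr; exact abs_sub _ _)
    rw [hxj] at a2
    nlinarith [mul_le_mul_of_nonneg_left a1 hε.le]
  have hsub : I.erase a.1 ⊆ (range M).erase a.1 := Finset.erase_subset_erase _ hI
  have hsd : (range M).erase a.1 \ I.erase a.1 = range M \ I := by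
    ext i
    simp only [Finset.mem_sdiff, Finset.mem_erase]
    constructor
    · rintro ⟨⟨h1, h2⟩, h3⟩
      exact ⟨h2, fun h4 => h3 ⟨h1, h4⟩⟩
    · rintro ⟨h1, h2⟩
      exact ⟨⟨fun h3 => h2 (h3 ▸ a.1.2), h1⟩, fun h3 => h2 h3.2⟩
  have h1 : ∏ i ∈ I.erase a.1, (u * |node M a.1 - node M i|) ^ 2
      ≤ |(Om (fun j : I => node M j) ε a.1).eval x| := by
    have e : ∏ i ∈ (univ : Finset I).erase a.1, (FF (node M i) ε).eval x
        = ∏ i ∈ I.erase a.1, (FF (node M i) ε).eval x := by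
      refine Finset.prod_bij (fun i _ => (i : ℕ)) (fun i hi => ?_) (fun i _ i' _ h => Subtype.ext h)
        (fun i hi => ?_) (fun _ _ => rfl)
      · exact Finset.mem_erase.2 ⟨fun h => (Finset.mem_erase.1 hi).1 (Subtype.ext h), i.2⟩
      · obtain ⟨h1, h2⟩ := Finset.mem_erase.1 hi
        exact ⟨⟨i, h2⟩, Finset.mem_erase.2 ⟨fun h => h1 (congrArg Subtype.val h), mem_univ _⟩, rfl⟩
    rw [Om, eval_prod, e, Finset.abs_prod]
    refine Finset.prod_le_prod (fun _ _ => sq_nonneg _) (fun i hi => ?_)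
    have b1 := hlin i (hsub hi) ε (by rw [abs_of_pos hε])
    have b2 := hlin i (hsub hi) (-ε) (by rw [abs_neg, abs_of_pos hε])
    have e2 : (FF (node M i) ε).eval x = (x - node M i + ε) * (x - node M i + -ε) := by
      simp only [FF, eval_sub, eval_pow, eval_X, eval_C]; ring
    rw [e2, abs_mul, sq]
    exact mul_le_mul b1 b2 (by positivity) (abs_nonneg _)
  have h2 : (2 ^ (M - 1)) ^ 2 * ∏ i ∈ range M \ I, (u * |node M a.1 - node M i|) ^ 2
      ≤ |(rest M I).eval x| := by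
    have e : (rest M I).eval x = (2 ^ (M - 1)) ^ 2 * ∏ i ∈ range M \ I, (x - node M i) ^ 2 := by
      simp [rest, eval_prod]
    refine le_trans ?_ (le_abs_self _)
    rw [e]
    refine mul_le_mul_of_nonneg_left (Finset.prod_le_prod (fun _ _ => sq_nonneg _)
      (fun i hi => ?_)) (by positivity)
    have b1 := hlin i (Finset.sdiff_subset (hsd ▸ hi)) 0 (by simpa using hε.le)
    rw [add_zero] at b1
    rw [← sq_abs (x - node M i)]
    exact pow_le_pow_left₀ (by positivity) b1 2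
  have h3 := mul_le_mul h1 h2 (by positivity) (abs_nonneg _)
  rw [eval_mul, abs_mul]
  refine le_trans ?_ h3
  rw [mul_left_comm, mul_comm (∏ i ∈ I.erase a.1, _), ← hsd, Finset.prod_sdiff hsub,
    Finset.prod_pow, Finset.prod_mul_distrib, Finset.prod_const, ← mul_pow, mul_left_comm, mul_pow]
  have h4 := cheb_lower hj
  rw [abs_mul, abs_of_pos (by positivity), Finset.abs_prod] at h4
  have h5 : 1 / 2 ≤ (u ^ ((range M).erase a.1).card) ^ 2 := by
    rw [← pow_mul]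
    have c1 : ((range M).erase a.1).card * 2 ≤ 2 * M := by
      have := Finset.card_erase_le (s := range M) (a := a.1)
      rw [Finset.card_range] at this
      omega
    have c2 := pow_le_pow_of_le_one hu0 (by nlinarith [sq_nonneg (M : ℝ)]) c1
    have c3 := one_add_mul_le_pow (a := -(ε * (M : ℝ) ^ 2)) (by linarith) (2 * M)
    rw [← sub_eq_add_neg] at c3
    push_cast at c3
    nlinarith
  nlinarith [one_le_pow₀ (n := 2) h4]

lemma exists_bound {V : Type} [NormedAddCommGroup V] [NormedSpace ℝ V] [FiniteDimensional ℝ V]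
    (T : V →ₗ[ℝ] ℝ[X]) :
    ∃ C : ℝ, 0 < C ∧ ∀ ξ, ∀ t ∈ Set.Icc (-1 : ℝ) 1, |(T ξ).eval t| ≤ C * ‖ξ‖ := by
  let L : V →L[ℝ] C(Set.Icc (-1 : ℝ) 1, ℝ) := LinearMap.toContinuousLinearMap
    ((toContinuousMapOnAlgHom (Set.Icc (-1 : ℝ) 1)).toLinearMap.comp T)
  refine ⟨‖L‖ + 1, by positivity, fun ξ t ht => ?_⟩
  have h1 := (L ξ).norm_coe_le_norm ⟨t, ht⟩
  have h2 := L.le_opNorm ξ
  change |(T ξ).eval t| ≤ _ at h1
  nlinarith [norm_nonneg ξ]

/-- `Ψ` is close to `Φ` plus the atoms of weight `w a` at `x a`. -/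
def Close {A : Type} [Fintype A] (Ψ Φ : ℝ[X] →ₗ[ℝ] ℝ) (x w : A → ℝ) (γ : ℝ) : Prop :=
  ∀ (P : ℝ[X]) (C : ℝ),
    (∀ t ∈ Set.Icc (-1 : ℝ) 1, |P.eval t| ≤ C ∧ |(derivative P).eval t| ≤ C) →
    |Ψ (P * P) - Φ (P * P) - ∑ a, w a * P.eval (x a) ^ 2| ≤ γ * C ^ 2

theorem core : ∃ κ0 : ℝ, 0 < κ0 ∧ ∀ (Φ : ℝ[X] →ₗ[ℝ] ℝ) (E : Set ℝ), Fnl Φ E →
    E ⊆ Set.Icc (-1) 1 → Small E κ0 → ∀ δ : ℝ, 0 < δ → ∀ (K0 : ℕ),
    ∃ (n : ℕ) (A : Type) (_ : Fintype A) (x w : A → ℝ) (γ : ℝ), K0 ≤ n ∧ (∀ a, |x a| < 1) ∧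
      (∀ a, 0 ≤ w a) ∧ ∑ a, w a ≤ δ ∧ 0 < γ ∧
      ∀ Ψ : ℝ[X] →ₗ[ℝ] ℝ, Close Ψ Φ x w γ → ∀ p, IsONP (wform Ψ 1) p → BigVar p n (K0 * n) := by
  classical
  obtain ⟨q0, hq0, hq1, hcore⟩ := var_core
  refine ⟨q0 / 32, by positivity, fun Φ E hΦ hE hsmall δ hδ K0 => ?_⟩
  obtain ⟨ρ, hρ, M0, hM0⟩ := hsmall
  have hne : E.Nonempty := by
    by_contra h0
    rw [Set.not_nonempty_iff_eq_empty] at h0
    have h1 := hΦ.mono (-1) (by simp [h0])
    have h2 := hΦ.pos 1 one_ne_zero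
    rw [map_neg] at h1
    rw [one_mul] at h2
    linarith
  obtain ⟨σ, hσ1, hσ2⟩ := exists_sigma E hE hne ρ hρ
  obtain ⟨p0, hp0, Λ, hΛ, hcore⟩ := hcore σ.natDegree
  obtain ⟨D, hD⟩ := exists_nat_ge (32 * σ.natDegree / q0 + 1)
  have hD0 : (0 : ℝ) ≤ 32 * σ.natDegree / q0 := by positivity
  have hD1 : (1 : ℝ) ≤ D := by linarith
  have hDd : (σ.natDegree : ℝ) ≤ q0 / 32 * D := by
    have : 32 * σ.natDegree / q0 ≤ (D : ℝ) := by linarith
    rw [div_le_iff₀ hq0] at this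
    linarith
  set R : ℝ := 1 + 1 / ρ with hR
  have hρ' : 0 < 1 / ρ := by positivity
  have hR1 : 1 ≤ R := by linarith
  set c : ℝ := 1 / (10000 * Λ * R) with hc
  have hc0 : 0 < c := by positivity
  have hcR : c * R * Λ = 1 / 10000 := by rw [hc]; field_simp
  have hcR' : c * R ≤ 1 / 10000 := by nlinarith [mul_pos hc0 (by linarith : 0 < R)]
  have hc1 : c ≤ 1 / 10000 := by nlinarith
  have hcρ : c * (1 / ρ) ≤ c * R := by gcongr; linarith
  have hev : ∀ᶠ K : ℕ in atTop, (K : ℝ) ^ 17 / 4 ^ K ≤ δ * c ^ 4 / (8 * (D : ℝ) ^ 17) :=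
    (tendsto_pow_const_div_const_pow_of_one_lt 17 (by norm_num : (1 : ℝ) < 4)).eventually
      (ge_mem_nhds (by positivity))
  obtain ⟨K1, hK1⟩ := exists_nat_ge (3 * K0 / p0)
  obtain ⟨K, hKδ, hK⟩ := (hev.and (eventually_ge_atTop (M0 + K0 + K1 + 1))).exists
  set M := D * K with hMdef
  have hD1' : 1 ≤ D := by exact_mod_cast hD1
  have hKM : K ≤ M := Nat.le_mul_of_pos_left _ hD1'
  have hM1 : (1 : ℝ) ≤ M := by exact_mod_cast (by omega : 1 ≤ M)
  have hMpos : (0 : ℝ) < M := by linarith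
  set ε : ℝ := c / (M : ℝ) ^ 4 with hεdef
  have hε : 0 < ε := by positivity
  have hεM : ε * (M : ℝ) ^ 4 = c := by rw [hεdef]; field_simp
  have hM2 : (1 : ℝ) ≤ (M : ℝ) ^ 2 := one_le_pow₀ hM1
  have hM3 : (1 : ℝ) ≤ (M : ℝ) ^ 3 := one_le_pow₀ hM1
  have hM4 : (1 : ℝ) ≤ (M : ℝ) ^ 4 := one_le_pow₀ hM1
  have hεc : ε ≤ c := by nlinarith
  have hε3 : ε * (M : ℝ) ^ 3 ≤ c := by nlinarith [mul_pos hε (pow_pos hMpos 3)]
  have hε2 : ε * (M : ℝ) ^ 2 ≤ c := by nlinarith [mul_pos hε (pow_pos hMpos 2)]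
  have hερ : 4 * ε ≤ ρ := by
    have : c * (1 / ρ) ≤ 1 / 4 := by linarith
    rw [mul_one_div, div_le_iff₀ hρ] at this
    linarith
  have hsep : 6 * ε ≤ 2 / (M : ℝ) ^ 2 := by rw [le_div_iff₀ (by positivity)]; linarith
  set I := (range M).filter (fun i => ¬ ∃ e ∈ E, |node M i - e| < 2 * ρ) with hIdef
  have hI : I ⊆ range M := Finset.filter_subset _ _
  have hIM : ∀ j : I, (j : ℕ) < M := fun j => Finset.mem_range.1 (hI j.2)
  have hIc : I.card ≤ M := by simpa using Finset.card_le_card hI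
  have hIc' : (1 - q0 / 32) * M ≤ Fintype.card I := by
    have a1 := hM0 M (by omega)
    have a2 := congrArg (Nat.cast : ℕ → ℝ) (Finset.card_filter_add_card_filter_not (s := range M)
      (fun i => ∃ e ∈ E, |node M i - e| < 2 * ρ))
    rw [Finset.card_range] at a2
    push_cast at a2
    rw [Fintype.card_coe]
    linarith
  have hr : (Fintype.card I : ℝ) ≤ M := by rw [Fintype.card_coe]; exact_mod_cast hIc
  set y : I → ℝ := fun j => node M j with hy
  have hfar2 : ∀ j, ∀ x ∈ E, 2 * ρ ≤ |x - y j| := by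
    intro j x hx
    have := (Finset.mem_filter.1 j.2).2
    push Not at this
    rw [abs_sub_comm]
    exact this x hx
  have hfar : ∀ j, ∀ x ∈ E, ρ ≤ |x - y j| := fun j x hx => le_trans (by linarith) (hfar2 j x hx)
  have hysep : ∀ i j, i ≠ j → 2 / (M : ℝ) ^ 2 ≤ |y i - y j| := fun i j hij =>
    node_sep' (hIM i) (hIM j) (fun h => hij (Subtype.ext h))
  have hnear : ∀ (j : I) (x : ℝ), |x - y j| ≤ ε → |x| < 1 ∧ 1 ≤ |σ.eval x| := by
    intro j x hx
    have a1 := node_interior (hIM j)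
    have a2 : |x| ≤ |x - y j| + |y j| := by simpa using abs_add_le (x - y j) (y j)
    have a3 : ε < 1 / (2 * (M : ℝ) ^ 2) := by rw [lt_div_iff₀ (by positivity)]; linarith
    have a4 : |x| < 1 := by change |y j| ≤ _ at a1; linarith
    refine ⟨a4, hσ2 x (abs_le.1 a4.le) (fun e he => ?_)⟩
    have a5 := hfar2 j e he
    have a6 := abs_sub_le e x (y j)
    rw [abs_sub_comm e x] at a6
    linarith
  have hatom : ∀ a : I × Bool, |atom y ε a - y a.1| ≤ ε := fun a => by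
    rw [atom, add_sub_cancel_left, abs_mul, abs_sg, abs_of_pos hε, one_mul]
  obtain ⟨q, hq⟩ := hΦ.exists_onp (om y ε) (om_ne y ε)
  set s := 2 * (M - I.card) + σ.natDegree * K + 1 with hsdef
  have hs : 0 < s := by omega
  set n := 2 * M + σ.natDegree * K with hndef
  have hn : n + 1 = 2 * Fintype.card I + s := by rw [Fintype.card_coe]; omega
  have hnM : (n : ℝ) ≤ (2 + q0 / 32) * M := by
    rw [hndef, hMdef]
    push_cast
    nlinarith [mul_le_mul_of_nonneg_right hDd (Nat.cast_nonneg (α := ℝ) K)]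
  have hn3 : (n : ℝ) ≤ 3 * M := hnM.trans (by gcongr; linarith)
  have hG : ∀ a, ε ^ 2 / 2 ≤ (1 / 2) ^ K * |(GG y ε q s a).eval (atom y ε a)| := by
    intro a
    have hdeg : (σ ^ K * rest M I).degree < s := by
      refine degree_le_natDegree.trans_lt (Nat.cast_lt.2 ?_)
      have a1 := natDegree_mul_le (p := σ ^ K) (q := rest M I)
      have a2 := natDegree_pow_le (p := σ) (n := K)
      have a3 := rest_deg M I hI
      rw [mul_comm K] at a2
      omega
    refine le_trans ?_ (weight hΦ y ε ρ hε (by linarith) hfar hq hs (σ ^ K * rest M I) hdeg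
      ((1 / 2) ^ K) (by positivity) (fun x hx => ?_) a)
    · have a1 := Om_lower M I hI ε hε (by linarith) a
      have a2 := one_le_pow₀ (n := K) (hnear a.1 _ (hatom a)).2
      rw [mul_left_comm, eval_mul, abs_mul, eval_pow, abs_pow, div_eq_mul_one_div]
      gcongr
      nlinarith
    · have a1 := om_upper M I hI ε x hε.le (abs_le.2 (hE hx))
        (fun i hi => le_trans (by linarith) (hfar ⟨i, hi⟩ x hx))
      have a2 := pow_le_pow_left₀ (abs_nonneg _) (hσ1 x hx) K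
      rw [mul_left_comm, eval_mul, abs_mul, eval_pow, abs_pow]
      nlinarith [pow_nonneg (abs_nonneg (σ.eval x)) K]
  have hG0 : ∀ a, (GG y ε q s a).eval (atom y ε a) ≠ 0 := by
    intro a h0
    have := hG a
    rw [h0, abs_zero, mul_zero] at this
    linarith [sq_pos_of_pos hε]
  obtain ⟨C1, hC1, hT1⟩ := exists_bound (TT y ε q s)
  obtain ⟨C2, hC2, hT2⟩ := exists_bound (derivative.comp (TT y ε q s))
  refine ⟨n, I × Bool, inferInstance, atom y ε, fun a => ((GG y ε q s a).eval (atom y ε a) ^ 2)⁻¹,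
    c / M / (C1 + C2) ^ 2, by omega, fun a => (hnear a.1 _ (hatom a)).1, fun a => by positivity,
    ?_, by positivity, fun Ψ hΨ p hp => ?_⟩
  · have hw : ∀ a, ((GG y ε q s a).eval (atom y ε a) ^ 2)⁻¹ ≤ 4 / (4 ^ K * ε ^ 4) := by
      intro a
      have a1 := pow_le_pow_left₀ (by positivity) (hG a) 2
      rw [mul_pow, sq_abs, ← pow_mul, mul_comm K 2, pow_mul, show ((1 : ℝ) / 2) ^ 2 = 4⁻¹ by norm_num,
        inv_pow, le_inv_mul_iff₀ (by positivity)] at a1
      rw [inv_le_comm₀ (sq_pos_of_ne_zero (hG0 a)) (by positivity), inv_div]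
      linarith
    refine (Finset.sum_le_sum (fun a _ => hw a)).trans ?_
    simp only [Finset.sum_const, Finset.card_univ, Fintype.card_prod, Fintype.card_bool,
      nsmul_eq_mul]
    push_cast
    have a2 : (M : ℝ) * 2 * (4 / (4 ^ K * ε ^ 4))
        = 8 * (D : ℝ) ^ 17 / c ^ 4 * ((K : ℝ) ^ 17 / 4 ^ K) := by
      rw [hεdef, hMdef]
      push_cast
      have : (K : ℝ) ≠ 0 := by exact_mod_cast (by omega : K ≠ 0)
      field_simp
      norm_num
    calc _ ≤ (M : ℝ) * 2 * (4 / (4 ^ K * ε ^ 4)) := by gcongr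
      _ ≤ 8 * (D : ℝ) ^ 17 / c ^ 4 * (δ * c ^ 4 / (8 * (D : ℝ) ^ 17)) := by rw [a2]; gcongr
      _ = δ := by field_simp
  · set θ : ℝ := 4 * M * ε / ρ with hθ
    have hθ0 : 0 < θ := by positivity
    have hθ1 : θ * M ≤ 4 * (c * R) := by
      have : θ * M = 4 * (ε * (M : ℝ) ^ 2 * (1 / ρ)) := by rw [hθ]; ring
      rw [this]
      have : ε * (M : ℝ) ^ 2 * (1 / ρ) ≤ c * (1 / ρ) := by gcongr
      linarith
    have hθ2 : θ ≤ 1 := by nlinarith
    have hθ3 : 2 * Fintype.card I * (2 * ε / ρ) ^ 2 ≤ θ ^ 2 := by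
      have : θ ^ 2 = 4 * (M : ℝ) ^ 2 * (2 * ε / ρ) ^ 2 := by rw [hθ]; ring
      rw [this]
      gcongr ?_ * _
      nlinarith
    have hη1 : (2 * θ + θ ^ 2 + c / M) * M ≤ 13 * (c * R) := by
      have : c / M * M = c := by field_simp
      nlinarith [mul_le_mul_of_nonneg_right hθ2 (mul_pos hθ0 hMpos).le]
    have hη0 : 0 ≤ 2 * θ + θ ^ 2 + c / M := by positivity
    set lam := 20 * ε * (2 * Fintype.card I / (2 / (M : ℝ) ^ 2) + 1 / ρ) with hlam
    have hlam0 : 0 ≤ lam := by positivity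
    have hlam1 : lam * M ≤ 20 * (c * R) := by
      have a1 : lam * M = 20 * (ε * (M : ℝ) ^ 3 * Fintype.card I + ε * M * (1 / ρ)) := by
        rw [hlam]; field_simp
      have a2 : ε * (M : ℝ) ^ 3 * Fintype.card I ≤ ε * (M : ℝ) ^ 3 * M := by gcongr
      have a3 : ε * M ≤ c := by nlinarith [mul_pos hε hMpos]
      have a4 : ε * M * (1 / ρ) ≤ c * (1 / ρ) := by gcongr
      rw [a1, hR]
      nlinarith
    have hbig := hcore I s n M hMpos hn hIc' hnM (TT y ε q s) (TT_deg hq hs y ε n hn) (DD y ε q s) y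
      ε hε (fun i j hij => le_trans (by linarith) (hysep i j hij)) (fun j => kdir q s (y j))
      (fun j => hq.norm_kdir hs _)
      (fun j => hq.top_part hs (y j) σ _ le_rfl (hnear j _ (by simpa using hε.le)).2
        (sigma_form hΦ _ σ hσ1)) lam hlam0
      (fun ξ j t ht => local_shape hΦ y ε ρ _ hε hερ hsep hysep hfar hq hs ξ j t ht)
      (wform Ψ 1) p hp (2 * θ + θ ^ 2 + c / M) hη0 (by nlinarith) (fun ξ => ?_) ?_
    · intro Ω _ P _ ξ hξ hlaw
      refine le_trans ?_ (hbig Ω P ξ hξ hlaw)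
      have a1 : (K1 : ℝ) ≤ M := by exact_mod_cast (by omega : K1 ≤ M)
      rw [div_le_iff₀ hp0] at hK1
      have a2 : 3 * K0 ≤ p0 * M := by nlinarith
      have a3 : (K0 : ℝ) * n ≤ K0 * (3 * M) := by gcongr
      nlinarith
    · have a1 := gram hΦ y ε ρ hε (by linarith) hfar hq hs θ hθ0 hθ3 hG0 ξ
      have a2 := hΨ (TT y ε q s ξ) ((C1 + C2) * ‖ξ‖) (fun t ht =>
        ⟨(hT1 ξ t ht).trans (by gcongr; linarith), (hT2 ξ t ht).trans (by gcongr; linarith)⟩)
      have a3 : c / M / (C1 + C2) ^ 2 * ((C1 + C2) * ‖ξ‖) ^ 2 = c / M * ‖ξ‖ ^ 2 := by field_simp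
      rw [wform_apply, one_mul]
      rw [a3, abs_le] at a2
      rw [abs_le] at a1 ⊢
      constructor <;> linarith [a1.1, a1.2, a2.1, a2.2]
    · have a1 : (2 * lam + 22 * (2 * θ + θ ^ 2 + c / M)) * (Λ * (n + 2))
          ≤ (2 * lam + 22 * (2 * θ + θ ^ 2 + c / M)) * (Λ * (5 * M)) := by gcongr; linarith
      have a2 : (2 * lam + 22 * (2 * θ + θ ^ 2 + c / M)) * M ≤ 326 * (c * R) := by linarith
      have a3 := mul_le_mul_of_nonneg_right a2 (by linarith : 0 ≤ Λ)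
      nlinarith

end Pool.Agent.MP_f6b137_pr.H13
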