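import Mathlib
import Pool.Agent.MP_f6b137_pr.H13.Core

set_option autoImplicit false

open Finset Polynomial Filter Topology MeasureTheory

namespace Pool.Agent.MP_f6b137_pr.H13

/-- Finite absolutely continuous measures carried by the interval. -/
structure Nice (μ : Measure ℝ) : Prop where
  fin : IsFiniteMeasure μ
  ac : μ ≪ volume
  supp : μ (Set.Icc (-1) 1)ᶜ = 0

lemma Nice.integrable {μ : Measure ℝ} (h : Nice μ) {f : ℝ → ℝ} (hf : Continuous f) :
    Integrable f μ := by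
  have := h.fin
  have h1 : IntegrableOn f (Set.Icc (-1) 1) μ := hf.continuousOn.integrableOn_compact isCompact_Icc
  rwa [IntegrableOn, Measure.restrict_eq_self_of_ae_mem (s := Set.Icc (-1) 1)
    (mem_ae_iff.2 h.supp)] at h1

lemma Nice.add {μ ν : Measure ℝ} (h : Nice μ) (h' : Nice ν) : Nice (μ + ν) := by
  have := h.fin
  have := h'.fin
  exact ⟨inferInstance, h.ac.add_left h'.ac, by simp [h.supp, h'.supp]⟩

lemma Nice.of_le {μ ν : Measure ℝ} (h : Nice ν) (hle : μ ≤ ν) : Nice μ := by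
  have := h.fin
  exact ⟨isFiniteMeasure_of_le ν hle, hle.absolutelyContinuous.trans h.ac,
    hle.absolutelyContinuous h.supp⟩

lemma nice_sum {A : Type} (S : Finset A) (μ : A → Measure ℝ) (h : ∀ a, Nice (μ a)) :
    Nice (∑ a ∈ S, μ a) := by
  classical
  induction S using Finset.induction_on with
  | empty => exact ⟨by simp; infer_instance, by simp, by simp⟩
  | insert a S ha ih => rw [Finset.sum_insert ha]; exact (h a).add ih

/-- The moment functional. -/
noncomputable def fnl {μ : Measure ℝ} (h : Nice μ) : ℝ[X] →ₗ[ℝ] ℝ where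
  toFun P := ∫ x, P.eval x ∂μ
  map_add' P Q := by
    simp only [eval_add]
    exact integral_add (h.integrable P.continuous) (h.integrable Q.continuous)
  map_smul' c P := by simp [integral_const_mul]

lemma fnl_apply {μ : Measure ℝ} (h : Nice μ) (P : ℝ[X]) : fnl h P = ∫ x, P.eval x ∂μ := rfl

lemma Nice.fnl {μ : Measure ℝ} (h : Nice μ) {E : Set ℝ} (hE : μ Eᶜ = 0) (h0 : μ ≠ 0)
    (h1 : μ.real Set.univ ≤ 1) : Fnl (fnl h) E := by
  refine ⟨fun P hP => integral_nonneg_of_ae ?_, fun P hP => ?_, by simpa [fnl_apply] using h1⟩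
  · filter_upwards [mem_ae_iff.2 hE] with x hx using hP x hx
  · rw [fnl_apply, integral_pos_iff_support_of_nonneg
      (fun x => by simpa using mul_self_nonneg (P.eval x)) (h.integrable (P * P).continuous)]
    rw [pos_iff_ne_zero]
    intro h2
    have h3 : μ {x | (P * P).IsRoot x} = 0 :=
      h.ac ((finite_setOfPred_isRoot (mul_ne_zero hP hP)).measure_zero _)
    refine h0 (Measure.measure_univ_eq_zero.1 (measure_mono_null ?_ (measure_union_null h2 h3)))
    intro x _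
    by_cases hx : (P * P).eval x = 0
    · exact Or.inr hx
    · exact Or.inl hx

/-- A narrow uniform bump of mass `w`. -/
noncomputable def bump (x τ w : ℝ) : Measure ℝ :=
  ENNReal.ofReal (w / (2 * τ)) • volume.restrict (Set.Icc (x - τ) (x + τ))

lemma bump_compl (x τ w : ℝ) {E : Set ℝ} (hE : Set.Icc (x - τ) (x + τ) ⊆ E) :
    bump x τ w Eᶜ = 0 := by
  refine measure_mono_null (Set.compl_subset_compl.2 hE) ?_
  simp [bump, Measure.restrict_apply measurableSet_Icc.compl]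

lemma bump_univ (x τ w : ℝ) (hτ : 0 < τ) (hw : 0 ≤ w) :
    bump x τ w Set.univ = ENNReal.ofReal w := by
  simp only [bump, Measure.smul_apply, MeasurableSet.univ, Measure.restrict_apply, Set.univ_inter,
    Real.volume_Icc, smul_eq_mul]
  rw [← ENNReal.ofReal_mul (by positivity)]
  congr 1
  field_simp
  ring

lemma bump_real (x τ w : ℝ) (hτ : 0 < τ) (hw : 0 ≤ w) : (bump x τ w).real Set.univ = w := by
  rw [measureReal_def, bump_univ x τ w hτ hw, ENNReal.toReal_ofReal hw]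

lemma bump_nice (x τ w : ℝ) (hτ : 0 < τ) (hw : 0 ≤ w) (hx : τ ≤ 1 - |x|) : Nice (bump x τ w) := by
  refine ⟨⟨by rw [bump_univ x τ w hτ hw]; exact ENNReal.ofReal_lt_top⟩,
    Measure.absolutelyContinuous_restrict.smul_left _, bump_compl x τ w ?_⟩
  exact Set.Icc_subset_Icc (by linarith [neg_abs_le x]) (by linarith [le_abs_self x])

lemma bump_pos (x τ w : ℝ) (hτ : 0 < τ) (hw : 0 < w) (a b : ℝ) (ha : a < x) (hb : x < b) :
    0 < bump x τ w (Set.Ioo a b) := by
  simp only [bump, Measure.smul_apply, measurableSet_Ioo, Measure.restrict_apply, smul_eq_mul]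
  refine ENNReal.mul_pos (ENNReal.ofReal_pos.2 (by positivity)).ne' (ne_of_gt ?_)
  refine lt_of_lt_of_le ?_ (measure_mono (s := Set.Ioo (max a (x - τ)) (min b (x + τ)))
    (fun t ht => ?_))
  · rw [Real.volume_Ioo, ENNReal.ofReal_pos, sub_pos]
    exact (max_lt ha (by linarith)).trans (lt_min hb (by linarith))
  · obtain ⟨h1, h2⟩ := ht
    rw [max_lt_iff] at h1
    rw [lt_min_iff] at h2
    exact ⟨⟨h1.1, h2.1⟩, h1.2.le, h2.2.le⟩

lemma bump_integral (x τ w : ℝ) (hτ : 0 < τ) (hw : 0 ≤ w) (hx : τ ≤ 1 - |x|) (P : ℝ[X]) (C : ℝ)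
    (hP : ∀ t ∈ Set.Icc (-1 : ℝ) 1, |P.eval t| ≤ C ∧ |(derivative P).eval t| ≤ C) :
    |∫ t, (P * P).eval t ∂(bump x τ w) - w * P.eval x ^ 2| ≤ w * (2 * τ * C ^ 2) := by
  have hn := bump_nice x τ w hτ hw hx
  have := hn.fin
  have hx1 : x ∈ Set.Icc (-1 : ℝ) 1 := abs_le.1 (by linarith)
  have hC : 0 ≤ C := (abs_nonneg _).trans (hP x hx1).1
  have h1 : ∫ t, (P * P).eval t ∂(bump x τ w) - w * P.eval x ^ 2
      = ∫ t, ((P * P).eval t - P.eval x ^ 2) ∂(bump x τ w) := by
    rw [integral_sub (hn.integrable (P * P).continuous) (integrable_const _), integral_const,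
      bump_real x τ w hτ hw, smul_eq_mul]
  have h2 := norm_integral_le_of_norm_le_const (μ := bump x τ w)
    (f := fun t => (P * P).eval t - P.eval x ^ 2) (C := 2 * τ * C ^ 2) (by
      filter_upwards [mem_ae_iff.2 (bump_compl x τ w subset_rfl)] with t ht
      have ht1 : t ∈ Set.Icc (-1 : ℝ) 1 :=
        ⟨by linarith [ht.1, neg_abs_le x], by linarith [ht.2, le_abs_self x]⟩
      have a1 := (convex_Icc (-1 : ℝ) 1).norm_image_sub_le_of_norm_hasDerivWithin_le
        (f := fun t => P.eval t) (C := C) (fun t _ => P.hasDerivWithinAt t _)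
        (fun t ht => (hP t ht).2) hx1 ht1
      have a2 : |t - x| ≤ τ := abs_le.2 ⟨by linarith [ht.1], by linarith [ht.2]⟩
      have a3 : |P.eval t + P.eval x| ≤ C + C :=
        (abs_add_le _ _).trans (add_le_add (hP t ht1).1 (hP x hx1).1)
      rw [Real.norm_eq_abs, Real.norm_eq_abs] at a1
      rw [Real.norm_eq_abs, eval_mul, show P.eval t * P.eval t - P.eval x ^ 2
        = (P.eval t - P.eval x) * (P.eval t + P.eval x) by ring, abs_mul]
      calc _ ≤ (C * τ) * (C + C) :=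
            mul_le_mul (a1.trans (by gcongr)) a3 (abs_nonneg _) (by positivity)
        _ = _ := by ring)
  rw [bump_real x τ w hτ hw, Real.norm_eq_abs] at h2
  rw [h1]
  linarith

/-- The state of the construction. -/
structure State (κ0 : ℝ) where
  μ : Measure ℝ
  E : Set ℝ
  γ : ℝ
  nice : Nice μ
  ne : μ ≠ 0
  conc : μ Eᶜ = 0
  sub : E ⊆ Set.Icc (-1) 1
  small : ∃ κ < κ0, Small E κ
  pos : 0 < γ
  mass : μ.real Set.univ + γ ≤ 1

/-- One step of the construction. -/
def Step {κ0 : ℝ} (k : ℕ) (r : ℝ) (S S' : State κ0) : Prop :=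
  (∃ l, S'.μ = S.μ + l) ∧ S'.μ.real Set.univ + S'.γ ≤ S.μ.real Set.univ + S.γ ∧
  (∀ a b, a < r → r < b → 0 < S'.μ (Set.Ioo a b)) ∧
  ∀ (ν : Measure ℝ) (hν : Nice ν), S'.μ ≤ ν → ν.real Set.univ ≤ S'.μ.real Set.univ + S'.γ →
    ∀ p, IsONP (wform (fnl hν) 1) p → ∃ n, k ≤ n ∧ BigVar p n (k * n)

theorem stage : ∃ κ0 : ℝ, 0 < κ0 ∧ ∀ (k : ℕ) (r : ℝ), |r| < 1 → ∀ S : State κ0,
    ∃ S', Step k r S S' := by
  obtain ⟨κ0, hκ0, hcore⟩ := core
  refine ⟨κ0, hκ0, fun k r hr S => ?_⟩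
  obtain ⟨κ, hκ, hsm⟩ := S.small
  have hγ := S.pos
  have hmass := S.mass
  have hm0 : 0 ≤ S.μ.real Set.univ := measureReal_nonneg
  obtain ⟨n, A, _, x, w, γ, hkn, hx, hw, hwδ, hγ0, hmain⟩ := hcore (fnl S.nice) S.E
    (S.nice.fnl S.conc S.ne (by linarith)) S.sub (hsm.mono subset_rfl hκ.le) (S.γ / 3)
    (by positivity) k
  set g := min S.γ γ / 3 with hg
  have hg0 : 0 < g := by have := lt_min hγ hγ0; positivity
  have hg1 : g ≤ S.γ / 3 := by have := min_le_left S.γ γ; linarith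
  have hg2 : g ≤ γ / 3 := by have := min_le_right S.γ γ; linarith
  let x' : Option A → ℝ := fun o => o.elim r x
  let w' : Option A → ℝ := fun o => o.elim g w
  have hx' : ∀ o, |x' o| < 1 := by rintro (_ | a); exacts [hr, hx a]
  have hw' : ∀ o, 0 ≤ w' o := by rintro (_ | a); exacts [hg0.le, hw a]
  have hsum : ∑ o, w' o = g + ∑ a, w a := by rw [Fintype.sum_option]; rfl
  obtain ⟨τ0, hτ0, hsmall⟩ := exists_small x' ((κ0 - κ) / 2) (by linarith)
  have hev : ∀ c : ℝ, 0 < c → ∀ᶠ τ in 𝓝[>] (0 : ℝ), τ ≤ c := fun c hc =>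
    nhdsWithin_le_nhds (ge_mem_nhds hc)
  obtain ⟨τ, ⟨hτ1, hτ2, hτ3⟩, hτ⟩ := (((Filter.eventually_all.2 (fun o => hev (1 - |x' o|)
    (by linarith [hx' o]))).and ((hev τ0 hτ0).and (hev (γ / 6) (by positivity)))).and
    (self_mem_nhdsWithin : ∀ᶠ τ in 𝓝[>] (0 : ℝ), τ ∈ Set.Ioi 0)).exists
  replace hτ : 0 < τ := hτ
  have hb : ∀ o, Nice (bump (x' o) τ (w' o)) := fun o => bump_nice _ _ _ hτ (hw' o) (hτ1 o)
  set l : Measure ℝ := ∑ o, bump (x' o) τ (w' o) with hl
  have hln : Nice l := nice_sum _ _ hb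
  have hlr : l.real Set.univ = ∑ o, w' o := by
    rw [measureReal_def, hl, Measure.finsetSum_apply, ENNReal.toReal_sum (fun o _ => by
      have := (hb o).fin
      exact measure_ne_top _ _)]
    exact Finset.sum_congr rfl (fun o _ => bump_real _ _ _ hτ (hw' o))
  have := S.nice.fin
  have := hln.fin
  have hadd : (S.μ + l).real Set.univ = S.μ.real Set.univ + (g + ∑ a, w a) := by
    rw [measureReal_add_apply, hlr, hsum]
  refine ⟨⟨S.μ + l, S.E ∪ ⋃ o, Set.Icc (x' o - τ) (x' o + τ), g, S.nice.add hln, ?_, ?_, ?_,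
    ⟨κ + (κ0 - κ) / 2, by linarith, hsm.union (hsmall τ hτ2)⟩, hg0, by linarith⟩,
    ⟨l, rfl⟩, by change (S.μ + l).real _ + g ≤ _; linarith, fun a b ha hb' => ?_,
    fun ν hν hle hνm p hp => ⟨n, hkn, hmain _ (fun P C hP => ?_) p hp⟩⟩
  · intro h0
    exact S.ne (le_antisymm (h0 ▸ Measure.le_add_right le_rfl) (Measure.zero_le _))
  · rw [Measure.add_apply, measure_mono_null (Set.compl_subset_compl.2 Set.subset_union_left) S.conc,
      zero_add, hl, Measure.finsetSum_apply]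
    exact Finset.sum_eq_zero (fun o _ => bump_compl _ _ _
      (Set.subset_union_of_subset_right (Set.subset_iUnion
        (fun o => Set.Icc (x' o - τ) (x' o + τ)) o) _))
  · refine Set.union_subset S.sub (Set.iUnion_subset (fun o => Set.Icc_subset_Icc ?_ ?_))
    · linarith [neg_abs_le (x' o), hτ1 o]
    · linarith [le_abs_self (x' o), hτ1 o]
  · change 0 < (S.μ + l) _
    rw [Measure.add_apply, hl, Measure.finsetSum_apply, Fintype.sum_option]
    exact lt_of_lt_of_le (bump_pos r τ g hτ hg0 a b ha hb') (le_self_add.trans le_add_self)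
  · change S.μ + l ≤ ν at hle
    change _ ≤ (S.μ + l).real _ + g at hνm
    have := hν.fin
    have hν' := Measure.sub_add_cancel_of_le hle
    set m := ν - (S.μ + l)
    have hmn : Nice m := hν.of_le Measure.sub_le
    have := hmn.fin
    have hmr : m.real Set.univ ≤ g := by
      rw [← hν', measureReal_add_apply] at hνm
      linarith
    have hc := (P * P).continuous
    have e1 : fnl hν (P * P) = ∫ t, (P * P).eval t ∂m + (fnl S.nice (P * P)
        + ∑ o, ∫ t, (P * P).eval t ∂(bump (x' o) τ (w' o))) := by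
      rw [fnl_apply, fnl_apply, ← integral_finsetSum_measure (fun o _ => (hb o).integrable hc),
        ← hl, ← integral_add_measure (S.nice.integrable hc) (hln.integrable hc),
        ← integral_add_measure (hmn.integrable hc) ((S.nice.add hln).integrable hc), hν']
    have hsq : ∀ t ∈ Set.Icc (-1 : ℝ) 1, P.eval t ^ 2 ≤ C ^ 2 := fun t ht => by
      rw [← sq_abs]
      exact pow_le_pow_left₀ (abs_nonneg _) (hP t ht).1 2
    have e2 : |∫ t, (P * P).eval t ∂m| ≤ C ^ 2 * g := by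
      have := norm_integral_le_of_norm_le_const (μ := m) (f := fun t => (P * P).eval t)
        (C := C ^ 2) (by
          filter_upwards [mem_ae_iff.2 hmn.supp] with t ht
          rw [Real.norm_eq_abs, eval_mul, ← sq, abs_of_nonneg (sq_nonneg _)]
          exact hsq t ht)
      exact this.trans (by gcongr)
    have e3 : |∑ o, ∫ t, (P * P).eval t ∂(bump (x' o) τ (w' o)) - ∑ o, w' o * P.eval (x' o) ^ 2|
        ≤ (g + ∑ a, w a) * (2 * τ * C ^ 2) := by
      rw [← Finset.sum_sub_distrib, ← hsum, Finset.sum_mul]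
      exact (Finset.abs_sum_le_sum_abs _ _).trans (Finset.sum_le_sum
        (fun o _ => bump_integral _ _ _ hτ (hw' o) (hτ1 o) P C hP))
    have e4 : ∑ o, w' o * P.eval (x' o) ^ 2 = g * P.eval r ^ 2 + ∑ a, w a * P.eval (x a) ^ 2 := by
      rw [Fintype.sum_option]; rfl
    have e5 : g * P.eval r ^ 2 ≤ g * C ^ 2 :=
      mul_le_mul_of_nonneg_left (hsq r (abs_le.1 hr.le)) hg0.le
    have e6 : 0 ≤ g * P.eval r ^ 2 := by positivity
    have e7 : (g + ∑ a, w a) * (2 * τ * C ^ 2) ≤ 1 * (2 * (γ / 6) * C ^ 2) := by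
      gcongr
      linarith
    have e8 : g * C ^ 2 ≤ γ / 3 * C ^ 2 := by gcongr
    rw [e4] at e3
    rw [e1]
    rw [abs_le] at e2 e3 ⊢
    constructor <;> linarith [e2.1, e2.2, e3.1, e3.2]

lemma exists_init (κ0 : ℝ) (hκ0 : 0 < κ0) : Nonempty (State κ0) := by
  obtain ⟨τ0, hτ0, h⟩ := exists_small (fun _ : Unit => (0 : ℝ)) (κ0 / 2) (by positivity)
  have hτ : 0 < min τ0 1 := lt_min hτ0 one_pos
  have h1 := min_le_right τ0 1
  refine ⟨⟨bump 0 (min τ0 1) (1 / 2), Set.Icc (0 - min τ0 1) (0 + min τ0 1), 1 / 2,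
    bump_nice _ _ _ hτ (by norm_num) (by simp), fun h0 => ?_, bump_compl _ _ _ subset_rfl,
    Set.Icc_subset_Icc (by linarith) (by linarith), ⟨κ0 / 2, by linarith,
      (h _ (min_le_left _ _)).mono (Set.subset_iUnion (fun _ : Unit => _) ()) le_rfl⟩,
    by norm_num, ?_⟩⟩
  · have := bump_real 0 (min τ0 1) (1 / 2) hτ (by norm_num)
    rw [h0] at this
    simp at this
  · rw [bump_real _ _ _ hτ (by norm_num)]; norm_num

lemma exists_limit (μ : ℕ → Measure ℝ) (h : ∀ k, ∃ l, μ (k + 1) = μ k + l) :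
    ∃ ν : Measure ℝ, (∀ k, μ k ≤ ν) ∧
      ∀ s, MeasurableSet s → ∀ c, (∀ k, μ k s ≤ c) → ν s ≤ c := by
  choose l hl using h
  let f : ℕ → Measure ℝ := fun k => Nat.casesOn k (μ 0) l
  have hf : ∀ k, μ k = ∑ j ∈ range (k + 1), f j := by
    intro k
    induction k with
    | zero => simp [f]
    | succ k ih => rw [Finset.sum_range_succ, ← ih, hl]
  refine ⟨Measure.sum f, fun k => Measure.le_iff.2 (fun s hs => ?_), fun s hs c hc => ?_⟩
  · rw [hf, Measure.finsetSum_apply, Measure.sum_apply _ hs]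
    exact ENNReal.sum_le_tsum _
  · rw [Measure.sum_apply _ hs]
    refine ENNReal.tsum_le_of_sum_range_le (fun n => ?_)
    rcases n with _ | n
    · simp
    · rw [← Measure.finsetSum_apply, ← hf]
      exact hc n

theorem exists_measure : ∃ (ν : Measure ℝ) (hν : Nice ν),
    (∀ x ∈ Set.Icc (-1 : ℝ) 1, ∀ ε : ℝ, 0 < ε → 0 < ν (Set.Ioo (x - ε) (x + ε))) ∧
    ∃ p, IsONP (wform (fnl hν) 1) p ∧ ∀ k : ℕ, ∃ n, k ≤ n ∧ BigVar p n (k * n) := by
  obtain ⟨κ0, hκ0, hstage⟩ := stage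
  obtain ⟨S0⟩ := exists_init κ0 hκ0
  obtain ⟨e, he⟩ := exists_surjective_nat ℚ
  let r : ℕ → ℝ := fun k => if |(e k : ℝ)| < 1 then e k else 0
  have hr : ∀ k, |r k| < 1 := fun k => by
    simp only [r]
    split_ifs with h
    · exact h
    · simp
  choose F hF using fun k S => hstage k (r k) (hr k) S
  let S : ℕ → State κ0 := fun k => Nat.rec S0 F k
  have hS : ∀ k, Step k (r k) (S k) (S (k + 1)) := fun k => hF k (S k)
  obtain ⟨ν, hle, hub⟩ := exists_limit (fun k => (S k).μ) (fun k => (hS k).1)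
  have hanti : Antitone (fun k => (S k).μ.real Set.univ + (S k).γ) :=
    antitone_nat_of_succ_le (fun k => (hS k).2.1)
  have hmono : Monotone (fun k => (S k).μ) := monotone_nat_of_le_succ (fun k => by
    obtain ⟨l, hl⟩ := (hS k).1
    rw [hl]
    exact Measure.le_add_right le_rfl)
  have hb : ∀ k, ν Set.univ ≤ ENNReal.ofReal ((S k).μ.real Set.univ + (S k).γ) := by
    intro k
    refine hub _ MeasurableSet.univ _ (fun j => ?_)
    refine (hmono (le_max_left j k) Set.univ).trans ?_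
    have := (S (max j k)).nice.fin
    rw [← ofReal_measureReal]
    refine ENNReal.ofReal_le_ofReal (le_trans ?_ (hanti (le_max_right j k)))
    linarith [(S (max j k)).pos]
  have hb' : ∀ k, ν.real Set.univ ≤ (S k).μ.real Set.univ + (S k).γ := fun k =>
    ENNReal.toReal_le_of_le_ofReal (add_nonneg measureReal_nonneg (S k).pos.le) (hb k)
  have hν : Nice ν := ⟨⟨(hb 0).trans_lt ENNReal.ofReal_lt_top⟩,
    Measure.AbsolutelyContinuous.mk (fun s hs h0 => nonpos_iff_eq_zero.1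
      (hub s hs 0 (fun k => ((S k).nice.ac h0).le))),
    nonpos_iff_eq_zero.1 (hub _ measurableSet_Icc.compl 0 (fun k => (S k).nice.supp.le))⟩
  have hν0 : ν ≠ 0 := fun h0 =>
    (S 0).ne (le_antisymm (h0 ▸ hle 0) (Measure.zero_le _))
  obtain ⟨p, hp⟩ := (hν.fnl hν.supp hν0 ((hb' 0).trans (S 0).mass)).exists_onp 1 one_ne_zero
  refine ⟨ν, hν, fun x hx ε hε => ?_, p, hp, fun k => (hS k).2.2.2 ν hν (hle (k + 1)) (hb' (k + 1)) p hp⟩
  obtain ⟨t, ht1, ht2⟩ := exists_rat_btwn (show max (-1) (x - ε) < min 1 (x + ε) from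
    max_lt (lt_min (by norm_num) (by linarith [hx.1])) (lt_min (by linarith [hx.2]) (by linarith)))
  rw [max_lt_iff] at ht1
  rw [lt_min_iff] at ht2
  obtain ⟨k, rfl⟩ := he t
  have hrk : r k = e k := if_pos (abs_lt.2 ⟨ht1.1, ht2.1⟩)
  exact ((hS k).2.2.1 _ _ (hrk ▸ ht1.2) (hrk ▸ ht2.2)).trans_le (hle (k + 1) _)

end Pool.Agent.MP_f6b137_pr.H13
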